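import Pool.Agent.Helper9.TF.StateA

/-!
# The Kashaev invariant of a two-bridge link as a matrix product, continued
-/

namespace Pool.Agent.Helper9.Kashaev

open Finset
open scoped Matrix

/-- the word of the twist regions -/
def tw : ℕ → (ℕ → ℕ) → List Bool
  | 0, _ => []
  | n + 1, a => tw n a ++ List.replicate (a n) (decide (n % 2 = 0))

lemma wordD_tw (n : ℕ) (a : ℕ → ℕ) : wordD 0 (tw n a) = twistRegions n a := by
  induction n with
  | zero => rfl
  | succ n ih =>
    simp only [tw, twistRegions, wordD_append, ih]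
    congr 1
    by_cases h : n % 2 = 0
    · rw [decide_eq_true h, if_pos h, wordD_true]
    · rw [decide_eq_false h, if_neg h, wordD_false]

/-- the block product -/
noncomputable def BP (N : ℕ) (a : ℕ → ℕ) : ℕ → Matrix (Fin (N - 0)) (Fin (N - 0)) ℂ
  | 0 => 1
  | n + 1 => (if n % 2 = 0 then Am N 0 else Cm N 0) ^ (a n) * BP N a n

lemma ML_lev {N : ℕ} (b : Bool) (r : ℕ) (x y : I2 N) (h : (ML N b ^ r) x y ≠ 0) :
    lev y = lev x := by
  cases b
  · exact MCr_lev r x y h
  · exact MAr_lev r x y h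

lemma MW_tw {N : ℕ} (h0 : 0 < N) (a : ℕ → ℕ) (n : ℕ) :
    (MW N (tw n a)).submatrix (im N 0) (im N 0) = BP N a n := by
  induction n with
  | zero =>
    simp only [tw, MW, BP]
    ext x y
    rw [Matrix.submatrix_apply, Matrix.one_apply, Matrix.one_apply]
    by_cases h : x = y
    · subst h; simp
    · rw [if_neg h, if_neg (fun h' => h (im_inj N 0 h'))]
  | succ n ih =>
    simp only [tw, BP]
    rw [MW_append, MW_replicate, block_mul _ _ _ (im_inj N 0)
      (lev_im_surj h0 _ (ML_lev _ _)), ih]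
    congr 1
    by_cases h : n % 2 = 0
    · rw [decide_eq_true h, if_pos h]
      exact Am_pow h0 (a n)
    · rw [decide_eq_false h, if_neg h]
      exact Cm_pow h0 (a n)

/-- the vectors of the state sum -/
noncomputable def vv (N : ℕ) (h0 : 0 < N) (a : ℕ → ℕ) : ℕ → Fin (N - 0) → ℂ
  | 0 => Pi.single ⟨0, by omega⟩ 1
  | n + 1 => (if n % 2 = 0 then (AMz N) ^ (a n) else ((AMz N) ^ (a n))ᴴ).mulVec (vv N h0 a n)

lemma gau_ne (N a : ℕ) : gau N a ≠ 0 := fun h => by
  have := norm_gau N a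
  rw [h, norm_zero] at this
  exact zero_ne_one this

lemma gau_conj (N a : ℕ) : (starRingEnd ℂ) (gau N a) = (gau N a)⁻¹ := by
  rw [Complex.inv_def, Complex.normSq_eq_norm_sq, norm_gau]
  simp

lemma gau_Cm_pow {N : ℕ} (hN : 2 ≤ N) (r : ℕ) (l k : Fin (N - 0)) :
    gau N l * (Cm N 0 ^ r) l k =
      (starRingEnd ℂ) (tht N 0 0) ^ r * ((((AMz N) ^ r)ᴴ) l k * gau N k) := by
  rw [Cm_zero hN, ← Matrix.conjTranspose_pow, Matrix.conjTranspose_apply, Matrix.conjTranspose_apply,
    Complex.star_def]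
  have h := congrArg (starRingEnd ℂ) (gau_Am_pow hN r k l)
  simp only [map_mul, map_pow, gau_conj] at h
  have h1 := gau_ne N l
  have h2 := gau_ne N k
  field_simp at h
  linear_combination h

lemma BP_vv {N : ℕ} (hN : 2 ≤ N) (h0 : 0 < N) (a : ℕ → ℕ) (n : ℕ) : ∃ c : ℂ, ‖c‖ = 1 ∧
    ∀ l : Fin (N - 0), gau N l * BP N a n l ⟨0, by omega⟩ = c * vv N h0 a n l := by
  induction n with
  | zero =>
    refine ⟨1, norm_one, fun l => ?_⟩
    simp only [BP, vv, Matrix.one_apply]
    by_cases h : l = ⟨0, by omega⟩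
    · subst h; simp [gau]
    · rw [if_neg h, Pi.single_eq_of_ne h]; ring
  | succ n ih =>
    obtain ⟨c, hc, ih⟩ := ih
    by_cases h : n % 2 = 0
    · refine ⟨tht N 0 0 ^ (a n) * c, by rw [norm_mul, norm_pow, norm_tht, one_pow, one_mul, hc],
        fun l => ?_⟩
      simp only [BP, vv, if_pos h, Matrix.mul_apply, Matrix.mulVec, dotProduct]
      rw [mul_sum, mul_sum]
      apply sum_congr rfl
      intro k _
      have h1 := gau_Am_pow hN (a n) l k
      have h2 := ih k
      linear_combination (BP N a n k ⟨0, by omega⟩) * h1 +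
        (tht N 0 0 ^ (a n) * (AMz N ^ (a n)) l k) * h2
    · refine ⟨(starRingEnd ℂ) (tht N 0 0) ^ (a n) * c, by
        rw [norm_mul, norm_pow, RCLike.norm_conj, norm_tht, one_pow, one_mul, hc], fun l => ?_⟩
      simp only [BP, vv, if_neg h, Matrix.mul_apply, Matrix.mulVec, dotProduct]
      rw [mul_sum, mul_sum]
      apply sum_congr rfl
      intro k _
      have h1 := gau_Cm_pow hN (a n) l k
      have h2 := ih k
      linear_combination (BP N a n k ⟨0, by omega⟩) * h1 +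
        ((starRingEnd ℂ) (tht N 0 0) ^ (a n) * ((AMz N ^ (a n))ᴴ) l k) * h2

lemma norm_BP {N : ℕ} (hN : 2 ≤ N) (h0 : 0 < N) (a : ℕ → ℕ) (n : ℕ) (l : Fin (N - 0)) :
    ‖BP N a n l ⟨0, by omega⟩‖ = ‖vv N h0 a n l‖ := by
  obtain ⟨c, hc, h⟩ := BP_vv hN h0 a n
  have h1 := congrArg norm (h l)
  rw [norm_mul, norm_mul, norm_gau, hc] at h1
  simpa using h1

/-- The Kashaev invariant of a two-bridge link, up to a factor of modulus one. -/
theorem link_value {N : ℕ} (hN : 2 ≤ N) (h0 : 0 < N) (n : ℕ) (a : ℕ → ℕ) : ∃ z : ℂ,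
    IsKashaev N (twoBridgeLink n a) z ∧
    ‖z‖ = ‖vv N h0 a n (if n % 2 = 0 then ⟨0, by omega⟩ else ⟨N - 1, by omega⟩)‖ := by
  have hw0 : w2 N 0 = 1 := by simp [w2, qfac_zero]
  have hw1 : w2 N (N - 1) ≠ 0 := w2_ne (by omega)
  set w : List Bool := tw n a with hw
  have hD : twoBridgeLink n a = [(1, .cup)] ++ wordD 0 w ++ [(if n % 2 = 0 then 0 else 1, .cap)] := by
    rw [hw, wordD_tw]
    rfl
  have h1 : Sup N 1 (ket [0]) := Sup_ket (w := [0]) (by intro x hx; simp at hx; omega)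
  set f0 := slice N .cup 1 (ket [0]) with hf0
  have h2 : Sup N 3 f0 := h1.cup 1
  have hE0 : Eop N f0 = fun _ => 0 := by
    rw [hf0, ← slice_E hN, Eop_ket_zero, slice_zero_fun]
  set f : S3 N := ⟨f0, h2⟩ with hf
  have hEf : ES N f = 0 := Subtype.ext hE0
  have h3 := rhoS_WS hN w f hEf
  set g : S3 N := WS N w f with hg
  have hEg : ES N g = 0 := by rw [hg, ← WS_comm hN, hEf, map_zero]
  have hgE : Eop N g.1 = 0 := congrArg Subtype.val hEg
  have hg3 : Sup3 N g.1 := Sup3_iff.mp g.2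
  have hRT : RT N (twoBridgeLink n a) (ket [0]) = slice N .cap (if n % 2 = 0 then 0 else 1) g.1 := by
    rw [hD, RT_append, RT_append, hg, WS_coe]
    rfl
  have hsup : Sup N 1 (RT N (twoBridgeLink n a) (ket [0])) := by
    rw [hRT]; exact g.2.cap _
  have hK := isKashaev_of_Sup hN _ hsup
  -- the coordinates of the initial vector
  set x0 : I2 N := im N 0 ⟨0, by omega⟩ with hx0
  have hr0 : rhoS N f = fun y => if y = x0 then w2 N (N - 1) else 0 := by
    funext y
    obtain ⟨⟨a', ha⟩, ⟨c, hc⟩⟩ := y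
    show gg N f0 a' 0 c = _
    unfold gg
    have e1 : f0 [a', 0, c] = if a' = 0 ∧ c = N - 1 then 1 else 0 := by
      rw [hf0]
      simp only [slice, piece]
      by_cases hc1 : c = N - 1
      · subst hc1
        rw [if_pos (by omega)]
        by_cases ha0 : a' = 0
        · subst ha0; simp [ket, cupC]
        · simp [ket, ha0]
      · rw [if_neg (by omega), if_neg (by tauto)]
    rw [e1]
    have e2 : ((⟨a', ha⟩, ⟨c, hc⟩) : I2 N) = x0 ↔ (a' = 0 ∧ c = N - 1) := by
      rw [hx0]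
      simp only [im, Prod.mk.injEq, Fin.mk.injEq]
      omega
    by_cases h : a' = 0 ∧ c = N - 1
    · rw [if_pos h, if_pos (e2.mpr h)]
      obtain ⟨rfl, rfl⟩ := h
      rw [hw0]; ring
    · rw [if_neg h, if_neg (fun h' => h (e2.mp h'))]
      ring
  have hcol : ∀ x : Fin (N - 0), rhoS N g (im N 0 x) = BP N a n x ⟨0, by omega⟩ * w2 N (N - 1) := by
    intro x
    have h4 := congrFun h3 (im N 0 x)
    rw [hr0] at h4
    unfold Matrix.mulVec dotProduct at h4
    simp only [mul_ite, mul_zero, sum_ite_eq', mem_univ, if_true] at h4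
    rw [h4, ← MW_tw h0]
    rfl
  by_cases h : n % 2 = 0
  · have hval : RT N (twoBridgeLink n a) (ket [0]) [0] = g.1 [0, 0, N - 1] := by
      rw [hRT, if_pos h, cap_ker hN hg3 hgE]
    refine ⟨g.1 [0, 0, N - 1], by rw [← hval]; exact hK, ?_⟩
    rw [if_pos h, ← norm_BP hN h0]
    have h5 : rhoS N g (im N 0 ⟨0, by omega⟩) = w2 N (N - 1) * g.1 [0, 0, N - 1] := by
      show gg N g.1 _ 0 _ = _
      unfold gg
      simp only [im, Nat.sub_zero]
      rw [hw0]; ring
    have h6 := hcol ⟨0, by omega⟩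
    rw [h5, mul_comm] at h6
    rw [mul_right_cancel₀ hw1 h6]
  · have hval : RT N (twoBridgeLink n a) (ket [0]) [0] =
        v N ^ (-(((N : ℤ) - 1) ^ 2)) * g.1 [N - 1, 0, 0] := by
      rw [hRT, if_neg h, cap_ker' hN hg3 hgE]
    refine ⟨v N ^ (-(((N : ℤ) - 1) ^ 2)) * g.1 [N - 1, 0, 0], by rw [← hval]; exact hK, ?_⟩
    rw [if_neg h, ← norm_BP hN h0, norm_mul, norm_v_zpow, one_mul]
    have h5 : rhoS N g (im N 0 ⟨N - 1, by omega⟩) = w2 N (N - 1) * g.1 [N - 1, 0, 0] := by
      show gg N g.1 _ 0 _ = _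
      unfold gg
      simp only [im, Nat.sub_zero, Nat.sub_self]
      rw [hw0]; ring
    have h6 := hcol ⟨N - 1, by omega⟩
    rw [h5, mul_comm] at h6
    rw [mul_right_cancel₀ hw1 h6]

end Pool.Agent.Helper9.Kashaev
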