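import Pool.Agent.Helper9.TB.RDefs2

/-!
# Two-bridge links with many crossings in each twist region: the basic functions

Only definitions.
-/

namespace Pool.Agent.Helper9.TF

open Complex Finset
open Pool.Agent.Helper9.TB

/-- the points `x_k = (2 k + 1) / (2 N)` -/
noncomputable def xk (N k : ℕ) : ℝ := (2 * k + 1) / (2 * N)

/-- the basic functions of the kernel -/
noncomputable def gm (N m : ℕ) (y : ℂ) : ℂ :=
  (∏ k ∈ range m, 4 * Complex.cos (Real.pi * (y + xk N k)) * Complex.cos (Real.pi * (y - xk N k))) /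
    ((sf N m : ℝ) : ℂ) ^ 2

/-- `∏_{k < N} (Ly y - lam k) = 2 + (-1) ^ N * 2 cos (2 π N y)` -/
noncomputable def DN (N : ℕ) (y : ℂ) : ℂ := ∏ k ∈ range N, (Ly y - lam N k)

/-- the weight of one twist region with `a` crossings -/
noncomputable def om (N a : ℕ) (y : ℂ) : ℂ :=
  Complex.exp (Real.pi * I * (a * N) * y ^ 2) * dLy y / DN N y

/-- the transition of one twist region -/
noncomputable def site (N a : ℕ) (h : ℝ) (f : ℂ → ℂ) (m : ℕ) : ℂ :=
  PI (fun y => om N a y * gm N m y * f y) h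

/-- `log (2 cos π u)` -/
noncomputable def cc (u : ℂ) : ℂ := Complex.log (2 * Complex.cos (Real.pi * u))

/-- the primitive of `cc` -/
noncomputable def CC (u : ℂ) : ℂ := u * ∫ s in (0 : ℝ)..1, cc (s * u)

/-- the limit exponent of `gm` -/
noncomputable def gam (y t : ℂ) : ℂ := CC (t + y) + CC (t - y) - 2 * CC (t - 1 / 2)

/-- the derivative of `gam` in `y` -/
noncomputable def gamy (y t : ℂ) : ℂ := cc (t + y) - cc (t - y)

/-- the derivative of `gam` in `t` -/
noncomputable def gamt (y t : ℂ) : ℂ := cc (t + y) + cc (t - y) - 2 * cc (t - 1 / 2)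

/-- the exponent of a twist region with `a` crossings -/
noncomputable def Psi (a : ℕ) (X : ℂ → ℂ) (y : ℂ) : ℂ :=
  Real.pi * I * a * y ^ 2 - 2 * Real.pi * I * y + X y

/-- the local part of the integral of a twist region -/
noncomputable def IL (N a : ℕ) (h ρ : ℝ) (X B : ℂ → ℂ) : ℂ :=
  ∫ ξ in (-(ρ / 2))..(ρ / 2), om N a (pt ξ h) * Complex.exp (N * X (pt ξ h)) * B (pt ξ h)

/-- `S` is `-2 π d y` up to a function with small Lipschitz constant -/
def LipS (c : ℂ) (ρ d ε : ℝ) (S : ℂ → ℂ) : Prop :=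
  ∀ y ∈ Metric.ball c ρ, ∀ z ∈ Metric.ball c ρ, ‖S y - S z + 2 * Real.pi * d * (y - z)‖ ≤ ε * ‖y - z‖

/-- the window of the sum over `m` -/
noncomputable def Wd (N : ℕ) (r : ℝ) : Finset ℕ :=
  (range N).filter (fun m : ℕ => |(m : ℝ) / N - 1 / 4| ≤ r / 2)

/-- the local part of the sum over `m` -/
noncomputable def KS (N : ℕ) (r : ℝ) (T B : ℂ → ℂ) : ℂ :=
  ∑ m ∈ Wd N r, Complex.exp (N * T (m / N)) * B (m / N)

/-- the real exponent of `gm N m 0` -/
noncomputable def U0 (τ : ℝ) : ℝ := 2 * ll (τ + 1 / 2) - 2 * ll τ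

end Pool.Agent.Helper9.TF
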