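import Pool.Agent.Helper9.TB.GFDefs

/-!
# The angle structure volume functional for the two-bridge links `C(a 0, …, a (n - 1))`

Only definitions.  The canonical ideal triangulation of the complement of the two-bridge
link `C(a 0, …, a (n - 1))` (word `R ^ (a 0 - 1) L ^ (a 1) R ^ (a 2) ⋯`, the last exponent
being `a (n - 1) - 1`) has the layers `i = 2, …, c - 2`, `c = a 0 + ⋯ + a (n - 1)`, with two ideal
tetrahedra in each layer.  Pleating angles `w 1 = π, w 2, …, w (c - 1) = π`; the dihedral angles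
of the two tetrahedra of the layer `i` are `gx, gy, π - w i`.  The hinges are the layers
`a 0, a 0 + a 1, …, a 0 + ⋯ + a (n - 2)`.
-/

namespace Pool.Agent.Helper9.TF

open Real Finset
open Pool.Agent.Helper9.TB (Lob)

/-- The hinge layers. -/
def hinges (n : ℕ) (a : ℕ → ℕ) : Finset ℕ :=
  (range (n - 1)).image (fun j => ∑ k ∈ range (j + 1), a k)

/-- The number of crossings. -/
def crossings (n : ℕ) (a : ℕ → ℕ) : ℕ := ∑ k ∈ range n, a k

/-- First dihedral angle of the layer `i`. -/
noncomputable def gx (n : ℕ) (a : ℕ → ℕ) (w : ℕ → ℝ) (i : ℕ) : ℝ :=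
  if i ∈ hinges n a then (w i + w (i - 1) - w (i + 1)) / 2 else (w (i - 1) + w (i + 1)) / 2

/-- Second dihedral angle of the layer `i`. -/
noncomputable def gy (n : ℕ) (a : ℕ → ℕ) (w : ℕ → ℝ) (i : ℕ) : ℝ := w i - gx n a w i

/-- Nonnegative angle assignments. -/
structure Adm (n : ℕ) (a : ℕ → ℕ) (w : ℕ → ℝ) : Prop where
  first : w 1 = π
  last : w (crossings n a - 1) = π
  nonneg : ∀ i, 2 ≤ i → i ≤ crossings n a - 2 → 0 ≤ gx n a w i ∧ 0 ≤ gy n a w i ∧ 0 ≤ π - w i

/-- The volume functional: the sum of the volumes of the ideal tetrahedra with the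
given dihedral angles. -/
noncomputable def gvol (n : ℕ) (a : ℕ → ℕ) (w : ℕ → ℝ) : ℝ :=
  ∑ i ∈ Icc 2 (crossings n a - 2), 2 * (Lob (gx n a w i) + Lob (gy n a w i) + Lob (π - w i))

end Pool.Agent.Helper9.TF
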