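import Pool.Agent.Helper9.TF.Defs
import Pool.Agent.Helper9.TF.GFDefs

/-!
# Definitions for the induction over the twist regions
-/

namespace Pool.Agent.Helper9.TF

open Complex Finset
open Pool.Agent.Helper9.TB

/-- the logarithmic derivative per `N` -/
noncomputable def sl (N : ℕ) (f : ℂ → ℂ) (y : ℂ) : ℂ := deriv f y / (N * f y)

/-- the functions in the induction; `θ = 0` for the first twist region, `θ = 1` afterwards -/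
structure Good (ρ h0 e4 : ℝ) (N : ℕ) (θ : ℝ) (f : ℂ → ℂ) : Prop where
  ent : Differentiable ℂ f
  even : ∀ y, f (-y) = f y
  ne : ∀ y ∈ Metric.ball (0 : ℂ) ρ, f y ≠ 0
  lip : LipS 0 ρ θ (1 / 2) (sl N f)
  glob : ∀ y : ℂ, |y.re| ≤ 1 / 2 → |y.im| ≤ h0 → ‖f y‖ ≤ ‖f 0‖ * Real.exp (N * e4)

/-- exponential decay away from the imaginary axis -/
def Decay (ρ h0 : ℝ) (N : ℕ) (f : ℂ → ℂ) : Prop :=
  ∀ y : ℂ, |y.re| ≤ 1 / 2 → |y.im| ≤ h0 → ρ / 2 ≤ |y.re| →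
    ‖f y‖ ≤ ‖f 0‖ * Real.exp (-(N * (ρ ^ 2 / 8)))

/-- the next function, before complex conjugation -/
noncomputable def nx (N a : ℕ) (h : ℝ) (f : ℂ → ℂ) (y : ℂ) : ℂ :=
  ∑ m ∈ range N, site N a h f m * gm N m y

/-- the asymptotic data of `F = nx N a h f` at the point `y` -/
structure Asy (C : ℝ) (N a : ℕ) (f F : ℂ → ℂ) (y t z : ℂ) : Prop where
  near_t : ‖t - 1 / 4‖ ≤ 1 / 400
  near_z : ‖z - 1 / a‖ ≤ 3 / a ^ 2
  e1 : ‖gamt y t + gamt z t‖ ≤ C / Real.sqrt N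
  e2 : ‖2 * Real.pi * I * a * z - 2 * Real.pi * I + gamy z t + sl N f z‖ ≤ C / Real.sqrt N
  e3 : ‖sl N F y - gamy y t‖ ≤ C / Real.sqrt N
  e4 : |Real.log ‖F y‖ - Real.log ‖f z‖ -
    N * (gam y t + gam z t + Real.pi * I * a * z ^ 2 - 2 * Real.pi * I * z).re| ≤
      C * (1 + Real.log N)

/-- the induction step and the last step, with constants `ρ, h0, e4, R` -/
structure StepThm (ρ h0 e4 : ℝ) (R : ℕ) : Prop where
  rho_pos : 0 < ρ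
  rho_le : ρ ≤ 1 / 1000
  h0_pos : 0 < h0
  e4_pos : 0 < e4
  step : ∀ a : ℕ, R ≤ a → ∀ θ : ℝ, (θ = 0 ∨ θ = 1) → ∃ C : ℝ, 0 < C ∧ ∃ N0 : ℕ, ∀ N : ℕ, N0 ≤ N →
    ∀ f : ℂ → ℂ, Good ρ h0 e4 N θ f →
      Good ρ h0 e4 N 1 (nx N a ((1 + θ) / a ^ 2) f) ∧ Decay ρ h0 N (nx N a ((1 + θ) / a ^ 2) f) ∧
      ∀ y ∈ Metric.ball (0 : ℂ) ρ, ∃ t z : ℂ, Asy C N a f (nx N a ((1 + θ) / a ^ 2) f) y t z
  last : ∀ a : ℕ, R ≤ a → ∃ C : ℝ, 0 < C ∧ ∃ N0 : ℕ, ∀ N : ℕ, N0 ≤ N →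
    ∀ f : ℂ → ℂ, Good ρ h0 e4 N 1 f → Decay ρ h0 N f →
      ∃ z : ℂ, ‖z - 1 / a‖ ≤ 3 / a ^ 2 ∧
        2 * Real.pi * I * a * z - 2 * Real.pi * I + sl N f z = 0 ∧
        |Real.log ‖site N a (1 / a ^ 2) f 0‖ - Real.log ‖f z‖ -
          N * (Real.pi * I * a * z ^ 2 - 2 * Real.pi * I * z).re| ≤ C * (1 + Real.log N)

/-- the heights of the contours -/
noncomputable def hgt (a : ℕ → ℕ) (n : ℕ) : ℝ := (if n = 0 then 1 else 2) / (a n : ℝ) ^ 2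

/-- the functions of the chain -/
noncomputable def fch (N : ℕ) (a : ℕ → ℕ) : ℕ → ℂ → ℂ
  | 0 => fun _ => 1
  | n + 1 => fun y => ∑ m ∈ range N,
      (starRingEnd ℂ) (site N (a n) (hgt a n) (fch N a n) m) * gm N m y

/-- critical point data, `(-1) ^ i` because of the complex conjugation at each step -/
structure Crit (n : ℕ) (a : ℕ → ℕ) (y t : ℕ → ℂ) : Prop where
  near_y : ∀ i, i < n → ‖y i - 1 / a i‖ ≤ 3 / (a i) ^ 2
  near_t : ∀ j, j + 1 < n → ‖t j - 1 / 4‖ ≤ 1 / 200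
  site : ∀ i, i < n → (-1) ^ i * (2 * Real.pi * I * (a i * y i - 1)) +
    (if i = 0 then 0 else gamy (y i) (t (i - 1))) + (if i + 1 = n then 0 else gamy (y i) (t i)) = 0
  kern : ∀ j, j + 1 < n → gamt (y j) (t j) + gamt (y (j + 1)) (t j) = 0

/-- the critical value -/
noncomputable def EV (n : ℕ) (a : ℕ → ℕ) (y t : ℕ → ℂ) : ℂ :=
  ∑ i ∈ range n, (-1) ^ i * (Real.pi * I * a i * y i ^ 2 - 2 * Real.pi * I * y i) +
    ∑ j ∈ range (n - 1), (gam (y j) (t j) + gam (y (j + 1)) (t j))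

end Pool.Agent.Helper9.TF
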