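import Mathlib
import Pool.Agent.Helper9.TF.StepDefs
import Pool.Agent.Helper11.TF.Lip
import Pool.Agent.Helper85.TF.SL
import Pool.Agent.Helper66.TF.KL
import Pool.Agent.Helper48.TF.Gaps
import Pool.Agent.Helper6.TF.Out

/-!
# Collection of the analytic facts
-/

namespace Pool.Agent.Helper9.TF

open Complex Finset Filter Topology
open Pool.Agent.Helper9.TB

theorem gm_le {h : ℝ} (hh : 0 < h) : ∃ (C : ℝ) (k : ℕ), 0 < C ∧ ∀ N m : ℕ, 2 ≤ N → m < N → ∀ y : ℂ,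
    |y.re| ≤ 1 / 2 → |y.im| ≤ h →
      ‖gm N m y‖ ≤ C * N ^ k * Real.exp (N * (win h y.re (m / N) - 2 * ll (m / N))) :=
  Pool.Agent.Helper48.TF.gm_le hh

theorem win_close {h ξ τ : ℝ} (hh : 0 < h) (h0 : 0 ≤ τ) (h1 : τ ≤ 1) :
    win h ξ τ ≤ win 0 ξ τ + 2 * Real.pi * h := Pool.Agent.Helper48.TF.win_close hh h0 h1

theorem win_gap {r : ℝ} (hr : 0 < r) : ∃ δ > 0, ∀ ξ τ : ℝ, |ξ| ≤ 1 / 2 → 0 ≤ τ → τ ≤ 1 →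
    r ≤ |τ - 1 / 4| → win 0 ξ τ - 2 * ll τ ≤ U0 (1 / 4) - δ := Pool.Agent.Helper48.TF.win_gap hr

theorem win_le_max {ξ τ : ℝ} (hξ : |ξ| ≤ 1 / 2) (h0 : 0 ≤ τ) (h1 : τ ≤ 1) :
    win 0 ξ τ - 2 * ll τ ≤ U0 (1 / 4) := Pool.Agent.Helper48.TF.win_le_max hξ h0 h1

theorem win_quad {ξ τ : ℝ} (hξ : |ξ| ≤ 1 / 2) (hτ : |τ - 1 / 4| ≤ 1 / 50) :
    win 0 ξ τ ≤ win 0 0 τ - ξ ^ 2 := Pool.Agent.Helper48.TF.win_quad hξ hτ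

theorem U0_eq {τ : ℝ} (h0 : 0 ≤ τ) (h1 : τ ≤ 1) : U0 τ = win 0 0 τ - 2 * ll τ :=
  Pool.Agent.Helper48.TF.U0_eq h0 h1

theorem gam_real {τ : ℝ} (hτ : |τ - 1 / 4| ≤ 1 / 20) : gam 0 τ = U0 τ :=
  Pool.Agent.Helper48.TF.gam_real hτ

end Pool.Agent.Helper9.TF
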