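import Mathlib
import Pool.Agent.Helper9.TF.StateB
import Pool.Agent.Helper9.TF.Base

/-!
# The recursion for the functions of the chain
-/

namespace Pool.Agent.Helper9.TF

open Complex Finset MeasureTheory intervalIntegral
open Pool.Agent.Helper9.TB Pool.Agent.Helper9.Kashaev
open scoped Matrix

lemma gm_differentiable (N m : ℕ) : Differentiable ℂ (gm N m) := by
  unfold gm
  fun_prop

lemma DN_differentiable (N : ℕ) : Differentiable ℂ (DN N) := by
  unfold DN Ly
  fun_prop

lemma om_contOn {N a : ℕ} {h : ℝ} (hh : 0 < h) : ContinuousOn (om N a) (PS h) := by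
  unfold om
  apply ContinuousOn.div
  · unfold dLy
    fun_prop
  · exact (DN_differentiable N).continuous.continuousOn
  · intro y hy
    exact DN_ne hh hy

lemma PI_sum {ι : Type*} (s : Finset ι) (F : ι → ℂ → ℂ) {h : ℝ} (hh : 0 ≤ h)
    (hF : ∀ i ∈ s, ContinuousOn (F i) (PS h)) :
    PI (fun y => ∑ i ∈ s, F i y) h = ∑ i ∈ s, PI (F i) h := by
  classical
  induction s using Finset.induction_on with
  | empty =>
    simp only [sum_empty]
    unfold PI hor ver
    simp
  | insert i s his ih =>
    rw [sum_insert his, ← ih (fun j hj => hF j (mem_insert_of_mem hj)),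
      ← PI_add hh (hF i (mem_insert_self i s))
        (continuousOn_finset_sum s (fun j hj => hF j (mem_insert_of_mem hj)))]
    apply PI_congr hh
    intro y _
    rw [sum_insert his]

lemma hgt_pos {a : ℕ → ℕ} {n : ℕ} (ha : 1 ≤ a n) : 0 < hgt a n := by
  unfold hgt
  have h1 : (0 : ℝ) < a n := by exact_mod_cast (by omega : 0 < a n)
  split_ifs <;> positivity

lemma fch_differentiable (N : ℕ) (a : ℕ → ℕ) (n : ℕ) : Differentiable ℂ (fch N a n) := by
  cases n with
  | zero => exact differentiable_const _
  | succ n =>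
    unfold fch
    have := gm_differentiable N
    fun_prop

lemma gm_zero (N : ℕ) (y : ℂ) : gm N 0 y = 1 := by
  unfold gm; simp [sf_zero]

lemma cM_norm (N : ℕ) : ‖cM N‖ = 1 := by
  unfold cM; exact norm_ex _

/-- the constant of the entry formula -/
noncomputable def kp (N a : ℕ) : ℂ := (-1) ^ (N - 1) * N ^ 2 / (2 * Real.pi * I * cM N ^ a)

lemma norm_kp (N a : ℕ) : ‖kp N a‖ = N ^ 2 / (2 * Real.pi) := by
  unfold kp
  rw [norm_div, norm_mul, norm_mul, norm_mul, norm_mul, norm_pow, norm_pow, norm_pow, cM_norm,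
    Complex.norm_I, Complex.norm_real, norm_neg, norm_one, one_pow, one_mul, one_pow, mul_one,
    mul_one, Complex.norm_natCast, Real.norm_of_nonneg Real.pi_pos.le]
  norm_num

lemma AM_entry' {N : ℕ} {h : ℝ} (hh : 0 < h) (a : ℕ) (l m : Fin N) :
    (AM N N ^ a) l m = kp N a * PI (fun y => om N a y * (gm N m y * gm N (N - 1 - l) y)) h := by
  have h1 := AM_entry hh a l m
  have h2 : cM N ≠ 0 := by
    intro h0
    have := cM_norm N
    rw [h0, norm_zero] at this
    exact zero_ne_one this
  have h3 : (2 * (Real.pi : ℂ) * I * cM N ^ a) ≠ 0 := by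
    have h4 : (Real.pi : ℂ) ≠ 0 := by exact_mod_cast Real.pi_ne_zero
    exact mul_ne_zero (mul_ne_zero (mul_ne_zero two_ne_zero h4) Complex.I_ne_zero) (pow_ne_zero _ h2)
  unfold kp
  rw [div_mul_eq_mul_div, eq_div_iff h3]
  linear_combination h1

/-- the recursion for the vectors of the state sum, in terms of the functions of the chain -/
theorem vv_chain {N : ℕ} (h0 : 0 < N) (a : ℕ → ℕ) (n : ℕ) (ha : ∀ i, i < n → 1 ≤ a i) :
    ∀ {h : ℝ}, 0 < h → ∃ K : ℂ, ‖K‖ = (N ^ 2 / (2 * Real.pi)) ^ (n + 1) ∧ ∀ l : Fin (N - 0),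
      vv N h0 a (n + 1) l = if n % 2 = 0 then K * site N (a n) h (fch N a n) (N - 1 - l)
        else K * (starRingEnd ℂ) (site N (a n) h (fch N a n) l) := by
  induction n with
  | zero =>
    intro h hh
    refine ⟨kp N (a 0), by rw [norm_kp, zero_add, pow_one], fun l => ?_⟩
    rw [if_pos rfl]
    simp only [vv, if_pos (show 0 % 2 = 0 from rfl), Matrix.mulVec, dotProduct]
    rw [sum_eq_single ⟨0, by omega⟩]
    · rw [Pi.single_eq_same, mul_one]
      have h1 := AM_entry' (N := N) hh (a 0) l ⟨0, by omega⟩
      refine Eq.trans h1 ?_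
      congr 1
      unfold site
      apply PI_congr hh.le
      intro y _
      show om N (a 0) y * (gm N 0 y * gm N (N - 1 - l) y) =
        om N (a 0) y * gm N (N - 1 - l) y * 1
      rw [gm_zero]
      ring
    · intro k _ hk
      rw [Pi.single_eq_of_ne hk, mul_zero]
    · intro h1; exact absurd (mem_univ _) h1
  | succ n ih =>
    intro h hh
    have hpos : 0 < hgt a n := hgt_pos (ha n (by omega))
    obtain ⟨K, hK, ih⟩ := ih (fun i hi => ha i (by omega)) hpos
    have hcont : ∀ (k m : ℕ) (c : ℂ), ContinuousOn (fun y => om N (a (n + 1)) y *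
        (gm N k y * (c * gm N m y))) (PS h) := by
      intro k m c
      have h1 := (gm_differentiable N k).continuous
      have h2 := (gm_differentiable N m).continuous
      exact (om_contOn hh).mul (by fun_prop)
    -- the sum of the site
    have hsum : ∀ k : ℕ, site N (a (n + 1)) h (fch N a (n + 1)) k =
        ∑ m ∈ range N, (starRingEnd ℂ) (site N (a n) (hgt a n) (fch N a n) m) *
          PI (fun y => om N (a (n + 1)) y * (gm N k y * gm N m y)) h := by
      intro k
      have e1 : site N (a (n + 1)) h (fch N a (n + 1)) k = PI (fun y => ∑ m ∈ range N,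
          om N (a (n + 1)) y * (gm N k y *
            ((starRingEnd ℂ) (site N (a n) (hgt a n) (fch N a n) m) * gm N m y))) h := by
        unfold site
        apply PI_congr hh.le
        intro y _
        simp only [fch]
        rw [mul_sum]
        apply sum_congr rfl
        intro m _
        unfold site
        ring
      rw [e1, PI_sum _ _ hh.le (fun m _ => hcont k m _)]
      apply sum_congr rfl
      intro m _
      rw [← PI_mul]
      apply PI_congr hh.le
      intro y _
      ring
    by_cases hn : n % 2 = 0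
    · have hn1 : ¬ (n + 1) % 2 = 0 := by omega
      refine ⟨(starRingEnd ℂ) (kp N (a (n + 1))) * K, ?_, fun l => ?_⟩
      · rw [norm_mul, RCLike.norm_conj, norm_kp, hK, pow_succ, pow_succ, pow_succ]; ring
      · rw [if_neg hn1]
        have e2 : vv N h0 a (n + 2) l = ∑ k : Fin (N - 0),
            (starRingEnd ℂ) ((AMz N ^ (a (n + 1))) k l) * vv N h0 a (n + 1) k := by
          show ((if (n + 1) % 2 = 0 then (AMz N) ^ (a (n + 1)) else
            ((AMz N) ^ (a (n + 1)))ᴴ).mulVec (vv N h0 a (n + 1))) l = _
          rw [if_neg hn1]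
          rfl
        rw [e2]
        have e3 : ∀ k : Fin (N - 0), (starRingEnd ℂ) ((AMz N ^ (a (n + 1))) k l) *
            vv N h0 a (n + 1) k = (starRingEnd ℂ) (kp N (a (n + 1))) * K * (starRingEnd ℂ)
              ((starRingEnd ℂ) (site N (a n) (hgt a n) (fch N a n) (N - 1 - k)) *
              PI (fun y => om N (a (n + 1)) y * (gm N l y * gm N (N - 1 - k) y)) h) := by
          intro k
          have h1 := AM_entry' hh (a (n + 1)) k l
          have h2 : (AMz N ^ (a (n + 1))) k l = kp N (a (n + 1)) *
            PI (fun y => om N (a (n + 1)) y * (gm N l y * gm N (N - 1 - k) y)) h := h1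
          rw [h2, ih k, if_pos hn]
          simp only [map_mul, Complex.conj_conj]
          ring
        rw [sum_congr rfl (fun k _ => e3 k), ← mul_sum, hsum, map_sum]
        congr 1
        have e4 : ∑ k : Fin (N - 0), (starRingEnd ℂ)
              ((starRingEnd ℂ) (site N (a n) (hgt a n) (fch N a n) (N - 1 - k)) *
              PI (fun y => om N (a (n + 1)) y * (gm N l y * gm N (N - 1 - k) y)) h) =
            ∑ k ∈ range N, (starRingEnd ℂ)
              ((starRingEnd ℂ) (site N (a n) (hgt a n) (fch N a n) (N - 1 - k)) *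
              PI (fun y => om N (a (n + 1)) y * (gm N l y * gm N (N - 1 - k) y)) h) :=
          Fin.sum_univ_eq_sum_range (fun k => (starRingEnd ℂ)
              ((starRingEnd ℂ) (site N (a n) (hgt a n) (fch N a n) (N - 1 - k)) *
              PI (fun y => om N (a (n + 1)) y * (gm N l y * gm N (N - 1 - k) y)) h)) N
        rw [e4]
        exact sum_range_reflect (fun m => (starRingEnd ℂ)
              ((starRingEnd ℂ) (site N (a n) (hgt a n) (fch N a n) m) *
              PI (fun y => om N (a (n + 1)) y * (gm N l y * gm N m y)) h)) N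
    · have hn1 : (n + 1) % 2 = 0 := by omega
      refine ⟨kp N (a (n + 1)) * K, ?_, fun l => ?_⟩
      · rw [norm_mul, norm_kp, hK, pow_succ, pow_succ, pow_succ]; ring
      · rw [if_pos hn1]
        have e2 : vv N h0 a (n + 2) l = ∑ k : Fin (N - 0),
            (AMz N ^ (a (n + 1))) l k * vv N h0 a (n + 1) k := by
          show ((if (n + 1) % 2 = 0 then (AMz N) ^ (a (n + 1)) else
            ((AMz N) ^ (a (n + 1)))ᴴ).mulVec (vv N h0 a (n + 1))) l = _
          rw [if_pos hn1]
          rfl
        rw [e2]
        have e3 : ∀ k : Fin (N - 0), (AMz N ^ (a (n + 1))) l k * vv N h0 a (n + 1) k =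
            kp N (a (n + 1)) * K * ((starRingEnd ℂ) (site N (a n) (hgt a n) (fch N a n) k) *
              PI (fun y => om N (a (n + 1)) y * (gm N (N - 1 - l) y * gm N k y)) h) := by
          intro k
          have h1 := AM_entry' hh (a (n + 1)) l k
          have h2 : (AMz N ^ (a (n + 1))) l k = kp N (a (n + 1)) *
            PI (fun y => om N (a (n + 1)) y * (gm N k y * gm N (N - 1 - l) y)) h := h1
          have h3 : PI (fun y => om N (a (n + 1)) y * (gm N k y * gm N (N - 1 - l) y)) h =
              PI (fun y => om N (a (n + 1)) y * (gm N (N - 1 - l) y * gm N k y)) h := by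
            congr 1; funext y; ring
          rw [h2, h3, ih k, if_neg hn]
          ring
        rw [sum_congr rfl (fun k _ => e3 k), ← mul_sum, hsum]
        congr 1
        exact Fin.sum_univ_eq_sum_range (fun k =>
          (starRingEnd ℂ) (site N (a n) (hgt a n) (fch N a n) k) *
              PI (fun y => om N (a (n + 1)) y * (gm N (N - 1 - l) y * gm N k y)) h) N

/-- The Kashaev invariant of `C(a 0, …, a n)` in terms of the chain. -/
theorem link_chain {N : ℕ} (hN : 2 ≤ N) (n : ℕ) (a : ℕ → ℕ) (ha : ∀ i, i < n → 1 ≤ a i) {h : ℝ}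
    (hh : 0 < h) : ∃ z : ℂ, IsKashaev N (twoBridgeLink (n + 1) a) z ∧
      ‖z‖ = (N ^ 2 / (2 * Real.pi)) ^ (n + 1) * ‖site N (a n) h (fch N a n) 0‖ := by
  have h0 : 0 < N := by omega
  obtain ⟨z, hz1, hz2⟩ := link_value hN h0 (n + 1) a
  obtain ⟨K, hK, hv⟩ := vv_chain h0 a n ha hh
  refine ⟨z, hz1, ?_⟩
  rw [hz2, hv]
  by_cases hn : n % 2 = 0
  · have hn1 : ¬ (n + 1) % 2 = 0 := by omega
    rw [if_neg hn1, if_pos hn, norm_mul, hK]
    congr 3
    show N - 1 - (N - 1) = 0
    omega
  · have hn1 : (n + 1) % 2 = 0 := by omega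
    rw [if_pos hn1, if_neg hn, norm_mul, hK, RCLike.norm_conj]

end Pool.Agent.Helper9.TF
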