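import Pool.Agent.Helper9.TF.StepE

/-!
# The next function: slope, global bounds, decay
-/

namespace Pool.Agent.Helper9.TF

open Complex Finset Filter Topology
open Pool.Agent.Helper9.TB

namespace Ctx

variable {ρ δ CK C2 C3 C4 εw : ℝ} {N : ℕ} {f0 J : ℂ} {v w : ℂ → ℂ} {φ : ℕ → ℂ}

lemma gm_even (N m : ℕ) (y : ℂ) : gm N m (-y) = gm N m y := by
  unfold gm
  congr 1
  apply prod_congr rfl
  intro k _
  have e1 : Complex.cos (Real.pi * (-y + xk N k)) = Complex.cos (Real.pi * (y - xk N k)) := by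
    rw [← Complex.cos_neg]; congr 1; ring
  have e2 : Complex.cos (Real.pi * (-y - xk N k)) = Complex.cos (Real.pi * (y + xk N k)) := by
    rw [← Complex.cos_neg]; congr 1; ring
  rw [e1, e2]; ring

lemma FF_even (N : ℕ) (φ : ℕ → ℂ) (y : ℂ) : FF N φ (-y) = FF N φ y := by
  unfold FF
  apply sum_congr rfl
  intro m _
  rw [gm_even]

lemma FF_diff (N : ℕ) (φ : ℕ → ℂ) : Differentiable ℂ (FF N φ) := by
  unfold FF
  apply Differentiable.fun_sum
  intro m _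
  exact (gm_differentiable' N m).const_mul _

lemma FM_diff (N : ℕ) (f0 J : ℂ) (v : ℂ → ℂ) : Differentiable ℂ (FM N f0 J v) := by
  unfold FM
  apply Differentiable.fun_sum
  intro m _
  exact (gm_differentiable' N m).const_mul _

lemma slope (h : Ctx ρ δ CK C2 C3 C4 εw N f0 J v w φ)
    (hκ : Real.exp (-(N * (ρ ^ 2 / 32))) ≤ 1 / 2) {y : ℂ} (hy : ‖y‖ < 2 * ρ) {t : ℂ}
    (ht : Pt ρ CK N f0 J v w y t) :
    FF N φ y ≠ 0 ∧ ‖sl N (FF N φ) y - GAy N y t‖ ≤ (CK + 2 / ρ) / Real.sqrt N ∧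
      |Real.log ‖FF N φ y‖ - Real.log ‖FM N f0 J v y‖| ≤ 1 := by
  have hρ := h.rho
  have hN := h.N0
  have hN20 := h.B.N20
  set κ : ℝ := Real.exp (-(N * (ρ ^ 2 / 32))) with hκd
  have hκ0 : 0 < κ := Real.exp_pos _
  set q : ℂ → ℂ := fun x => (FF N φ x - FM N f0 J v x) / FM N f0 J v x with hq
  have hb3 : ∀ x : ℂ, x ∈ Metric.ball (0 : ℂ) (3 * ρ) → ‖x‖ < 3 * ρ := fun x hx => by
    simpa using hx
  have hqb : ∀ x : ℂ, ‖x‖ < 3 * ρ → ‖q x‖ ≤ κ := by
    intro x hx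
    rw [hq]
    simp only
    rw [norm_div, div_le_iff₀ (norm_pos_iff.2 (h.FM_ne hx))]
    exact h.err hx
  have hqd : DifferentiableOn ℂ q (Metric.ball 0 (3 * ρ)) := by
    rw [hq]
    apply DifferentiableOn.div
    · exact ((FF_diff N φ).sub (FM_diff N f0 J v)).differentiableOn
    · exact (FM_diff N f0 J v).differentiableOn
    · intro x hx
      exact h.FM_ne (hb3 x hx)
  have hy3 : ‖y‖ < 3 * ρ := by linarith
  have hcl : Metric.closedBall y ρ ⊆ Metric.ball (0 : ℂ) (3 * ρ) := by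
    intro x hx
    rw [Metric.mem_closedBall, dist_eq_norm] at hx
    rw [Metric.mem_ball, dist_zero_right]
    have := norm_add_le (x - y) y
    rw [sub_add_cancel] at this
    linarith
  have hdq : ‖deriv q y‖ ≤ κ / ρ := by
    apply Complex.norm_deriv_le_of_forall_mem_sphere_norm_le hρ
    · exact (hqd.mono hcl).diffContOnCl_ball (le_refl _)
    · intro x hx
      exact hqb x (hb3 x (hcl (Metric.sphere_subset_closedBall hx)))
  have hqy := hqb y hy3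
  have hFMy := h.FM_ne hy3
  have h1q : 1 / 2 ≤ ‖1 + q y‖ := by
    have := norm_sub_norm_le (1 : ℂ) (-(q y))
    rw [norm_neg, norm_one, sub_neg_eq_add] at this
    linarith
  have h1q2 : ‖1 + q y‖ ≤ 3 / 2 := by
    have := norm_add_le (1 : ℂ) (q y)
    rw [norm_one] at this
    linarith
  have h1q0 : (1 + q y) ≠ 0 := by
    intro h0
    rw [h0, norm_zero] at h1q
    linarith
  have hFeq : ∀ x : ℂ, ‖x‖ < 3 * ρ → FF N φ x = FM N f0 J v x * (1 + q x) := by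
    intro x hx
    have := h.FM_ne hx
    rw [hq]
    field_simp
    ring
  have hFy := hFeq y hy3
  have hF0 : FF N φ y ≠ 0 := by rw [hFy]; exact mul_ne_zero hFMy h1q0
  have hderiv : deriv (FF N φ) y = deriv (FM N f0 J v) y * (1 + q y) + FM N f0 J v y * deriv q y := by
    have d1 : HasDerivAt (FM N f0 J v) (deriv (FM N f0 J v) y) y :=
      (FM_diff N f0 J v).differentiableAt.hasDerivAt
    have d2 : HasDerivAt q (deriv q y) y :=
      (hqd.differentiableAt (Metric.isOpen_ball.mem_nhds (by simpa using hy3))).hasDerivAt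
    have d3 := d1.mul (d2.const_add 1)
    apply HasDerivAt.deriv
    refine d3.congr_of_eventuallyEq ?_
    have hopen : ∀ᶠ z in 𝓝 y, ‖z‖ < 3 * ρ :=
      (continuous_norm.continuousAt.eventually (gt_mem_nhds hy3))
    filter_upwards [hopen] with x hx
    exact hFeq x hx
  refine ⟨hF0, ?_, ?_⟩
  · have hNC : (N : ℂ) ≠ 0 := by exact_mod_cast (by omega : N ≠ 0)
    have e1 : sl N (FF N φ) y - GAy N y t =
        (deriv (FM N f0 J v) y - N * GAy N y t * FM N f0 J v y) / (N * FM N f0 J v y) +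
          deriv q y / (N * (1 + q y)) := by
      unfold sl
      rw [hderiv, hFy]
      field_simp
      ring
    have e2 : ‖(deriv (FM N f0 J v) y - N * GAy N y t * FM N f0 J v y) / (N * FM N f0 J v y)‖ ≤
        CK / Real.sqrt N := by
      have hp : 0 < ‖FM N f0 J v y‖ := norm_pos_iff.2 hFMy
      rw [norm_div, norm_mul (N : ℂ), Complex.norm_natCast, div_le_iff₀ (by positivity)]
      refine ht.slope.trans (le_of_eq ?_)
      ring
    have e3 : ‖deriv q y / (N * (1 + q y))‖ ≤ (2 / ρ) / Real.sqrt N := by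
      rw [norm_div, norm_mul, Complex.norm_natCast]
      have hsq : Real.sqrt N ≤ N := by
        rw [Real.sqrt_le_left (by linarith)]
        have : (20 : ℝ) ≤ N := by exact_mod_cast hN20
        nlinarith
      have hsq0 : 0 < Real.sqrt N := Real.sqrt_pos.2 hN
      calc ‖deriv q y‖ / (N * ‖1 + q y‖) ≤ (κ / ρ) / (N * (1 / 2)) := by
            gcongr
        _ ≤ (1 / 2 / ρ) / (N * (1 / 2)) := by gcongr
        _ = (1 / ρ) / N := by field_simp
        _ ≤ (1 / ρ) / Real.sqrt N := by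
            apply div_le_div_of_nonneg_left (by positivity) hsq0 hsq
        _ ≤ (2 / ρ) / Real.sqrt N := by
            gcongr
            norm_num
    rw [e1]
    calc _ ≤ _ := norm_add_le _ _
      _ ≤ CK / Real.sqrt N + (2 / ρ) / Real.sqrt N := add_le_add e2 e3
      _ = _ := by ring
  · rw [hFy, norm_mul, Real.log_mul (norm_ne_zero_iff.2 hFMy) (norm_ne_zero_iff.2 h1q0),
      add_sub_cancel_left]
    have l1 : Real.log ‖1 + q y‖ ≤ 1 := by
      have := Real.log_le_sub_one_of_pos (by linarith : 0 < ‖1 + q y‖)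
      linarith
    have l2 : -1 ≤ Real.log ‖1 + q y‖ := by
      have h2 := Real.log_le_log (by norm_num : (0 : ℝ) < 1 / 2) h1q
      have h3 : Real.log (1 / 2) = - Real.log 2 := by
        rw [one_div, Real.log_inv]
      have h4 := Real.log_two_lt_d9
      linarith
    exact abs_le.2 ⟨l2, l1⟩

/-- the logarithmic derivative of the next function -/
lemma FF_lip (h : Ctx ρ δ CK C2 C3 C4 εw N f0 J v w φ)
    (hκ : Real.exp (-(N * (ρ ^ 2 / 32))) ≤ 1 / 2) (hs : (CK + 2 / ρ) / Real.sqrt N ≤ ρ / 8) :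
    LipS 0 ρ 1 (1 / 2) (sl N (FF N φ)) := by
  have hρ := h.rho
  have hρ1 := h.rho1
  have hN := h.N0
  have hpi := Real.pi_pos
  have hne : ∀ x : ℂ, ‖x‖ < 2 * ρ → FF N φ x ≠ 0 := by
    intro x hx
    obtain ⟨t, ht⟩ := h.exists_Pt (by linarith : ‖x‖ < 3 * ρ)
    exact (h.slope hκ hx ht).1
  have hNC : (N : ℂ) ≠ 0 := by
    have := h.B.N20
    exact_mod_cast (by omega : N ≠ 0)
  have hd : DifferentiableOn ℂ (fun y => sl N (FF N φ) y + 2 * Real.pi * y)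
      (Metric.ball 0 (2 * ρ)) := by
    apply DifferentiableOn.add
    · unfold sl
      apply DifferentiableOn.div
      · exact ((FF_diff N φ).differentiableOn.deriv Metric.isOpen_ball)
      · exact ((FF_diff N φ).differentiableOn.const_mul _)
      · intro x hx
        exact mul_ne_zero hNC (hne x (by simpa using hx))
    · fun_prop
  have hM : ∀ y ∈ Metric.ball (0 : ℂ) (2 * ρ), ‖sl N (FF N φ) y + 2 * Real.pi * y‖ ≤ ρ / 2 := by
    intro y hy
    have hy2 : ‖y‖ < 2 * ρ := by simpa using hy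
    obtain ⟨t, ht⟩ := h.exists_Pt (by linarith : ‖y‖ < 3 * ρ)
    have h1 := (h.slope hκ hy2 ht).2.1
    have hy20 : ‖y‖ < 1 / 20 := by linarith
    have ht20 : ‖t - 1 / 4‖ < 1 / 20 := by linarith [ht.near]
    have h2 := (h.B.lim y t hy20 ht20).2.1
    have h3 := (h.B.cub y t hy20 ht20).1
    have e1 : sl N (FF N φ) y + 2 * Real.pi * y = (sl N (FF N φ) y - GAy N y t) +
        (GAy N y t - gamy y t) + (gamy y t + 2 * Real.pi * y) := by ring
    have h4 : 2 * C2 / N ≤ ρ / 8 := h.n3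
    have h5 : 2 * C2 / N = 2 * (C2 / N) := by ring
    have h6 : C3 * ‖y‖ * (‖y‖ ^ 2 + ‖t - 1 / 4‖) ≤ ρ / 100 := by
      have a1 : ‖y‖ ^ 2 + ‖t - 1 / 4‖ ≤ 1 := by nlinarith [norm_nonneg y]
      have a2 : ‖y‖ ^ 2 + ‖t - 1 / 4‖ ≤ ρ := by nlinarith [norm_nonneg y, ht.near]
      have a3 := h.k3
      calc C3 * ‖y‖ * (‖y‖ ^ 2 + ‖t - 1 / 4‖) ≤ C3 * (2 * ρ) * ρ := by
            have := h.c3
            gcongr
        _ = 2 * (C3 * ρ) * ρ := by ring
        _ ≤ 2 * (1 / 1000) * ρ := by gcongr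
        _ ≤ _ := by linarith
    rw [e1]
    calc _ ≤ _ := norm_add₃_le
      _ ≤ ρ / 8 + ρ / 8 + ρ / 100 := by
          gcongr
          · exact h1.trans hs
          · refine h2.trans ?_
            have : 0 < C2 / N := div_pos h.c2 hN
            linarith
          · exact h3.trans h6
      _ ≤ _ := by linarith
  have h5 := lip_of_bound (r := ρ) (by linarith) hd hM
  intro y hy z hz
  have h6 := h5 y hy z hz
  have e1 : ρ / 2 / (2 * ρ - ρ) = 1 / 2 := by field_simp; norm_num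
  rw [e1] at h6
  have e2 : sl N (FF N φ) y - sl N (FF N φ) z + 2 * Real.pi * ((1 : ℝ) : ℂ) * (y - z) =
      sl N (FF N φ) y + 2 * Real.pi * y - (sl N (FF N φ) z + 2 * Real.pi * z) := by
    push_cast; ring
  rw [e2]
  exact h6

/-- the size at `0` -/
lemma FF_zero (h : Ctx ρ δ CK C2 C3 C4 εw N f0 J v w φ)
    (hκ : Real.exp (-(N * (ρ ^ 2 / 32))) ≤ 1 / 2) :
    1 / (2 * CK) * (‖f0‖ * Real.exp (N * (2 * U0 (1 / 4) - ρ ^ 2 / 512 - ρ ^ 2 / 100))) ≤
      ‖FF N φ 0‖ := by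
  have hρ := h.rho
  have h0 : ‖(0 : ℂ)‖ < 3 * ρ := by rw [norm_zero]; linarith
  have h1 := h.FM_low h0
  have h2 := h.err h0
  have hCK := h.CK0
  rw [norm_zero] at h1
  have e0 : 2 * U0 (1 / 4) - ρ ^ 2 / 512 - C4 * 0 ^ 2 - ρ ^ 2 / 100 =
      2 * U0 (1 / 4) - ρ ^ 2 / 512 - ρ ^ 2 / 100 := by ring
  rw [e0] at h1
  have h3 : ‖FM N f0 J v 0‖ - ‖FF N φ 0‖ ≤ ‖FF N φ 0 - FM N f0 J v 0‖ := by
    rw [norm_sub_rev]
    exact norm_sub_norm_le _ _
  have h4 : Real.exp (-(N * (ρ ^ 2 / 32))) * ‖FM N f0 J v 0‖ ≤ 1 / 2 * ‖FM N f0 J v 0‖ :=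
    mul_le_mul_of_nonneg_right hκ (norm_nonneg _)
  have h5 : 1 / 2 * ‖FM N f0 J v 0‖ ≤ ‖FF N φ 0‖ := by linarith
  refine le_trans ?_ h5
  have e1 : 1 / (2 * CK) * (‖f0‖ * Real.exp (N * (2 * U0 (1 / 4) - ρ ^ 2 / 512 - ρ ^ 2 / 100))) =
      1 / 2 * (1 / CK * (‖f0‖ * Real.exp (N * (2 * U0 (1 / 4) - ρ ^ 2 / 512 - ρ ^ 2 / 100)))) := by
    field_simp
  rw [e1]
  exact mul_le_mul_of_nonneg_left h1 (by norm_num)

/-- general bound -/
lemma FF_bound (h : Ctx ρ δ CK C2 C3 C4 εw N f0 J v w φ) {h0 E : ℝ} (hh0 : 0 < h0)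
    (hh1 : 2 * Real.pi * h0 ≤ ρ ^ 2 / 1024)
    (up : ∀ m ∈ Wd N (1 / 400), ‖φ m‖ ≤ ‖f0‖ * Real.exp (N * (U0 (m / N) + ρ ^ 2 / 512)))
    (gup : ∀ m : ℕ, m < N → ∀ y : ℂ, |y.re| ≤ 1 / 2 → |y.im| ≤ h0 →
      ‖gm N m y‖ ≤ Real.exp (N * (TB.win h0 y.re (m / N) - 2 * ll (m / N) + ρ ^ 2 / 4096)))
    (y : ℂ) (hy1 : |y.re| ≤ 1 / 2) (hy2 : |y.im| ≤ h0) (hE : E ≤ y.re ^ 2) (hE2 : E ≤ δ / 2) :
    ‖FF N φ y‖ ≤ N * (‖f0‖ * Real.exp (N * (2 * U0 (1 / 4) + ρ ^ 2 / 256 - E))) := by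
  have hρ := h.rho
  have hρ1 := h.rho1
  have hN := h.N0
  have hδ := h.delta
  have key : ∀ m ∈ range N, ‖φ m * gm N m y‖ ≤
      ‖f0‖ * Real.exp (N * (2 * U0 (1 / 4) + ρ ^ 2 / 256 - E)) := by
    intro m hm
    rw [Finset.mem_range] at hm
    have hτ := tau_mem hm
    rw [norm_mul]
    have hg := gup m hm y hy1 hy2
    have w1 := win_close (ξ := y.re) hh0 hτ.1 hτ.2
    have w3 := U0_eq hτ.1 hτ.2
    by_cases hW : m ∈ Wd N (1 / 400)
    · have hW2 := (mem_Wd.1 hW).2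
      have w2 := win_quad (ξ := y.re) hy1 (hW2.trans (by norm_num) : |(m : ℝ) / N - 1 / 4| ≤ 1 / 50)
      have w4 := win_le_max (ξ := 0) (by norm_num) hτ.1 hτ.2
      calc ‖φ m‖ * ‖gm N m y‖ ≤ (‖f0‖ * Real.exp (N * (U0 (m / N) + ρ ^ 2 / 512))) *
            Real.exp (N * (TB.win h0 y.re (m / N) - 2 * ll (m / N) + ρ ^ 2 / 4096)) :=
            mul_le_mul (up m hW) hg (norm_nonneg _) (by positivity)
        _ = ‖f0‖ * Real.exp (N * ((U0 (m / N) + ρ ^ 2 / 512) +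
            (TB.win h0 y.re (m / N) - 2 * ll (m / N) + ρ ^ 2 / 4096))) := by
            rw [mul_assoc, ← Real.exp_add]; congr 2; ring
        _ ≤ _ := by
            apply mul_le_mul_of_nonneg_left _ (norm_nonneg _)
            apply Real.exp_le_exp.2
            apply mul_le_mul_of_nonneg_left _ hN.le
            have : 0 ≤ ρ ^ 2 := sq_nonneg ρ
            linarith
    · have w4 := win_le_max (ξ := y.re) hy1 hτ.1 hτ.2
      calc ‖φ m‖ * ‖gm N m y‖ ≤ (‖f0‖ * Real.exp (N * (U0 (1 / 4) - 3 * δ / 4))) *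
            Real.exp (N * (TB.win h0 y.re (m / N) - 2 * ll (m / N) + ρ ^ 2 / 4096)) :=
            mul_le_mul (h.out m hm hW) hg (norm_nonneg _) (by positivity)
        _ = ‖f0‖ * Real.exp (N * ((U0 (1 / 4) - 3 * δ / 4) +
            (TB.win h0 y.re (m / N) - 2 * ll (m / N) + ρ ^ 2 / 4096))) := by
            rw [mul_assoc, ← Real.exp_add]; congr 2; ring
        _ ≤ _ := by
            apply mul_le_mul_of_nonneg_left _ (norm_nonneg _)
            apply Real.exp_le_exp.2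
            apply mul_le_mul_of_nonneg_left _ hN.le
            have : 0 ≤ ρ ^ 2 := sq_nonneg ρ
            linarith
  unfold FF
  calc _ ≤ ∑ m ∈ range N, ‖φ m * gm N m y‖ := norm_sum_le _ _
    _ ≤ ∑ m ∈ range N, ‖f0‖ * Real.exp (N * (2 * U0 (1 / 4) + ρ ^ 2 / 256 - E)) := sum_le_sum key
    _ = _ := by rw [sum_const, card_range, nsmul_eq_mul]

lemma FF_bound2 (h : Ctx ρ δ CK C2 C3 C4 εw N f0 J v w φ)
    (hκ : Real.exp (-(N * (ρ ^ 2 / 32))) ≤ 1 / 2) {h0 E : ℝ} (hh0 : 0 < h0)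
    (hh1 : 2 * Real.pi * h0 ≤ ρ ^ 2 / 1024)
    (up : ∀ m ∈ Wd N (1 / 400), ‖φ m‖ ≤ ‖f0‖ * Real.exp (N * (U0 (m / N) + ρ ^ 2 / 512)))
    (gup : ∀ m : ℕ, m < N → ∀ y : ℂ, |y.re| ≤ 1 / 2 → |y.im| ≤ h0 →
      ‖gm N m y‖ ≤ Real.exp (N * (TB.win h0 y.re (m / N) - 2 * ll (m / N) + ρ ^ 2 / 4096)))
    (hn7 : 2 * CK * N ≤ Real.exp (N * (ρ ^ 2 / 256)))
    (y : ℂ) (hy1 : |y.re| ≤ 1 / 2) (hy2 : |y.im| ≤ h0) (hE : E ≤ y.re ^ 2) (hE2 : E ≤ δ / 2) :
    ‖FF N φ y‖ ≤ ‖FF N φ 0‖ * Real.exp (N * (ρ ^ 2 / 40 - E)) := by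
  have h1 := h.FF_bound hh0 hh1 up gup y hy1 hy2 hE hE2
  have h2 := h.FF_zero hκ
  have hCK := h.CK0
  have hN := h.N0
  rw [div_mul_eq_mul_div, div_le_iff₀ (by positivity), one_mul] at h2
  calc ‖FF N φ y‖ ≤ N * (‖f0‖ * Real.exp (N * (2 * U0 (1 / 4) + ρ ^ 2 / 256 - E))) := h1
    _ = N * ((‖f0‖ * Real.exp (N * (2 * U0 (1 / 4) - ρ ^ 2 / 512 - ρ ^ 2 / 100))) *
        Real.exp (N * (ρ ^ 2 / 256 + ρ ^ 2 / 512 + ρ ^ 2 / 100 - E))) := by
        rw [mul_assoc ‖f0‖, ← Real.exp_add]; congr 3; ring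
    _ ≤ N * ((‖FF N φ 0‖ * (2 * CK)) *
        Real.exp (N * (ρ ^ 2 / 256 + ρ ^ 2 / 512 + ρ ^ 2 / 100 - E))) := by gcongr
    _ = (2 * CK * N) * (‖FF N φ 0‖ *
        Real.exp (N * (ρ ^ 2 / 256 + ρ ^ 2 / 512 + ρ ^ 2 / 100 - E))) := by ring
    _ ≤ Real.exp (N * (ρ ^ 2 / 256)) * (‖FF N φ 0‖ *
        Real.exp (N * (ρ ^ 2 / 256 + ρ ^ 2 / 512 + ρ ^ 2 / 100 - E))) := by gcongr
    _ = ‖FF N φ 0‖ * Real.exp (N * (ρ ^ 2 / 256 + (ρ ^ 2 / 256 + ρ ^ 2 / 512 + ρ ^ 2 / 100 - E))) := by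
        rw [mul_left_comm, ← Real.exp_add]; congr 2; ring
    _ ≤ _ := by
        apply mul_le_mul_of_nonneg_left _ (norm_nonneg _)
        apply Real.exp_le_exp.2
        apply mul_le_mul_of_nonneg_left _ hN.le
        have : 0 ≤ ρ ^ 2 := sq_nonneg ρ
        linarith

theorem good (h : Ctx ρ δ CK C2 C3 C4 εw N f0 J v w φ)
    (hκ : Real.exp (-(N * (ρ ^ 2 / 32))) ≤ 1 / 2) (hs : (CK + 2 / ρ) / Real.sqrt N ≤ ρ / 8)
    {h0 : ℝ} (hh0 : 0 < h0) (hh1 : 2 * Real.pi * h0 ≤ ρ ^ 2 / 1024)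
    (up : ∀ m ∈ Wd N (1 / 400), ‖φ m‖ ≤ ‖f0‖ * Real.exp (N * (U0 (m / N) + ρ ^ 2 / 512)))
    (gup : ∀ m : ℕ, m < N → ∀ y : ℂ, |y.re| ≤ 1 / 2 → |y.im| ≤ h0 →
      ‖gm N m y‖ ≤ Real.exp (N * (TB.win h0 y.re (m / N) - 2 * ll (m / N) + ρ ^ 2 / 4096)))
    (hn7 : 2 * CK * N ≤ Real.exp (N * (ρ ^ 2 / 256))) :
    Good ρ h0 (ρ ^ 2 / 32) N 1 (FF N φ) ∧ Decay ρ h0 N (FF N φ) := by
  have hρ := h.rho
  have hρ1 := h.rho1
  have hN := h.N0
  have hδ := h.delta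
  constructor
  · refine ⟨FF_diff N φ, FF_even N φ, ?_, h.FF_lip hκ hs, ?_⟩
    · intro y hy
      have hy2 : ‖y‖ < ρ := by simpa using hy
      obtain ⟨t, ht⟩ := h.exists_Pt (by linarith : ‖y‖ < 3 * ρ)
      exact (h.slope hκ (by linarith) ht).1
    · intro y h1 h2
      have h3 := h.FF_bound2 (E := 0) hκ hh0 hh1 up gup hn7 y h1 h2 (sq_nonneg _) (by linarith)
      refine h3.trans ?_
      apply mul_le_mul_of_nonneg_left _ (norm_nonneg _)
      apply Real.exp_le_exp.2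
      apply mul_le_mul_of_nonneg_left _ hN.le
      have : 0 ≤ ρ ^ 2 := sq_nonneg ρ
      linarith
  · intro y h1 h2 h3
    have h4 : ρ ^ 2 / 4 ≤ y.re ^ 2 := by
      rw [← sq_abs y.re]
      nlinarith [abs_nonneg y.re]
    have h5 := h.FF_bound2 (E := ρ ^ 2 / 4) hκ hh0 hh1 up gup hn7 y h1 h2 h4 (by nlinarith)
    refine h5.trans ?_
    apply mul_le_mul_of_nonneg_left _ (norm_nonneg _)
    apply Real.exp_le_exp.2
    have : 0 ≤ (N : ℝ) * ρ ^ 2 := by positivity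
    nlinarith

/-- asymptotics at a point -/
theorem asy (h : Ctx ρ δ CK C2 C3 C4 εw N f0 J v w φ)
    (hκ : Real.exp (-(N * (ρ ^ 2 / 32))) ≤ 1 / 2) {y : ℂ} (hy : ‖y‖ < ρ) :
    ∃ t : ℂ, ‖t - 1 / 4‖ ≤ 1 / 400 ∧ GAt N y t + w t = 0 ∧
      ‖sl N (FF N φ) y - gamy y t‖ ≤ (CK + 2 / ρ + C2) / Real.sqrt N ∧
      |Real.log ‖FF N φ y‖ - (Real.log ‖f0‖ + Real.log ‖J‖ + N * (gam y t + v t).re)| ≤
        (|Real.log CK| + 2 + C2) * (1 + Real.log N) := by
  have hρ := h.rho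
  have hρ1 := h.rho1
  have hN := h.N0
  have hN20 := h.B.N20
  have hN20' : (20 : ℝ) ≤ N := by exact_mod_cast hN20
  obtain ⟨t, ht⟩ := h.exists_Pt (by linarith : ‖y‖ < 3 * ρ)
  obtain ⟨-, h1, h2⟩ := h.slope hκ (by linarith : ‖y‖ < 2 * ρ) ht
  have hy20 : ‖y‖ < 1 / 20 := by linarith
  have ht20 : ‖t - 1 / 4‖ < 1 / 20 := by linarith [ht.near]
  obtain ⟨l1, l2, -⟩ := h.B.lim y t hy20 ht20
  have hlogN : 0 ≤ Real.log N := Real.log_nonneg (by linarith)
  have hCK := h.CK0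
  refine ⟨t, by linarith [ht.near], ht.crit, ?_, ?_⟩
  · have e1 : sl N (FF N φ) y - gamy y t = (sl N (FF N φ) y - GAy N y t) +
        (GAy N y t - gamy y t) := by ring
    rw [e1]
    have hsq : Real.sqrt N ≤ N := by
      rw [Real.sqrt_le_left (by linarith)]
      nlinarith
    have hsq0 : 0 < Real.sqrt N := Real.sqrt_pos.2 hN
    have h3 : C2 / N ≤ C2 / Real.sqrt N := div_le_div_of_nonneg_left h.c2.le hsq0 hsq
    calc _ ≤ _ := norm_add_le _ _
      _ ≤ (CK + 2 / ρ) / Real.sqrt N + C2 / Real.sqrt N := add_le_add h1 (l2.trans h3)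
      _ = _ := by ring
  · have hfJ : 0 < ‖f0 * J‖ := norm_pos_iff.2 (mul_ne_zero h.f0ne h.Jne)
    have hf0 : ‖f0‖ ≠ 0 := norm_ne_zero_iff.2 h.f0ne
    have hJ0 : ‖J‖ ≠ 0 := norm_ne_zero_iff.2 h.Jne
    have hFM : 0 < ‖FM N f0 J v y‖ := norm_pos_iff.2 (h.FM_ne (by linarith))
    have hlow : Real.log (1 / CK) + (Real.log ‖f0‖ + Real.log ‖J‖ + N * (Ty N v y t).re) ≤
        Real.log ‖FM N f0 J v y‖ := by
      have := Real.log_le_log (by positivity) ht.low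
      rw [Real.log_mul (by positivity) (by positivity), Real.log_mul hfJ.ne' (Real.exp_pos _).ne',
        Real.log_exp, norm_mul, Real.log_mul hf0 hJ0] at this
      exact this
    have hup : Real.log ‖FM N f0 J v y‖ ≤ (Real.log CK + Real.log N) +
        (Real.log ‖f0‖ + Real.log ‖J‖ + N * (Ty N v y t).re) := by
      have := Real.log_le_log hFM ht.up
      rw [Real.log_mul (by positivity) (by positivity), Real.log_mul hfJ.ne' (Real.exp_pos _).ne',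
        Real.log_exp, norm_mul, Real.log_mul hf0 hJ0, Real.log_mul hCK.ne' hN.ne'] at this
      exact this
    have hinv : Real.log (1 / CK) = - Real.log CK := by rw [one_div, Real.log_inv]
    rw [hinv] at hlow
    have hT : |N * (Ty N v y t).re - N * (gam y t + v t).re| ≤ C2 * (1 + Real.log N) := by
      rw [← mul_sub, ← Complex.sub_re, abs_mul, abs_of_pos hN]
      have e1 : Ty N v y t - (gam y t + v t) = GA N y t - gam y t := by unfold Ty; ring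
      rw [e1]
      calc (N : ℝ) * |(GA N y t - gam y t).re| ≤ N * (C2 * (1 + Real.log N) / N) :=
            mul_le_mul_of_nonneg_left ((Complex.abs_re_le_norm _).trans l1) hN.le
        _ = _ := by field_simp
    have hT' := abs_le.1 hT
    have h2' := abs_le.1 h2
    have hc := neg_abs_le (Real.log CK)
    have hc2 := le_abs_self (Real.log CK)
    have hc3 := abs_nonneg (Real.log CK)
    have hp : 0 ≤ |Real.log CK| * Real.log N := mul_nonneg hc3 hlogN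
    rw [abs_le]
    constructor
    · nlinarith [h2'.1, hT'.1, hlow, hup]
    · nlinarith [h2'.2, hT'.2, hlow, hup]

end Ctx

end Pool.Agent.Helper9.TF
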