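import Pool.Agent.Helper9.RTDefs

/-!
# The two-bridge links `C(a 0, …, a (n - 1))`
-/

namespace Pool.Agent.Helper9.Kashaev

/-- `n` twist regions, with `a 0, …, a (n - 1)` crossings, alternately on the strands number 0, 1
and on the strands number 1, 2, the crossings of the latter having the opposite sign. -/
def twistRegions : ℕ → (ℕ → ℕ) → Diagram
  | 0, _ => []
  | n + 1, a => twistRegions n a ++ List.replicate (a n) (if n % 2 = 0 then (0, .pos) else (1, .neg))

/-- The two-bridge link `C(a 0, …, a (n - 1))` (Conway's normal form), cut open at one point:
strand number 0 enters at the bottom; the strands number 1, 2 are joined by a minimum; then come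
the `n` twist regions (an alternating diagram); finally two of the three strands are joined by a
maximum: the strands number 0, 1 if `n` is even and the strands number 1, 2 if `n` is odd. -/
def twoBridgeLink (n : ℕ) (a : ℕ → ℕ) : Diagram :=
  [(1, .cup)] ++ twistRegions n a ++ [(if n % 2 = 0 then 0 else 1, .cap)]

end Pool.Agent.Helper9.Kashaev
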