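import Pool.Agent.Helper9.TF.StepF

/-!
# The induction step: choice of the constants
-/

namespace Pool.Agent.Helper9.TF

open Complex Finset Filter Topology Asymptotics
open Pool.Agent.Helper9.TB

lemma ev_pow (C : ℝ) (k : ℕ) {c : ℝ} (hc : 0 < c) :
    ∀ᶠ N : ℕ in atTop, C * (N : ℝ) ^ k ≤ Real.exp (N * c) := by
  have h1 := (isLittleO_pow_exp_pos_mul_atTop (k := k) hc).def (c := 1 / (|C| + 1)) (by positivity)
  have h2 := tendsto_natCast_atTop_atTop (R := ℝ) |>.eventually h1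
  filter_upwards [h2] with N hN
  rw [Real.norm_of_nonneg (by positivity), Real.norm_of_nonneg (Real.exp_pos _).le,
    div_mul_eq_mul_div, le_div_iff₀ (by positivity), one_mul] at hN
  have h3 : C * (N : ℝ) ^ k ≤ (|C| + 1) * (N : ℝ) ^ k :=
    mul_le_mul_of_nonneg_right (by linarith [le_abs_self C]) (by positivity)
  rw [mul_comm (N : ℝ) c]
  linarith

lemma ev_log (C : ℝ) {c : ℝ} (hc : 0 < c) :
    ∀ᶠ N : ℕ in atTop, C * (1 + Real.log N) ≤ N * c := by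
  have h1 := Real.isLittleO_log_id_atTop.def (c := c / 2 / (|C| + 1)) (by positivity)
  have h2 := tendsto_natCast_atTop_atTop (R := ℝ) |>.eventually h1
  have h3 := tendsto_natCast_atTop_atTop (R := ℝ) |>.eventually (eventually_ge_atTop (2 * (|C| + 1) / c))
  filter_upwards [h2, h3, eventually_ge_atTop 1] with N hN hN3 hN1
  have hN1' : (1 : ℝ) ≤ N := by exact_mod_cast hN1
  have hlog : 0 ≤ Real.log N := Real.log_nonneg hN1'
  rw [Real.norm_of_nonneg hlog, id, Real.norm_of_nonneg (by linarith), div_mul_eq_mul_div,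
    le_div_iff₀ (by positivity)] at hN
  rw [div_le_iff₀ hc] at hN3
  have h4 : C * (1 + Real.log N) ≤ (|C| + 1) * (1 + Real.log N) :=
    mul_le_mul_of_nonneg_right (by linarith [le_abs_self C]) (by linarith)
  nlinarith

lemma ev_sqrt (C : ℝ) {c : ℝ} (hc : 0 < c) : ∀ᶠ N : ℕ in atTop, C / Real.sqrt N ≤ c := by
  have h3 := tendsto_natCast_atTop_atTop (R := ℝ) |>.eventually (eventually_ge_atTop ((C / c) ^ 2))
  filter_upwards [h3, eventually_ge_atTop 1] with N hN hN1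
  have hN1' : (1 : ℝ) ≤ N := by exact_mod_cast hN1
  have hs : 0 < Real.sqrt N := Real.sqrt_pos.2 (by linarith)
  rw [div_le_iff₀ hs]
  have h4 := Real.sqrt_le_sqrt hN
  rw [Real.sqrt_sq_eq_abs] at h4
  have h5 := (le_abs_self (C / c)).trans h4
  rw [div_le_iff₀ hc] at h5
  linarith

lemma LipS.mono {c : ℂ} {ρ d ε ε' : ℝ} {S : ℂ → ℂ} (h : LipS c ρ d ε S) (he : ε ≤ ε') :
    LipS c ρ d ε' S := fun y hy z hz =>
  (h y hy z hz).trans (mul_le_mul_of_nonneg_right he (norm_nonneg _))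

/-- the absolute constants -/
structure Abs (ρ h0 δ C2 C3 C4 : ℝ) : Prop where
  rho : 0 < ρ
  rho1 : ρ ≤ 1 / 1000
  hh0 : 0 < h0
  hh1 : 2 * Real.pi * h0 ≤ ρ ^ 2 / 1024
  c2 : 0 < C2
  c3 : 0 < C3
  c4 : 0 < C4
  delta : 1000 * ρ ≤ δ
  k3 : C3 * ρ ≤ 1 / 1000
  k4 : C4 * ρ ≤ 1 / 1000
  gap : ∀ ξ τ : ℝ, |ξ| ≤ 1 / 2 → 0 ≤ τ → τ ≤ 1 → 1 / 800 ≤ |τ - 1 / 4| →
      win 0 ξ τ - 2 * ll τ ≤ U0 (1 / 4) - δ
  gab : ∀ᶠ N : ℕ in atTop, GAB C2 C3 C4 N

theorem exists_Abs : ∃ ρ h0 δ C2 C3 C4 : ℝ, Abs ρ h0 δ C2 C3 C4 := by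
  obtain ⟨C2, C3, C4, h2, h3, h4, NB, hB⟩ := exists_GAB
  obtain ⟨δ, hδ, hgap⟩ := win_gap (r := 1 / 800) (by norm_num)
  have hpi4 := Real.pi_lt_d2
  have hpi := Real.pi_pos
  set K : ℝ := 1 + C3 + C4 with hK
  have hK0 : 0 < K := by positivity
  set ρ : ℝ := min (1 / 1000) (min (1 / (1000 * K)) (δ / 1000)) with hρd
  have hρ : 0 < ρ := by rw [hρd]; positivity
  have r1 : ρ ≤ 1 / 1000 := min_le_left _ _
  have r2 : ρ ≤ 1 / (1000 * K) := le_trans (min_le_right _ _) (min_le_left _ _)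
  have r3 : ρ ≤ δ / 1000 := le_trans (min_le_right _ _) (min_le_right _ _)
  rw [le_div_iff₀ (by positivity)] at r2
  refine ⟨ρ, ρ ^ 2 / 8192, δ, C2, C3, C4, hρ, r1, by positivity, ?_, h2, h3, h4, by linarith,
    by nlinarith, by nlinarith, hgap, eventually_atTop.2 ⟨NB, hB⟩⟩
  have : 0 ≤ ρ ^ 2 := sq_nonneg ρ
  nlinarith

section
variable {ρ h0 δ C2 C3 C4 : ℝ}

/-- the events which hold for all large `N` -/
structure Ev (ρ h0 δ CK C2 C3 C4 C1 CJ Ci Co Cg Cg3 : ℝ) (ki ko kg kg3 N a : ℕ) : Prop where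
  B : GAB C2 C3 C4 N
  n1 : 2 * CK * N ≤ Real.exp (N * (ρ ^ 2 / 64))
  n2 : C2 * (1 + Real.log N) / N ≤ ρ ^ 2 / 1024
  n7 : 2 * CK * N ≤ Real.exp (N * (ρ ^ 2 / 256))
  w1 : C1 / a ^ 2 + CJ / Real.sqrt N ≤ ρ / 8
  hκ : Real.exp (-(N * (ρ ^ 2 / 32))) ≤ 1 / 2
  hs : (CK + 2 / ρ) / Real.sqrt N ≤ ρ / 8
  j : CJ * (1 + Real.log N) ≤ N * (ρ ^ 2 / 2048)
  i : Ci * N ^ ki ≤ Real.exp (N * (ρ ^ 2 / 1024))
  o : Co * N ^ ko ≤ Real.exp (N * (δ / 8))
  g3 : Cg3 * N ^ kg3 ≤ Real.exp (N * (δ / 8))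
  g : Cg * N ^ kg ≤ Real.exp (N * (ρ ^ 2 / 4096))
  two : 2 ≤ Real.exp (N * (ρ ^ 2 / 1024))

theorem exists_Ev (A : Abs ρ h0 δ C2 C3 C4) (CK C1 CJ Ci Co Cg Cg3 : ℝ) (ki ko kg kg3 a : ℕ)
    (ha : C1 / a ^ 2 ≤ ρ / 16) :
    ∀ᶠ N : ℕ in atTop, Ev ρ h0 δ CK C2 C3 C4 C1 CJ Ci Co Cg Cg3 ki ko kg kg3 N a := by
  have hρ := A.rho
  have hδ : 0 < δ := by linarith [A.delta]
  filter_upwards [A.gab, ev_pow (2 * CK) 1 (c := ρ ^ 2 / 64) (by positivity),
    ev_log C2 (c := ρ ^ 2 / 1024) (by positivity), ev_pow (2 * CK) 1 (c := ρ ^ 2 / 256) (by positivity),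
    ev_sqrt CJ (c := ρ / 16) (by positivity), ev_pow 2 0 (c := ρ ^ 2 / 32) (by positivity),
    ev_sqrt (CK + 2 / ρ) (c := ρ / 8) (by positivity), ev_log CJ (c := ρ ^ 2 / 2048) (by positivity),
    ev_pow Ci ki (c := ρ ^ 2 / 1024) (by positivity), ev_pow Co ko (c := δ / 8) (by positivity),
    ev_pow Cg3 kg3 (c := δ / 8) (by positivity), ev_pow Cg kg (c := ρ ^ 2 / 4096) (by positivity),
    ev_pow 2 0 (c := ρ ^ 2 / 1024) (by positivity), eventually_ge_atTop 1] with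
    N e1 e2 e3 e4 e5 e6 e7 e8 e9 e10 e11 e12 e13 e14
  have hN : (0 : ℝ) < N := by exact_mod_cast (by omega : 0 < N)
  refine ⟨e1, by simpa using e2, ?_, by simpa using e4, by linarith, ?_, e7, e8, e9, e10, e11, e12,
    by simpa using e13⟩
  · rw [div_le_iff₀ hN]; linarith
  · rw [Real.exp_neg, inv_eq_one_div]
    apply one_div_le_one_div_of_le (by norm_num)
    simpa using e6

end

/-- the induction step -/
theorem step_part {ρ h0 δ C2 C3 C4 : ℝ} (A : Abs ρ h0 δ C2 C3 C4) : ∃ R : ℕ, ∀ a : ℕ, R ≤ a →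
    ∀ θ : ℝ, (θ = 0 ∨ θ = 1) → ∃ C : ℝ, 0 < C ∧ ∃ N0 : ℕ, ∀ N : ℕ, N0 ≤ N →
    ∀ f : ℂ → ℂ, Good ρ h0 (ρ ^ 2 / 32) N θ f →
      Good ρ h0 (ρ ^ 2 / 32) N 1 (nx N a ((1 + θ) / a ^ 2) f) ∧
      Decay ρ h0 N (nx N a ((1 + θ) / a ^ 2) f) ∧
      ∀ y ∈ Metric.ball (0 : ℂ) ρ, ∃ t z : ℂ, Asy C N a f (nx N a ((1 + θ) / a ^ 2) f) y t z := by
  have hρ := A.rho
  have hρ1 := A.rho1
  have hδ : 0 < δ := by linarith [A.delta]
  have hpi := Real.pi_pos
  have hpi4 := Real.pi_lt_d2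
  obtain ⟨C1, R1, hC1, hR1, hJF⟩ := J_family2 hρ hρ1
  obtain ⟨R2, hin⟩ := site_in hρ hρ1 A.hh0 A.hh1 (le_refl (ρ ^ 2 / 32))
  obtain ⟨R3, hout⟩ := site_out hρ A.hh0 A.hh1 (le_refl (ρ ^ 2 / 32)) A.gap
  obtain ⟨CK, hCK, NK, hK⟩ := KL (r := 1 / 400) (by norm_num) (by norm_num)
  obtain ⟨Cg, kg, hCg, hg⟩ := gm_le A.hh0
  obtain ⟨Cg3, kg3, hCg3, hg3⟩ := gm_le (h := 3 * ρ) (by positivity)
  obtain ⟨R4, hR4⟩ := exists_nat_gt (C1 * 2048 / ρ ^ 2 + C1 * 16 / ρ)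
  refine ⟨max (max R1 R2) (max R3 R4), fun a ha θ hθ => ?_⟩
  have haR1 : R1 ≤ a := le_trans (le_trans (le_max_left _ _) (le_max_left _ _)) ha
  have haR2 : R2 ≤ a := le_trans (le_trans (le_max_right _ _) (le_max_left _ _)) ha
  have haR3 : R3 ≤ a := le_trans (le_trans (le_max_left _ _) (le_max_right _ _)) ha
  have haR4 : R4 ≤ a := le_trans (le_trans (le_max_right _ _) (le_max_right _ _)) ha
  have ha10 : (10 : ℝ) ≤ a := by exact_mod_cast hR1.trans haR1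
  have ha0 : (0 : ℝ) < a := by linarith
  have haR : C1 * 2048 / ρ ^ 2 + C1 * 16 / ρ < a := hR4.trans_le (by exact_mod_cast haR4)
  have t1 : 0 < C1 * 2048 / ρ ^ 2 := by positivity
  have t2 : 0 < C1 * 16 / ρ := by positivity
  have hC1a : C1 / a ≤ ρ ^ 2 / 2048 := by
    have h1 : C1 * 2048 / ρ ^ 2 < a := by linarith
    rw [div_lt_iff₀ (by positivity)] at h1
    rw [div_le_div_iff₀ ha0 (by norm_num)]
    linarith
  have hC1a2 : C1 / (a : ℝ) ^ 2 ≤ ρ / 16 := by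
    have h1 : C1 * 16 / ρ < a := by linarith
    rw [div_lt_iff₀ hρ] at h1
    rw [div_le_div_iff₀ (by positivity) (by norm_num)]
    nlinarith
  obtain ⟨CJ, hCJ, NJ, hJ⟩ := hJF a haR1 θ hθ
  obtain ⟨Ci, ki, hCi, Ni, hi⟩ := hin a haR2 θ hθ
  obtain ⟨Co, ko, hCo, No, ho⟩ := hout a haR3 θ hθ
  have hEv := exists_Ev A CK C1 CJ Ci Co Cg Cg3 ki ko kg kg3 a hC1a2
  have hc2 := A.c2
  obtain ⟨NE, hE⟩ := eventually_atTop.1 hEv
  refine ⟨(|Real.log CK| + 2 + C2) + CJ + (CK + 2 / ρ + C2) + C2, by positivity,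
    max (max NE NK) (max (max Ni No) NJ), fun N hN f hf => ?_⟩
  have hNE : NE ≤ N := le_trans (le_trans (le_max_left _ _) (le_max_left _ _)) hN
  have hNK : NK ≤ N := le_trans (le_trans (le_max_right _ _) (le_max_left _ _)) hN
  have hNi : Ni ≤ N := le_trans (le_trans (le_trans (le_max_left _ _) (le_max_left _ _))
    (le_max_right _ _)) hN
  have hNo : No ≤ N := le_trans (le_trans (le_trans (le_max_right _ _) (le_max_left _ _))
    (le_max_right _ _)) hN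
  have hNJ : NJ ≤ N := le_trans (le_trans (le_max_right _ _) (le_max_right _ _)) hN
  have E := hE N hNE
  have hN20 := E.B.N20
  have hN20' : (20 : ℝ) ≤ N := by exact_mod_cast hN20
  have hN0 : (0 : ℝ) < N := by linarith
  have hf0 : f 0 ≠ 0 := hf.ne 0 (Metric.mem_ball_self hρ)
  have hf0' : 0 < ‖f 0‖ := norm_pos_iff.2 hf0
  obtain ⟨P, hPd, hP0, hPh, hPe, hPd0, hPl⟩ := Good.exp hρ (by omega : 1 ≤ N) hf
  obtain ⟨v, w, hv0, hJne, hall⟩ := hJ N hNJ P hPd hP0 hPd0 hPl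
  set J : ℂ := IL N a ((1 + θ) / a ^ 2) ρ (fun y => GA N y (1 / 4) + P y) (fun _ => 1) with hJd
  set φ : ℕ → ℂ := fun m => site N a ((1 + θ) / a ^ 2) f m with hφ
  have hnx : nx N a ((1 + θ) / a ^ 2) f = Ctx.FF N φ := by
    funext y; rfl
  -- size of the family
  have hsize : ∀ τ : ℝ, |τ - 1 / 4| < 1 / 200 →
      Real.exp (N * (U0 τ - ρ ^ 2 / 1024)) ≤ ‖J * Complex.exp (N * v τ)‖ ∧
      ‖J * Complex.exp (N * v τ)‖ ≤ Real.exp (N * (U0 τ + ρ ^ 2 / 1024)) := by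
    intro τ hτ
    have hmem : (τ : ℂ) ∈ Metric.ball (1 / 4 : ℂ) (1 / 200) := by
      rw [mem_b]
      have e : ((τ : ℂ) - 1 / 4) = ((τ - 1 / 4 : ℝ) : ℂ) := by push_cast; ring
      rw [e, Complex.norm_real, Real.norm_eq_abs]
      exact hτ
    obtain ⟨-, h2, -, h4, -⟩ := hall τ hmem
    rw [h2] at h4
    have hg0 : (gam 0 τ).re = U0 τ := by
      rw [gam_real (by linarith : |τ - 1 / 4| ≤ 1 / 20), Complex.ofReal_re]
    rw [hg0] at h4
    have h5 : N * (C1 / a) ≤ N * (ρ ^ 2 / 2048) := mul_le_mul_of_nonneg_left hC1a hN0.le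
    have h6 := E.j
    have h7 : 0 < ‖J * Complex.exp (N * v τ)‖ :=
      norm_pos_iff.2 (mul_ne_zero hJne (Complex.exp_ne_zero _))
    have h8 := abs_le.1 h4
    constructor
    · rw [← Real.le_log_iff_exp_le h7]
      linarith [h8.1]
    · rw [← Real.log_le_iff_le_exp h7]
      linarith [h8.2]
  have hWτ : ∀ m ∈ Wd N (1 / 400), |(m : ℝ) / N - 1 / 4| < 1 / 200 := by
    intro m hm
    have := (mem_Wd.1 hm).2
    linarith
  have hcast : ∀ m : ℕ, ((m : ℂ) / N) = (((m : ℝ) / N : ℝ) : ℂ) := fun m => by push_cast; ring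
  -- the window
  have hwin : ∀ m ∈ Wd N (1 / 400), ‖φ m - f 0 * J * Complex.exp (N * v (m / N))‖ ≤
      Real.exp (-(N * (ρ ^ 2 / 16))) * ‖f 0 * J * Complex.exp (N * v (m / N))‖ := by
    intro m hm
    have h1 := hi N hNi f P hf hPe m hm
    have hmem : ((m : ℂ) / N) ∈ Metric.ball (1 / 4 : ℂ) (1 / 200) := by
      rw [mem_b, hcast m]
      have e : ((((m : ℝ) / N : ℝ) : ℂ) - 1 / 4) = (((m : ℝ) / N - 1 / 4 : ℝ) : ℂ) := by
        push_cast; ring
      rw [e, Complex.norm_real, Real.norm_eq_abs]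
      exact hWτ m hm
    have h2 := (hall _ hmem).2.1
    rw [h2] at h1
    have h3 := (hsize ((m : ℝ) / N) (hWτ m hm)).1
    rw [← hcast m] at h3
    have e1 : f 0 * J * Complex.exp (N * v (m / N)) = f 0 * (J * Complex.exp (N * v (m / N))) := by
      ring
    rw [e1, norm_mul (f 0)]
    refine h1.trans ?_
    have h4 := E.i
    calc Ci * N ^ ki * ‖f 0‖ * Real.exp (N * (U0 (m / N) - 3 * ρ ^ 2 / 16)) ≤
        Real.exp (N * (ρ ^ 2 / 1024)) * ‖f 0‖ * Real.exp (N * (U0 (m / N) - 3 * ρ ^ 2 / 16)) := by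
          gcongr
      _ = ‖f 0‖ * Real.exp (N * (ρ ^ 2 / 1024) + N * (U0 (m / N) - 3 * ρ ^ 2 / 16)) := by
          rw [Real.exp_add]; ring
      _ ≤ ‖f 0‖ * Real.exp (-(N * (ρ ^ 2 / 16)) + N * (U0 (m / N) - ρ ^ 2 / 1024)) := by
          apply mul_le_mul_of_nonneg_left _ (norm_nonneg _)
          apply Real.exp_le_exp.2
          have : 0 ≤ (N : ℝ) * ρ ^ 2 := by positivity
          nlinarith
      _ = Real.exp (-(N * (ρ ^ 2 / 16))) * (‖f 0‖ * Real.exp (N * (U0 (m / N) - ρ ^ 2 / 1024))) := by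
          rw [Real.exp_add]; ring
      _ ≤ _ := by gcongr
  have hCtx : Ctx ρ δ CK C2 C3 C4 (C1 / a ^ 2 + CJ / Real.sqrt N) N (f 0) J v w φ := by
    refine ⟨E.B, hK N hNK, hCK, hρ, hρ1, A.c2, A.c3, A.c4, A.delta, A.k3, A.k4, E.w1, E.n1, E.n2,
      hf0, hJne, hv0, fun t ht => (hall t ht).1, fun t ht => (hall t ht).2.2.1, hwin, ?_, ?_, ?_⟩
    · intro m hm hmW
      refine (ho N hNo f hf m hm hmW).trans ?_
      have h4 := E.o
      calc Co * N ^ ko * ‖f 0‖ * Real.exp (N * (U0 (1 / 4) - δ + ρ ^ 2 / 16)) ≤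
          Real.exp (N * (δ / 8)) * ‖f 0‖ * Real.exp (N * (U0 (1 / 4) - δ + ρ ^ 2 / 16)) := by gcongr
        _ = ‖f 0‖ * Real.exp (N * (δ / 8) + N * (U0 (1 / 4) - δ + ρ ^ 2 / 16)) := by
            rw [Real.exp_add]; ring
        _ ≤ _ := by
            apply mul_le_mul_of_nonneg_left _ (norm_nonneg _)
            apply Real.exp_le_exp.2
            rw [← mul_add]
            apply mul_le_mul_of_nonneg_left _ hN0.le
            have := A.delta
            nlinarith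
    · intro m hm hmW y hy
      have hre : |y.re| ≤ 1 / 2 := (Complex.abs_re_le_norm y).trans (by linarith)
      have him : |y.im| ≤ 3 * ρ := (Complex.abs_im_le_norm y).trans hy.le
      have hτ := tau_mem hm
      have hW : 1 / 800 ≤ |(m : ℝ) / N - 1 / 4| := by
        rw [mem_Wd] at hmW
        push Not at hmW
        have := hmW hm
        linarith
      refine (hg3 N m (by omega) hm y hre him).trans ?_
      have w1 := win_close (h := 3 * ρ) (ξ := y.re) (by positivity) hτ.1 hτ.2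
      have w2 := A.gap y.re _ hre hτ.1 hτ.2 hW
      have h4 := E.g3
      calc Cg3 * N ^ kg3 * Real.exp (N * (win (3 * ρ) y.re (m / N) - 2 * ll (m / N))) ≤
          Real.exp (N * (δ / 8)) * Real.exp (N * (win (3 * ρ) y.re (m / N) - 2 * ll (m / N))) := by
            gcongr
        _ ≤ _ := by
            rw [← Real.exp_add, ← mul_add]
            apply Real.exp_le_exp.2
            apply mul_le_mul_of_nonneg_left _ hN0.le
            have := A.delta
            nlinarith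
    · have h1 := (hsize (1 / 4) (by norm_num)).1
      have e : (((1 / 4 : ℝ)) : ℂ) = 1 / 4 := by push_cast; ring
      rw [e, hv0, mul_zero, Complex.exp_zero, mul_one] at h1
      exact h1
  have hup : ∀ m ∈ Wd N (1 / 400), ‖φ m‖ ≤ ‖f 0‖ * Real.exp (N * (U0 (m / N) + ρ ^ 2 / 512)) := by
    intro m hm
    have h1 := hwin m hm
    have h2 := (hsize ((m : ℝ) / N) (hWτ m hm)).2
    rw [← hcast m] at h2
    have e1 : f 0 * J * Complex.exp (N * v (m / N)) = f 0 * (J * Complex.exp (N * v (m / N))) := by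
      ring
    have h3 : Real.exp (-(N * (ρ ^ 2 / 16))) ≤ 1 := by
      rw [Real.exp_le_one_iff]
      have : 0 ≤ (N : ℝ) * (ρ ^ 2 / 16) := by positivity
      linarith
    have h4 : ‖φ m‖ ≤ 2 * ‖f 0 * J * Complex.exp (N * v (m / N))‖ := by
      have h5 := norm_sub_norm_le (φ m) (f 0 * J * Complex.exp (N * v (m / N)))
      have h6 := mul_le_mul_of_nonneg_right h3 (norm_nonneg (f 0 * J * Complex.exp (N * v (m / N))))
      linarith
    rw [e1, norm_mul (f 0)] at h4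
    have h5 := E.two
    calc ‖φ m‖ ≤ 2 * (‖f 0‖ * ‖J * Complex.exp (N * v (m / N))‖) := h4
      _ ≤ Real.exp (N * (ρ ^ 2 / 1024)) * (‖f 0‖ * Real.exp (N * (U0 (m / N) + ρ ^ 2 / 1024))) := by
          gcongr
      _ = ‖f 0‖ * Real.exp (N * (ρ ^ 2 / 1024) + N * (U0 (m / N) + ρ ^ 2 / 1024)) := by
          rw [Real.exp_add]; ring
      _ = _ := by congr 2; ring
  have hgup : ∀ m : ℕ, m < N → ∀ y : ℂ, |y.re| ≤ 1 / 2 → |y.im| ≤ h0 →
      ‖gm N m y‖ ≤ Real.exp (N * (win h0 y.re (m / N) - 2 * ll (m / N) + ρ ^ 2 / 4096)) := by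
    intro m hm y h1 h2
    refine (hg N m (by omega) hm y h1 h2).trans ?_
    have h4 := E.g
    calc Cg * N ^ kg * Real.exp (N * (win h0 y.re (m / N) - 2 * ll (m / N))) ≤
        Real.exp (N * (ρ ^ 2 / 4096)) * Real.exp (N * (win h0 y.re (m / N) - 2 * ll (m / N))) := by
          gcongr
      _ = _ := by rw [← Real.exp_add, ← mul_add]; congr 2; ring
  obtain ⟨hgood, hdec⟩ := hCtx.good E.hκ E.hs A.hh0 A.hh1 hup hgup E.n7
  rw [hnx]
  refine ⟨hgood, hdec, fun y hy => ?_⟩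
  have hyn : ‖y‖ < ρ := by simpa using hy
  obtain ⟨t, s1, s2, s3, s4⟩ := hCtx.asy E.hκ hyn
  have htb : t ∈ Metric.ball (1 / 4 : ℂ) (1 / 200) := by rw [mem_b]; linarith
  have ht20 : ‖t - 1 / 4‖ < 1 / 20 := by linarith
  have hy20 : ‖y‖ < 1 / 20 := by linarith
  obtain ⟨-, r2, -, -, z, z1, z2, z3, z4, z5, z6⟩ := hall t htb
  have hsl : deriv P z = sl N f z := (hPh z (by simpa using z2)).deriv
  have hsq : Real.sqrt N ≤ N := by
    rw [Real.sqrt_le_left (by linarith)]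
    nlinarith
  have hsq0 : 0 < Real.sqrt N := Real.sqrt_pos.2 hN0
  have hlogN : 0 ≤ Real.log N := Real.log_nonneg (by linarith)
  have hinv : ∀ c : ℝ, 0 ≤ c → c / N ≤ c / Real.sqrt N := fun c hc =>
    div_le_div_of_nonneg_left hc hsq0 hsq
  refine ⟨t, z, s1, z1, ?_, ?_, ?_, ?_⟩
  · have e1 : gamt y t + gamt z t = -(GAt N y t - gamt y t) - (w t - gamt z t) := by
      linear_combination s2
    rw [e1]
    have l1 := (E.B.lim y t hy20 ht20).2.2
    calc _ ≤ ‖-(GAt N y t - gamt y t)‖ + ‖w t - gamt z t‖ := norm_sub_le _ _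
      _ ≤ C2 / Real.sqrt N + CJ / Real.sqrt N := by
          rw [norm_neg]
          exact add_le_add (l1.trans (hinv C2 hc2.le)) z5
      _ ≤ _ := by
          rw [← add_div]
          apply div_le_div_of_nonneg_right _ hsq0.le
          have : 0 ≤ |Real.log CK| := abs_nonneg _
          have h2 : 0 < 2 / ρ := by positivity
          linarith
  · rw [hsl] at z4
    refine z4.trans ?_
    apply div_le_div_of_nonneg_right _ hsq0.le
    have : 0 ≤ |Real.log CK| := abs_nonneg _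
    have h2 : 0 < 2 / ρ := by positivity
    linarith
  · refine s3.trans ?_
    apply div_le_div_of_nonneg_right _ hsq0.le
    have : 0 ≤ |Real.log CK| := abs_nonneg _
    linarith
  · have hfz : Real.log ‖f z‖ = Real.log ‖f 0‖ + N * (P z).re := by
      rw [hPe z (by simpa using z2), norm_mul, Real.log_mul hf0'.ne'
        (norm_ne_zero_iff.2 (Complex.exp_ne_zero _)), Complex.norm_exp, Real.log_exp,
        ← Complex.ofReal_natCast, Complex.re_ofReal_mul]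
    have hJt : Real.log ‖J * Complex.exp (N * v t)‖ = Real.log ‖J‖ + N * (v t).re := by
      rw [norm_mul, Real.log_mul (norm_ne_zero_iff.2 hJne)
        (norm_ne_zero_iff.2 (Complex.exp_ne_zero _)), Complex.norm_exp, Real.log_exp,
        ← Complex.ofReal_natCast, Complex.re_ofReal_mul]
    rw [r2, hJt] at z6
    have e1 : Real.log ‖Ctx.FF N φ y‖ - Real.log ‖f z‖ -
        N * (gam y t + gam z t + Real.pi * I * a * z ^ 2 - 2 * Real.pi * I * z).re =
        (Real.log ‖Ctx.FF N φ y‖ - (Real.log ‖f 0‖ + Real.log ‖J‖ + N * (gam y t + v t).re)) +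
        (Real.log ‖J‖ + N * (v t).re -
          N * (Real.pi * I * a * z ^ 2 - 2 * Real.pi * I * z + gam z t + P z).re) := by
      rw [hfz]
      simp only [Complex.add_re, Complex.sub_re]
      ring
    rw [e1]
    calc _ ≤ _ := abs_add_le _ _
      _ ≤ (|Real.log CK| + 2 + C2) * (1 + Real.log N) + CJ * (1 + Real.log N) := add_le_add s4 z6
      _ = ((|Real.log CK| + 2 + C2) + CJ) * (1 + Real.log N) := by ring
      _ ≤ _ := by
          apply mul_le_mul_of_nonneg_right _ (by linarith)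
          have h2 : 0 < 2 / ρ := by positivity
          linarith

/-- the last twist region -/
theorem last_part {ρ h0 δ C2 C3 C4 : ℝ} (A : Abs ρ h0 δ C2 C3 C4) : ∃ R : ℕ, ∀ a : ℕ, R ≤ a →
    ∃ C : ℝ, 0 < C ∧ ∃ N0 : ℕ, ∀ N : ℕ, N0 ≤ N →
    ∀ f : ℂ → ℂ, Good ρ h0 (ρ ^ 2 / 32) N 1 f → Decay ρ h0 N f →
      ∃ z : ℂ, ‖z - 1 / a‖ ≤ 3 / a ^ 2 ∧
        2 * Real.pi * I * a * z - 2 * Real.pi * I + sl N f z = 0 ∧
        |Real.log ‖site N a (1 / a ^ 2) f 0‖ - Real.log ‖f z‖ -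
          N * (Real.pi * I * a * z ^ 2 - 2 * Real.pi * I * z).re| ≤ C * (1 + Real.log N) := by
  have hρ := A.rho
  have hρ1 := A.rho1
  have hpi := Real.pi_pos
  have hpi4 := Real.pi_lt_d2
  obtain ⟨R1, hSL⟩ := SL hρ (hρ1.trans (by norm_num))
  obtain ⟨R2, hlast⟩ := last_in (e4 := ρ ^ 2 / 32) hρ hρ1 A.hh0
  obtain ⟨R3, hR3⟩ := exists_nat_gt (4096 / ρ ^ 2 + 2 / ρ)
  refine ⟨max (max R1 R2) (max R3 10), fun a ha => ?_⟩
  have haR1 : R1 ≤ a := le_trans (le_trans (le_max_left _ _) (le_max_left _ _)) ha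
  have haR2 : R2 ≤ a := le_trans (le_trans (le_max_right _ _) (le_max_left _ _)) ha
  have haR3 : R3 ≤ a := le_trans (le_trans (le_max_left _ _) (le_max_right _ _)) ha
  have ha10n : 10 ≤ a := le_trans (le_trans (le_max_right _ _) (le_max_right _ _)) ha
  have ha10 : (10 : ℝ) ≤ a := by exact_mod_cast ha10n
  have ha0 : (0 : ℝ) < a := by linarith
  have haR : 4096 / ρ ^ 2 + 2 / ρ < a := hR3.trans_le (by exact_mod_cast haR3)
  have t1 : 0 < 4096 / ρ ^ 2 := by positivity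
  have t2 : 0 < 2 / ρ := by positivity
  have haρ2 : 64 / (a : ℝ) ≤ ρ ^ 2 / 64 := by
    have h1 : 4096 / ρ ^ 2 < a := by linarith
    rw [div_lt_iff₀ (by positivity)] at h1
    rw [div_le_div_iff₀ ha0 (by norm_num)]
    linarith
  have haρ : 2 / (a : ℝ) < ρ := by
    have h1 : 2 / ρ < a := by linarith
    rw [div_lt_iff₀ hρ] at h1
    rw [div_lt_iff₀ ha0]
    linarith
  obtain ⟨C, hC, N1, hS⟩ := hSL a haR1 1 (Or.inl rfl)
  obtain ⟨Cl, hCl, N2, hl⟩ := hlast a haR2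
  obtain ⟨N3, hN3⟩ := eventually_atTop.1 (ev_pow (2 * Cl * C) 1 (c := ρ ^ 2 / 64) (by positivity))
  refine ⟨|Real.log C| + 2, by positivity, max (max N1 N2) (max N3 20), fun N hN f hf hD => ?_⟩
  have hN1 : N1 ≤ N := le_trans (le_trans (le_max_left _ _) (le_max_left _ _)) hN
  have hN2 : N2 ≤ N := le_trans (le_trans (le_max_right _ _) (le_max_left _ _)) hN
  have hNN3 : N3 ≤ N := le_trans (le_trans (le_max_left _ _) (le_max_right _ _)) hN
  have hN20 : 20 ≤ N := le_trans (le_trans (le_max_right _ _) (le_max_right _ _)) hN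
  have hN20' : (20 : ℝ) ≤ N := by exact_mod_cast hN20
  have hN0 : (0 : ℝ) < N := by linarith
  have hf0 : f 0 ≠ 0 := hf.ne 0 (Metric.mem_ball_self hρ)
  have hf0' : 0 < ‖f 0‖ := norm_pos_iff.2 hf0
  obtain ⟨P, hPd, hP0, hPh, hPe, hPd0, hPl⟩ := Good.exp hρ (by omega : 1 ≤ N) hf
  obtain ⟨z, z1, z2, z3, z4, -⟩ := hS N hN1 P hPd hPd0 (hPl.mono (by norm_num))
  have hz0 : ‖z‖ ≤ 2 / a := z_small ha10n z1
  have hzρ : ‖z‖ < ρ := hz0.trans_lt haρ
  have hsl : deriv P z = sl N f z := (hPh z (by simpa using hzρ)).deriv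
  rw [hsl] at z2
  refine ⟨z, z1, z2, ?_⟩
  have h1 := hl N hN2 f P hf hD hPe
  set L : ℂ := IL N a (1 / a ^ 2) ρ P (fun _ => 1) with hL
  have hzsq : ‖z‖ ^ 2 ≤ 4 / a ^ 2 := by
    calc ‖z‖ ^ 2 ≤ (2 / a) ^ 2 := pow_le_pow_left₀ (norm_nonneg _) hz0 2
      _ = 4 / a ^ 2 := by rw [div_pow]; norm_num
  have hPsi : ‖Psi a P z‖ ≤ ρ ^ 2 / 64 := by
    have p1 : ‖(Real.pi * I * a * z ^ 2 : ℂ)‖ ≤ 4 * Real.pi / a := by
      rw [norm_mul, norm_mul, norm_mul, Complex.norm_real, Complex.norm_I, norm_pow,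
        Complex.norm_natCast, Real.norm_of_nonneg hpi.le, mul_one]
      calc Real.pi * a * ‖z‖ ^ 2 ≤ Real.pi * a * (4 / a ^ 2) :=
            mul_le_mul_of_nonneg_left hzsq (by positivity)
        _ = _ := by field_simp
    have p2 : ‖(2 * Real.pi * I * z : ℂ)‖ ≤ 4 * Real.pi / a := by
      rw [norm_mul, norm_mul, norm_mul, Complex.norm_real, Complex.norm_I,
        Real.norm_of_nonneg hpi.le, mul_one]
      calc ‖(2 : ℂ)‖ * Real.pi * ‖z‖ ≤ 2 * Real.pi * (2 / a) := by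
            rw [show ‖(2 : ℂ)‖ = 2 by norm_num]
            exact mul_le_mul_of_nonneg_left hz0 (by positivity)
        _ = _ := by ring
    have p3 := P_quad (Or.inr rfl) hPd hP0 hPd0 hPl hzρ
    have hza : ‖z‖ ^ 2 ≤ 4 / a := by
      refine hzsq.trans ?_
      apply div_le_div_of_nonneg_left (by norm_num) (by positivity)
      nlinarith
    have p4 : ‖z‖ ^ 2 ≤ 4 / a / 10 := by
      refine hzsq.trans ?_
      rw [div_div]
      apply div_le_div_of_nonneg_left (by norm_num) (by positivity)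
      nlinarith
    unfold Psi
    calc _ ≤ ‖(Real.pi * I * a * z ^ 2 - 2 * Real.pi * I * z : ℂ)‖ + ‖P z‖ := norm_add_le _ _
      _ ≤ (4 * Real.pi / a + 4 * Real.pi / a) + 8 * (4 / a / 10) := by
          gcongr
          · exact (norm_sub_le _ _).trans (add_le_add p1 p2)
          · exact p3.trans (mul_le_mul_of_nonneg_left p4 (by norm_num))
      _ = (8 * Real.pi + 32 / 10) / a := by ring
      _ ≤ 64 / a := by
          apply div_le_div_of_nonneg_right _ ha0.le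
          linarith
      _ ≤ _ := haρ2
  have hPsire : -(ρ ^ 2 / 64) ≤ (Psi a P z).re := by
    have := (abs_le.1 ((Complex.abs_re_le_norm _).trans hPsi)).1
    exact this
  have hLlow : 1 / (C * N) * Real.exp (-(N * (ρ ^ 2 / 64))) ≤ ‖L‖ := by
    refine le_trans ?_ z3
    apply mul_le_mul_of_nonneg_left _ (by positivity)
    apply Real.exp_le_exp.2
    nlinarith
  have hLpos : 0 < ‖L‖ := lt_of_lt_of_le (by positivity) hLlow
  have hsmall : ‖site N a (1 / a ^ 2) f 0 - f 0 * L‖ ≤ 1 / 2 * ‖f 0 * L‖ := by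
    refine h1.trans ?_
    rw [norm_mul]
    have h3 := hN3 N hNN3
    rw [pow_one] at h3
    have h4 : Real.exp (-(N * (ρ ^ 2 / 64))) ≤ C * N * ‖L‖ := by
      rw [div_mul_eq_mul_div, div_le_iff₀ (by positivity), one_mul] at hLlow
      linarith
    have h5 : 2 * Cl * Real.exp (-(N * (ρ ^ 2 / 16))) ≤ ‖L‖ := by
      have h6 : (2 * Cl * C * N) * ‖L‖ ≤ Real.exp (N * (ρ ^ 2 / 64)) * ‖L‖ := by gcongr
      have h7 : 2 * Cl * Real.exp (-(N * (ρ ^ 2 / 64))) ≤ Real.exp (N * (ρ ^ 2 / 64)) * ‖L‖ := by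
        calc 2 * Cl * Real.exp (-(N * (ρ ^ 2 / 64))) ≤ 2 * Cl * (C * N * ‖L‖) := by gcongr
          _ = (2 * Cl * C * N) * ‖L‖ := by ring
          _ ≤ _ := h6
      have h8 : 2 * Cl * Real.exp (-(N * (ρ ^ 2 / 32))) ≤ ‖L‖ := by
        have e1 : Real.exp (-(N * (ρ ^ 2 / 32))) =
            Real.exp (-(N * (ρ ^ 2 / 64))) * Real.exp (-(N * (ρ ^ 2 / 64))) := by
          rw [← Real.exp_add]; congr 1; ring
        have e2 : Real.exp (N * (ρ ^ 2 / 64)) * Real.exp (-(N * (ρ ^ 2 / 64))) = 1 := by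
          rw [← Real.exp_add, add_neg_cancel, Real.exp_zero]
        calc 2 * Cl * Real.exp (-(N * (ρ ^ 2 / 32))) =
            (2 * Cl * Real.exp (-(N * (ρ ^ 2 / 64)))) * Real.exp (-(N * (ρ ^ 2 / 64))) := by
              rw [e1]; ring
          _ ≤ (Real.exp (N * (ρ ^ 2 / 64)) * ‖L‖) * Real.exp (-(N * (ρ ^ 2 / 64))) := by gcongr
          _ = ‖L‖ * (Real.exp (N * (ρ ^ 2 / 64)) * Real.exp (-(N * (ρ ^ 2 / 64)))) := by ring
          _ = ‖L‖ := by rw [e2, mul_one]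
      refine le_trans ?_ h8
      apply mul_le_mul_of_nonneg_left _ (by positivity)
      apply Real.exp_le_exp.2
      have : 0 ≤ (N : ℝ) * ρ ^ 2 := by positivity
      nlinarith
    calc Cl * ‖f 0‖ * Real.exp (-(N * (ρ ^ 2 / 16))) =
        1 / 2 * (‖f 0‖ * (2 * Cl * Real.exp (-(N * (ρ ^ 2 / 16))))) := by ring
      _ ≤ 1 / 2 * (‖f 0‖ * ‖L‖) := by gcongr
  have hfL : 0 < ‖f 0 * L‖ := by rw [norm_mul]; positivity
  have hup : ‖site N a (1 / a ^ 2) f 0‖ ≤ 2 * ‖f 0 * L‖ := by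
    have := norm_sub_norm_le (site N a (1 / a ^ 2) f 0) (f 0 * L)
    linarith
  have hlow : 1 / 2 * ‖f 0 * L‖ ≤ ‖site N a (1 / a ^ 2) f 0‖ := by
    have := norm_sub_norm_le (f 0 * L) (site N a (1 / a ^ 2) f 0)
    rw [norm_sub_rev] at this
    linarith
  have hl2 := Real.log_two_lt_d9
  have hlogL : Real.log ‖f 0 * L‖ = Real.log ‖f 0‖ + Real.log ‖L‖ := by
    rw [norm_mul, Real.log_mul hf0'.ne' hLpos.ne']
  have a1 : Real.log ‖site N a (1 / a ^ 2) f 0‖ ≤ 1 + (Real.log ‖f 0‖ + Real.log ‖L‖) := by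
    have := Real.log_le_log (lt_of_lt_of_le (by positivity) hlow) hup
    rw [Real.log_mul (by norm_num) hfL.ne', hlogL] at this
    linarith
  have a2 : -1 + (Real.log ‖f 0‖ + Real.log ‖L‖) ≤ Real.log ‖site N a (1 / a ^ 2) f 0‖ := by
    have := Real.log_le_log (by positivity) hlow
    rw [Real.log_mul (by norm_num) hfL.ne', hlogL] at this
    have h3 : Real.log (1 / 2) = - Real.log 2 := by rw [one_div, Real.log_inv]
    linarith
  have b1 : Real.log ‖L‖ ≤ Real.log C + N * (Psi a P z).re := by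
    have := Real.log_le_log hLpos z4
    rw [Real.log_mul hC.ne' (Real.exp_pos _).ne', Real.log_exp] at this
    exact this
  have b2 : -(Real.log C + Real.log N) + N * (Psi a P z).re ≤ Real.log ‖L‖ := by
    have := Real.log_le_log (by positivity) z3
    rw [Real.log_mul (by positivity) (Real.exp_pos _).ne', Real.log_exp, one_div, Real.log_inv,
      Real.log_mul hC.ne' hN0.ne'] at this
    exact this
  have hfz : Real.log ‖f z‖ = Real.log ‖f 0‖ + N * (P z).re := by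
    rw [hPe z (by simpa using hzρ), norm_mul, Real.log_mul hf0'.ne'
      (norm_ne_zero_iff.2 (Complex.exp_ne_zero _)), Complex.norm_exp, Real.log_exp,
      ← Complex.ofReal_natCast, Complex.re_ofReal_mul]
  have hPre : (Psi a P z).re = (Real.pi * I * a * z ^ 2 - 2 * Real.pi * I * z).re + (P z).re := by
    unfold Psi
    rw [Complex.add_re]
  rw [hPre, mul_add] at b1 b2
  rw [hfz]
  have hlogN : 0 ≤ Real.log N := Real.log_nonneg (by linarith)
  have hc := neg_abs_le (Real.log C)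
  have hc2 := le_abs_self (Real.log C)
  have hc3 := abs_nonneg (Real.log C)
  have hp : 0 ≤ |Real.log C| * Real.log N := mul_nonneg hc3 hlogN
  rw [abs_le]
  constructor
  · nlinarith
  · nlinarith

theorem step_thm' : ∃ (ρ h0 e4 : ℝ) (R : ℕ), StepThm ρ h0 e4 R := by
  obtain ⟨ρ, h0, δ, C2, C3, C4, A⟩ := exists_Abs
  obtain ⟨R1, h1⟩ := step_part A
  obtain ⟨R2, h2⟩ := last_part A
  have hρ := A.rho
  exact ⟨ρ, h0, ρ ^ 2 / 32, max R1 R2, hρ, A.rho1, A.hh0, by positivity,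
    fun a ha => h1 a (le_trans (le_max_left _ _) ha), fun a ha => h2 a (le_trans (le_max_right _ _) ha)⟩

end Pool.Agent.Helper9.TF
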