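import Mathlib
import Pool.Agent.Helper9.TF.Chain
import Pool.Agent.Helper9.TF.StepG
import Pool.Agent.Helper9.TB.TFinal
import Pool.Agent.Helper17.TF.Chain
import Pool.Agent.Helper96.TF.GF

/-!
# The volume conjecture for all sufficiently twisted two-bridge links
-/

namespace Pool.Agent.Helper9.TF

open Complex Finset Filter Topology
open Pool.Agent.Helper9.TB Pool.Agent.Helper9.Kashaev

lemma log_limit {b c L : ℕ → ℝ} {k : ℕ} {E : ℝ}
    (hb : ∀ N, 2 ≤ N → b N = (N ^ 2 / (2 * Real.pi)) ^ k * c N)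
    (h : Tendsto (fun N : ℕ => Real.log (c N) / N) atTop (𝓝 E)) :
    Tendsto (fun N : ℕ => Real.log (b N) / N) atTop (𝓝 E) := by
  have hpi := Real.pi_pos
  have h1 : Tendsto (fun N : ℕ => (Real.log (b N) - Real.log (c N)) / N) atTop (𝓝 0) := by
    have h2 : Tendsto (fun N : ℕ => (k : ℝ) * ((2 * Real.log N + |Real.log (2 * Real.pi)|) / N)) atTop
        (𝓝 ((k : ℝ) * 0)) := by
      apply Tendsto.const_mul
      have h3 : Tendsto (fun N : ℕ => Real.log N / (N : ℝ)) atTop (𝓝 0) :=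
        (Real.isLittleO_log_id_atTop.tendsto_div_nhds_zero).comp tendsto_natCast_atTop_atTop
      have h4 : Tendsto (fun N : ℕ => |Real.log (2 * Real.pi)| / (N : ℝ)) atTop (𝓝 0) :=
        tendsto_const_div_atTop_nhds_zero_nat _
      have h5 := (h3.const_mul 2).add h4
      simp only [mul_zero, add_zero] at h5
      refine h5.congr fun N => ?_
      ring
    rw [mul_zero] at h2
    refine squeeze_zero_norm' ?_ h2
    filter_upwards [eventually_ge_atTop 2] with N hN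
    have hN0 : (0 : ℝ) < N := by exact_mod_cast (by omega : 0 < N)
    have hN1 : (1 : ℝ) ≤ N := by exact_mod_cast (by omega : 1 ≤ N)
    have hlog : 0 ≤ Real.log N := Real.log_nonneg hN1
    rw [Real.norm_eq_abs, abs_div, abs_of_pos hN0, mul_div_assoc']
    apply div_le_div_of_nonneg_right _ hN0.le
    rw [hb N hN]
    by_cases hc : c N = 0
    · rw [hc, mul_zero, sub_self, abs_zero]
      positivity
    · have hpos : (0 : ℝ) < N ^ 2 / (2 * Real.pi) := by positivity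
      rw [Real.log_mul (pow_pos hpos k).ne' hc, add_sub_cancel_right, Real.log_pow, abs_mul,
        Nat.abs_cast]
      apply mul_le_mul_of_nonneg_left _ (Nat.cast_nonneg k)
      rw [Real.log_div (by positivity) (by positivity), Real.log_pow]
      calc |((2 : ℕ) : ℝ) * Real.log N - Real.log (2 * Real.pi)| ≤
          |((2 : ℕ) : ℝ) * Real.log N| + |Real.log (2 * Real.pi)| := abs_sub _ _
        _ = _ := by rw [abs_of_nonneg (by positivity)]; push_cast; ring
  have h2 := h.add h1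
  rw [add_zero] at h2
  refine h2.congr fun N => ?_
  ring

theorem many_final : ∃ R : ℕ, ∀ n : ℕ, 2 ≤ n → ∀ a : ℕ → ℕ, (∀ i, i < n → R ≤ a i) →
    ∃ (z : ℕ → ℂ) (w : ℕ → ℝ),
      (∀ N, 2 ≤ N → ∀ u : ℂ, IsKashaev N (twoBridgeLink n a) u ↔ u = z N) ∧
      (Adm n a w ∧ ∀ i, 2 ≤ i → i ≤ crossings n a - 2 →
        0 < gx n a w i ∧ 0 < gy n a w i ∧ 0 < Real.pi - w i) ∧
      (∀ w', Adm n a w' → gvol n a w' ≤ gvol n a w) ∧
      Tendsto (fun N : ℕ => 2 * Real.pi * Real.log ‖z N‖ / N) atTop (𝓝 (gvol n a w)) := by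
  obtain ⟨ρ, h0, e4, R0, H⟩ := step_thm'
  obtain ⟨R1, hR1⟩ := Pool.Agent.Helper17.TF.chain_limit H
  obtain ⟨R2, hR2⟩ := gf_general
  refine ⟨max (max R1 R2) 1, fun n hn a ha => ?_⟩
  obtain ⟨m, rfl⟩ : ∃ m, n = m + 1 := ⟨n - 1, by omega⟩
  have ha1 : ∀ i, i ≤ m → R1 ≤ a i := fun i hi =>
    le_trans (le_trans (le_max_left _ _) (le_max_left _ _)) (ha i (by omega))
  have ha2 : ∀ i, i < m + 1 → R2 ≤ a i := fun i hi =>
    le_trans (le_trans (le_max_right _ _) (le_max_left _ _)) (ha i hi)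
  have ha3 : ∀ i, i < m + 1 → 1 ≤ a i := fun i hi => le_trans (le_max_right _ _) (ha i hi)
  obtain ⟨y, t, hC, hlim⟩ := hR1 m (by omega) a ha1
  obtain ⟨w, hw1, hw2, hw3, hw4⟩ := hR2 (m + 1) hn a ha2 y t hC
  have hh : (0 : ℝ) < 1 / (a m : ℝ) ^ 2 := by
    have : (0 : ℝ) < a m := by exact_mod_cast (ha3 m (by omega))
    positivity
  have hz : ∀ N : ℕ, ∃ z : ℂ, 2 ≤ N → IsKashaev N (twoBridgeLink (m + 1) a) z ∧
      ‖z‖ = (N ^ 2 / (2 * Real.pi)) ^ (m + 1) * ‖site N (a m) (1 / (a m : ℝ) ^ 2) (fch N a m) 0‖ := by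
    intro N
    by_cases hN : 2 ≤ N
    · obtain ⟨z, h1, h2⟩ := link_chain hN m a (fun i hi => ha3 i (by omega)) hh
      exact ⟨z, fun _ => ⟨h1, h2⟩⟩
    · exact ⟨0, fun h => absurd h hN⟩
  choose z hz using hz
  refine ⟨z, w, fun N hN u => kashaev_unique hN (hz N hN).1, ⟨hw1, hw2⟩, hw3, ?_⟩
  rw [hw4]
  have h1 := log_limit (L := fun _ => 0) (b := fun N => ‖z N‖)
    (c := fun N => ‖site N (a m) (1 / (a m : ℝ) ^ 2) (fch N a m) 0‖) (k := m + 1)
    (fun N hN => (hz N hN).2) hlim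
  have h2 := h1.const_mul (2 * Real.pi)
  refine h2.congr fun N => ?_
  ring

end Pool.Agent.Helper9.TF
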