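import Pool.Agent.Helper9.TB.TwoB2
import Pool.Agent.Helper9.TF.LinkDefs

/-!
# The Kashaev invariant of a two-bridge link as a matrix product
-/

namespace Pool.Agent.Helper9.Kashaev

open Finset
open scoped Matrix

/-- the maximum on the last two strands on a vector killed by `E` -/
lemma cap_ker' {N : ℕ} (hN : 2 ≤ N) {f : List ℕ → ℂ} (hf : Sup3 N f) (hE : Eop N f = 0) :
    slice N .cap 1 f [0] = v N ^ (-(((N : ℤ) - 1) ^ 2)) * f [N - 1, 0, 0] := by
  have hw0 : w2 N 0 = 1 := by simp [w2, qfac_zero]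
  set κ : ℂ := w2 N (N - 1) with hκ
  have hκ0 : κ ≠ 0 := w2_ne (by omega)
  have hww : ∀ a < N, w2 N a * w2 N (N - 1 - a) = κ := by
    intro a ha
    have := qfac_refl hN a ha
    rw [hκ]
    unfold w2
    rw [← this]; ring
  have h1 : ∀ b ∈ range N, κ * (capC N b * f (0 :: b :: (N - 1 - b) :: [])) =
      ∑ i ∈ range (b + 1), (-1) ^ (N - 1 - b) * v N ^ (-(((N : ℤ) - 1 - b) * ((b : ℤ) - 1)) +
        ex3 b (N - 1 - b) i) * qb N b i * gg N f i 0 (N - 1 - i) := by
    intro b hb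
    rw [mem_range] at hb
    have h2 := ker_sol hN hf hE b hb 0 (N - 1 - b)
    have h3 : κ * f [0, b, N - 1 - b] = gg N f 0 b (N - 1 - b) := by
      unfold gg; rw [hw0, one_mul, hww b hb]
    have h4 : κ * (capC N b * f (0 :: b :: (N - 1 - b) :: [])) =
        capC N b * gg N f 0 b (N - 1 - b) := by rw [← h3]; ring
    rw [h4, h2, mul_sum]
    apply sum_congr rfl
    intro i hi
    rw [mem_range] at hi
    have e1 : N - 1 - b + (b - i) = N - 1 - i := by omega
    have hc : capC N b = (-1) ^ (N - 1 - b) * v N ^ (-(((N : ℤ) - 1 - b) * ((b : ℤ) - 1))) := by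
      unfold capC cupC
      rw [mul_inv, ← zpow_neg, ← inv_pow, inv_neg, inv_one]
      congr 2
      have : ((N - 1 - b : ℕ) : ℤ) = (N : ℤ) - 1 - b := by omega
      rw [this]; ring
    rw [e1, hc, zpow_add₀ (v_ne N), zero_add]
    ring
  have h5 : κ * slice N .cap 1 f [0] = κ * (v N ^ (-(((N : ℤ) - 1) ^ 2)) * f [N - 1, 0, 0]) := by
    simp only [slice, piece]
    rw [mul_sum, sum_congr rfl h1]
    have h6 := sum_comm' (s := range N) (t := fun b => range (b + 1)) (t' := range N)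
      (s' := fun i => Ico i N) (f := fun b i => (-1 : ℂ) ^ (N - 1 - b) *
        v N ^ (-(((N : ℤ) - 1 - b) * ((b : ℤ) - 1)) + ex3 b (N - 1 - b) i) * qb N b i *
        gg N f i 0 (N - 1 - i)) (by
          intro x y
          simp only [mem_range, mem_Ico]
          omega)
    rw [h6]
    have h7 : ∀ i ∈ range N, ∑ b ∈ Ico i N, (-1 : ℂ) ^ (N - 1 - b) *
        v N ^ (-(((N : ℤ) - 1 - b) * ((b : ℤ) - 1)) + ex3 b (N - 1 - b) i) * qb N b i *
        gg N f i 0 (N - 1 - i) = (-1) ^ (N - 1 - i) *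
          v N ^ (((N : ℤ) - 1 - i) * (1 - (i : ℤ)) - (i : ℤ) ^ 2) *
          gg N f i 0 (N - 1 - i) * asum N (N - 1 - i) := by
      intro i hi
      rw [mem_range] at hi
      rw [sum_Ico_eq_sum_range]
      unfold asum
      rw [mul_sum, show N - 1 - i + 1 = N - i by omega]
      apply sum_congr rfl
      intro j hj
      rw [mem_range] at hj
      have hs : (-1 : ℂ) ^ (N - 1 - (i + j)) = (-1) ^ (N - 1 - i) * (-1) ^ j := by
        have : N - 1 - i = N - 1 - (i + j) + j := by omega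
        conv_rhs => rw [this, pow_add, mul_assoc, ← mul_pow]
        simp
      have hq : qb N (i + j) i = qb N (N - 1 - i) j := by
        have h5 := qb_refl hN (a := i + j) (l := i) (by omega) (by omega)
        rw [← h5, show N - 1 - (i + j) = N - 1 - i - j by omega]
        exact qb_symm (by omega) (by omega)
      have z : v N ^ (-(((N : ℤ) - 1 - ((i + j : ℕ) : ℤ)) * (((i + j : ℕ) : ℤ) - 1)) +
          ex3 (i + j) (N - 1 - (i + j)) i) =
          v N ^ (((N : ℤ) - 1 - i) * (1 - (i : ℤ)) - (i : ℤ) ^ 2) *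
          v N ^ ((j : ℤ) * (((N - 1 - i : ℕ) : ℤ) - 1)) := by
        rw [vz]; congr 1
        unfold ex3
        have e2 : ((N - 1 - i : ℕ) : ℤ) = (N : ℤ) - 1 - i := by omega
        have e3 : ((N - 1 - (i + j) : ℕ) : ℤ) = (N : ℤ) - 1 - (i + j) := by omega
        rw [e2, e3]; push_cast; ring
      rw [hs, hq, z]; ring
    rw [sum_congr rfl h7]
    obtain ⟨M, rfl⟩ : ∃ M, N = M + 1 := ⟨N - 1, by omega⟩
    rw [sum_range_succ]
    have h8 : ∀ i ∈ range M, (-1 : ℂ) ^ (M + 1 - 1 - i) *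
          v (M + 1) ^ ((((M + 1 : ℕ) : ℤ) - 1 - i) * (1 - (i : ℤ)) - (i : ℤ) ^ 2) *
          gg (M + 1) f i 0 (M + 1 - 1 - i) * asum (M + 1) (M + 1 - 1 - i) = 0 := by
      intro i hi
      rw [mem_range] at hi
      rw [show M + 1 - 1 - i = (M - 1 - i) + 1 by omega, asum_pos, mul_zero]
    rw [sum_eq_zero h8, zero_add]
    simp only [Nat.add_sub_cancel, Nat.sub_self, pow_zero, one_mul, asum_zero, mul_one]
    have z : v (M + 1) ^ ((((M + 1 : ℕ) : ℤ) - 1 - (M : ℤ)) * (1 - (M : ℤ)) - (M : ℤ) ^ 2) =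
        v (M + 1) ^ (-((((M + 1 : ℕ) : ℤ) - 1) ^ 2)) := by
      congr 1; push_cast; ring
    rw [z]
    unfold gg
    rw [hw0, hκ]
    simp only [Nat.add_sub_cancel]
    ring
  exact mul_left_cancel₀ hκ0 h5

end Pool.Agent.Helper9.Kashaev
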