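import Pool.Agent.Helper9.TF.Base

/-!
# Auxiliary facts for the induction step
-/

namespace Pool.Agent.Helper9.TF

open Complex Finset Filter Topology
open Pool.Agent.Helper9.TB

/-- a bounded analytic function is Lipschitz on a smaller ball -/
lemma lip_of_bound {g : ℂ → ℂ} {c : ℂ} {R r M : ℝ} (hr : r < R)
    (hg : DifferentiableOn ℂ g (Metric.ball c R)) (hM : ∀ z ∈ Metric.ball c R, ‖g z‖ ≤ M) :
    ∀ y ∈ Metric.ball c r, ∀ z ∈ Metric.ball c r, ‖g y - g z‖ ≤ M / (R - r) * ‖y - z‖ := by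
  intro y hy z hz
  have hsub : Metric.ball c r ⊆ Metric.ball c R := Metric.ball_subset_ball hr.le
  have hd : ∀ x ∈ Metric.ball c r, DifferentiableAt ℂ g x := fun x hx =>
    hg.differentiableAt (Metric.isOpen_ball.mem_nhds (hsub hx))
  have hb : ∀ x ∈ Metric.ball c r, ‖deriv g x‖ ≤ M / (R - r) := by
    intro x hx
    rw [Metric.mem_ball] at hx
    have hcl : Metric.closedBall x (R - r) ⊆ Metric.ball c R := by
      intro w hw
      rw [Metric.mem_closedBall] at hw
      rw [Metric.mem_ball]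
      linarith [dist_triangle w x c]
    apply Complex.norm_deriv_le_of_forall_mem_sphere_norm_le (by linarith)
    · exact (hg.mono hcl).diffContOnCl_ball (le_refl _) |> fun h => h
    · intro w hw
      exact hM w (hcl (Metric.sphere_subset_closedBall hw))
  exact (convex_ball c r).norm_image_sub_le_of_norm_deriv_le hd hb hz hy

/-- the primitive of the logarithmic derivative -/
lemma exp_rep {f : ℂ → ℂ} {R : ℝ} (hR : 0 < R) (hf : DifferentiableOn ℂ f (Metric.ball 0 R)) {N : ℕ}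
    (hN : 1 ≤ N) (hne : ∀ y ∈ Metric.ball (0 : ℂ) R, f y ≠ 0) : ∃ P : ℂ → ℂ,
      DifferentiableOn ℂ P (Metric.ball 0 R) ∧ P 0 = 0 ∧
      (∀ y ∈ Metric.ball (0 : ℂ) R, HasDerivAt P (sl N f y) y) ∧
      ∀ y ∈ Metric.ball (0 : ℂ) R, f y = f 0 * Complex.exp (N * P y) := by
  have hN0 : (N : ℂ) ≠ 0 := by exact_mod_cast (by omega : N ≠ 0)
  have hsl : DifferentiableOn ℂ (sl N f) (Metric.ball 0 R) := by
    unfold sl
    apply DifferentiableOn.div
    · exact (hf.deriv Metric.isOpen_ball)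
    · exact hf.const_mul _
    · intro x hx
      exact mul_ne_zero hN0 (hne x hx)
  obtain ⟨P, hP0, hP⟩ := hsl.isExactOn_ball.with_val_at 0 0
  have hPd : DifferentiableOn ℂ P (Metric.ball 0 R) := fun y hy =>
    (hP y hy).differentiableAt.differentiableWithinAt
  refine ⟨P, hPd, hP0, hP, ?_⟩
  set q : ℂ → ℂ := fun y => f y * Complex.exp (-(N * P y)) with hq
  have hqd : ∀ y ∈ Metric.ball (0 : ℂ) R, HasDerivAt q 0 y := by
    intro y hy
    have h1 : HasDerivAt f (deriv f y) y :=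
      (hf.differentiableAt (Metric.isOpen_ball.mem_nhds hy)).hasDerivAt
    have h2 := ((hP y hy).const_mul (N : ℂ)).neg.cexp
    have h3 := h1.mul h2
    refine h3.congr_deriv ?_
    have := hne y hy
    unfold sl
    field_simp
    ring
  have hconst : ∀ y ∈ Metric.ball (0 : ℂ) R, q y = q 0 := by
    intro y hy
    have h0 : (0 : ℂ) ∈ Metric.ball (0 : ℂ) R := Metric.mem_ball_self hR
    have := (convex_ball (0 : ℂ) R).norm_image_sub_le_of_norm_deriv_le (f := q) (C := 0)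
      (fun x hx => (hqd x hx).differentiableAt) (fun x hx => by rw [(hqd x hx).deriv, norm_zero]) h0 hy
    rw [zero_mul] at this
    exact sub_eq_zero.mp (norm_le_zero_iff.mp this)
  intro y hy
  have h1 := hconst y hy
  rw [hq] at h1
  simp only [hP0, mul_zero, neg_zero, Complex.exp_zero, mul_one] at h1
  rw [← h1, mul_assoc, ← Complex.exp_add, neg_add_cancel, Complex.exp_zero, mul_one]

lemma Good.exp {ρ h0 e4 : ℝ} {N : ℕ} {θ : ℝ} {f : ℂ → ℂ} (hρ : 0 < ρ) (hN : 1 ≤ N)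
    (hf : Good ρ h0 e4 N θ f) : ∃ P : ℂ → ℂ, DifferentiableOn ℂ P (Metric.ball 0 ρ) ∧ P 0 = 0 ∧
      (∀ y ∈ Metric.ball (0 : ℂ) ρ, HasDerivAt P (sl N f y) y) ∧
      (∀ y ∈ Metric.ball (0 : ℂ) ρ, f y = f 0 * Complex.exp (N * P y)) ∧
      deriv P 0 = 0 ∧ LipS 0 ρ θ (1 / 2) (deriv P) := by
  obtain ⟨P, h1, h2, h3, h4⟩ := exp_rep hρ hf.ent.differentiableOn hN hf.ne
  have h5 : sl N f 0 = 0 := by
    have e1 : deriv f 0 = 0 := by
      have e2 : HasDerivAt f (deriv f 0) 0 := hf.ent.differentiableAt.hasDerivAt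
      have e3 : HasDerivAt (fun y => f (-y)) (-(deriv f 0)) 0 := by
        have e4 : HasDerivAt f (deriv f 0) (-0) := by rwa [neg_zero]
        have e9 := HasDerivAt.scomp (0 : ℂ) e4 (hasDerivAt_neg (0 : ℂ))
        refine e9.congr_deriv ?_
        simp
      have e5 : (fun y => f (-y)) = f := funext hf.even
      rw [e5] at e3
      have e6 := e2.unique e3
      have e7 : deriv f 0 + deriv f 0 = 0 := by
        nth_rewrite 1 [e6]; ring
      have e8 : 2 * deriv f 0 = 0 := by linear_combination e7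
      exact (mul_eq_zero.mp e8).resolve_left two_ne_zero
    unfold sl
    rw [e1, zero_div]
  have h0 : (0 : ℂ) ∈ Metric.ball (0 : ℂ) ρ := Metric.mem_ball_self hρ
  refine ⟨P, h1, h2, h3, h4, by rw [(h3 0 h0).deriv, h5], ?_⟩
  intro y hy z hz
  rw [(h3 y hy).deriv, (h3 z hz).deriv]
  exact hf.lip y hy z hz

/-- Lipschitz constant of `GAy` -/
lemma GAy_lip : ∃ N0 : ℕ, 20 ≤ N0 ∧ ∀ N : ℕ, N0 ≤ N → ∀ t : ℂ, ‖t - 1 / 4‖ < 1 / 200 →
    ∀ y z : ℂ, ‖y‖ < 1 / 200 → ‖z‖ < 1 / 200 →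
      ‖GAy N y t - GAy N z t + 2 * Real.pi * (y - z)‖ ≤ 3 / 8 * ‖y - z‖ := by
  obtain ⟨C, hC, hlim⟩ := GA_lim
  obtain ⟨N1, hN1⟩ := exists_nat_ge (400 * C)
  refine ⟨max 20 N1, le_max_left _ _, fun N hN t ht y z hy hz => ?_⟩
  have hN20 : 20 ≤ N := le_trans (le_max_left _ _) hN
  have hNR : (0 : ℝ) < N := by exact_mod_cast (by omega : 0 < N)
  have hNC : 400 * C ≤ N := hN1.trans (by exact_mod_cast le_trans (le_max_right _ _) hN)
  have ht20 : ‖t - 1 / 4‖ < 1 / 20 := ht.trans (by norm_num)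
  have hdiff : DifferentiableOn ℂ (fun y => GAy N y t - gamy y t) (Metric.ball 0 (1 / 20)) := by
    apply DifferentiableOn.sub
    · have h1 : DifferentiableOn ℂ (fun y => GA N y t) (Metric.ball 0 (1 / 20)) := fun y hy =>
        (GA_hasDeriv_y hN20 (by simpa using hy) ht20).differentiableAt.differentiableWithinAt
      have h2 := h1.deriv Metric.isOpen_ball
      exact h2.congr fun y hy => ((GA_hasDeriv_y hN20 (by simpa using hy) ht20).deriv).symm
    · have h1 : DifferentiableOn ℂ (fun y => gam y t) (Metric.ball 0 (1 / 20)) := fun y hy =>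
        (gam_hasDeriv_y (by simpa using hy) ht20).differentiableAt.differentiableWithinAt
      have h2 := h1.deriv Metric.isOpen_ball
      exact h2.congr fun y hy => ((gam_hasDeriv_y (by simpa using hy) ht20).deriv).symm
  have h3 := lip_of_bound (r := 1 / 200) (by norm_num) hdiff (M := C / N)
    (fun z hz => (hlim N hN20 z t (by simpa using hz) ht20).2.1) y (by simpa using hy) z
    (by simpa using hz)
  have h4 := gamy_lip hy hz ht
  have e1 : C / N / (1 / 20 - 1 / 200) ≤ 1 / 8 := by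
    rw [div_div, div_le_iff₀ (by positivity)]
    linarith
  have e2 : GAy N y t - GAy N z t + 2 * Real.pi * (y - z) =
      (GAy N y t - gamy y t - (GAy N z t - gamy z t)) +
        (gamy y t - gamy z t + 2 * Real.pi * (y - z)) := by ring
  rw [e2]
  calc _ ≤ ‖GAy N y t - gamy y t - (GAy N z t - gamy z t)‖ +
      ‖gamy y t - gamy z t + 2 * Real.pi * (y - z)‖ := norm_add_le _ _
    _ ≤ 1 / 8 * ‖y - z‖ + 1 / 4 * ‖y - z‖ :=
        add_le_add (h3.trans (mul_le_mul_of_nonneg_right e1 (norm_nonneg _))) h4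
    _ = _ := by ring

/-- Lipschitz constant of `GAt` -/
lemma GAt_lip : ∃ N0 : ℕ, 20 ≤ N0 ∧ ∀ N : ℕ, N0 ≤ N → ∀ y : ℂ, ‖y‖ < 1 / 200 →
    ∀ t s : ℂ, ‖t - 1 / 4‖ < 1 / 200 → ‖s - 1 / 4‖ < 1 / 200 →
      ‖GAt N y t - GAt N y s + 4 * Real.pi * (t - s)‖ ≤ 3 / 8 * ‖t - s‖ := by
  obtain ⟨C, hC, hlim⟩ := GA_lim
  obtain ⟨N1, hN1⟩ := exists_nat_ge (400 * C)
  refine ⟨max 20 N1, le_max_left _ _, fun N hN y hy t s ht hs => ?_⟩
  have hN20 : 20 ≤ N := le_trans (le_max_left _ _) hN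
  have hNR : (0 : ℝ) < N := by exact_mod_cast (by omega : 0 < N)
  have hNC : 400 * C ≤ N := hN1.trans (by exact_mod_cast le_trans (le_max_right _ _) hN)
  have hy20 : ‖y‖ < 1 / 20 := hy.trans (by norm_num)
  have hb : ∀ z : ℂ, z ∈ Metric.ball (1 / 4 : ℂ) (1 / 20) ↔ ‖z - 1 / 4‖ < 1 / 20 := fun z => by
    rw [Metric.mem_ball, dist_eq_norm]
  have hdiff : DifferentiableOn ℂ (fun t => GAt N y t - gamt y t) (Metric.ball (1 / 4) (1 / 20)) := by
    apply DifferentiableOn.sub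
    · have h1 : DifferentiableOn ℂ (fun t => GA N y t) (Metric.ball (1 / 4) (1 / 20)) := fun t ht =>
        (GA_hasDeriv_t hN20 hy20 ((hb t).1 ht)).differentiableAt.differentiableWithinAt
      have h2 := h1.deriv Metric.isOpen_ball
      exact h2.congr fun t ht => ((GA_hasDeriv_t hN20 hy20 ((hb t).1 ht)).deriv).symm
    · have h1 : DifferentiableOn ℂ (fun t => gam y t) (Metric.ball (1 / 4) (1 / 20)) := fun t ht =>
        (gam_hasDeriv_t hy20 ((hb t).1 ht)).differentiableAt.differentiableWithinAt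
      have h2 := h1.deriv Metric.isOpen_ball
      exact h2.congr fun t ht => ((gam_hasDeriv_t hy20 ((hb t).1 ht)).deriv).symm
  have hb' : ∀ z : ℂ, z ∈ Metric.ball (1 / 4 : ℂ) (1 / 200) ↔ ‖z - 1 / 4‖ < 1 / 200 := fun z => by
    rw [Metric.mem_ball, dist_eq_norm]
  have h3 := lip_of_bound (r := 1 / 200) (by norm_num) hdiff (M := C / N)
    (fun z hz => (hlim N hN20 y z hy20 ((hb z).1 hz)).2.2) t ((hb' t).2 ht) s ((hb' s).2 hs)
  have h4 := gamt_lip hy ht hs
  have e1 : C / N / (1 / 20 - 1 / 200) ≤ 1 / 8 := by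
    rw [div_div, div_le_iff₀ (by positivity)]
    linarith
  have e2 : GAt N y t - GAt N y s + 4 * Real.pi * (t - s) =
      (GAt N y t - gamt y t - (GAt N y s - gamt y s)) +
        (gamt y t - gamt y s + 4 * Real.pi * (t - s)) := by ring
  rw [e2]
  calc _ ≤ ‖GAt N y t - gamt y t - (GAt N y s - gamt y s)‖ +
      ‖gamt y t - gamt y s + 4 * Real.pi * (t - s)‖ := norm_add_le _ _
    _ ≤ 1 / 8 * ‖t - s‖ + 1 / 4 * ‖t - s‖ :=
        add_le_add (h3.trans (mul_le_mul_of_nonneg_right e1 (norm_nonneg _))) h4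
    _ = _ := by ring

end Pool.Agent.Helper9.TF
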