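import Pool.Agent.Helper9.TF.StepA
import Pool.Agent.Helper92.TF.JFam4

/-!
# Sizes of the site integrals
-/

namespace Pool.Agent.Helper9.TF

open Complex Finset Filter Topology
open Pool.Agent.Helper9.TB

lemma gam_quad : ∃ C : ℝ, 0 < C ∧ ∀ y t : ℂ, ‖y‖ < 1 / 20 → ‖t - 1 / 4‖ < 1 / 20 →
    ‖gam y t - gam 0 t‖ ≤ C * ‖y‖ ^ 2 := by
  obtain ⟨C, hC, hc⟩ := gamy_cubic
  refine ⟨2 * Real.pi + C, by positivity, fun y t hy ht => ?_⟩
  have hpi := Real.pi_pos
  have h1 : ∀ x ∈ Metric.closedBall (0 : ℂ) ‖y‖, HasDerivWithinAt (fun y => gam y t) (gamy x t)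
      (Metric.closedBall (0 : ℂ) ‖y‖) x := fun x hx =>
    (gam_hasDeriv_y ((by simpa using hx : ‖x‖ ≤ ‖y‖).trans_lt hy) ht).hasDerivWithinAt
  have h2 : ∀ x ∈ Metric.closedBall (0 : ℂ) ‖y‖, ‖gamy x t‖ ≤ (2 * Real.pi + C) * ‖y‖ := by
    intro x hx
    have hx' : ‖x‖ ≤ ‖y‖ := by simpa using hx
    have h3 := (hc x t (hx'.trans_lt hy) ht).1
    have h4 : ‖gamy x t‖ ≤ ‖gamy x t + 2 * Real.pi * x‖ + ‖(2 * Real.pi * x : ℂ)‖ := by
      have := norm_sub_le (gamy x t + 2 * Real.pi * x) (2 * Real.pi * x)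
      simpa using this
    have h5 : ‖(2 * Real.pi * x : ℂ)‖ = 2 * Real.pi * ‖x‖ := by
      rw [norm_mul, norm_mul, Complex.norm_real, Real.norm_of_nonneg hpi.le]
      norm_num
    have h6 : ‖x‖ ^ 2 + ‖t - 1 / 4‖ ≤ 1 := by nlinarith [norm_nonneg x]
    have h7 : C * ‖x‖ * (‖x‖ ^ 2 + ‖t - 1 / 4‖) ≤ C * ‖x‖ * 1 :=
      mul_le_mul_of_nonneg_left h6 (by positivity)
    rw [h5] at h4
    calc ‖gamy x t‖ ≤ C * ‖x‖ * 1 + 2 * Real.pi * ‖x‖ := by linarith
      _ = (2 * Real.pi + C) * ‖x‖ := by ring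
      _ ≤ _ := mul_le_mul_of_nonneg_left hx' (by positivity)
  have h8 := (convex_closedBall (0 : ℂ) ‖y‖).norm_image_sub_le_of_norm_hasDerivWithin_le h1 h2
    (Metric.mem_closedBall_self (norm_nonneg y)) (by simp : y ∈ Metric.closedBall (0 : ℂ) ‖y‖)
  rw [sub_zero] at h8
  calc _ ≤ (2 * Real.pi + C) * ‖y‖ * ‖y‖ := h8
    _ = _ := by ring

/-- the point of the saddle is small -/
lemma z_small {a : ℕ} (ha : 10 ≤ a) {z : ℂ} (hz : ‖z - 1 / a‖ ≤ 3 / (a : ℝ) ^ 2) : ‖z‖ ≤ 2 / a := by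
  have ha' : (10 : ℝ) ≤ a := by exact_mod_cast ha
  have h1 : ‖z‖ ≤ ‖z - 1 / a‖ + ‖(1 / a : ℂ)‖ := by
    have := norm_add_le (z - 1 / a) (1 / a)
    simpa using this
  have h2 : ‖(1 / a : ℂ)‖ = 1 / a := by
    rw [norm_div, norm_one, Complex.norm_natCast]
  have h3 : (3 : ℝ) / (a : ℝ) ^ 2 ≤ 1 / a := by
    rw [div_le_div_iff₀ (by positivity) (by positivity)]
    nlinarith
  rw [h2] at h1
  calc ‖z‖ ≤ 1 / a + 1 / a := by linarith
    _ = 2 / a := by ring

lemma P_quad {ρ θ : ℝ} (hθ : θ = 0 ∨ θ = 1) {P : ℂ → ℂ} (hPd : DifferentiableOn ℂ P (Metric.ball 0 ρ))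
    (hP0 : P 0 = 0) (hP1 : deriv P 0 = 0) (hP2 : LipS 0 ρ θ (1 / 2) (deriv P)) {z : ℂ}
    (hz : ‖z‖ < ρ) : ‖P z‖ ≤ 8 * ‖z‖ ^ 2 := by
  have hpi := Real.pi_pos
  have hpi4 := Real.pi_lt_d2
  have hρ : 0 < ρ := (norm_nonneg z).trans_lt hz
  have h1 : ∀ x ∈ Metric.closedBall (0 : ℂ) ‖z‖, HasDerivWithinAt P (deriv P x)
      (Metric.closedBall (0 : ℂ) ‖z‖) x := fun x hx => by
    have hx' : ‖x‖ ≤ ‖z‖ := by simpa using hx
    exact (hPd.differentiableAt (Metric.isOpen_ball.mem_nhds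
      (by simpa using hx'.trans_lt hz))).hasDerivAt.hasDerivWithinAt
  have h2 : ∀ x ∈ Metric.closedBall (0 : ℂ) ‖z‖, ‖deriv P x‖ ≤ 8 * ‖z‖ := by
    intro x hx
    have hx' : ‖x‖ ≤ ‖z‖ := by simpa using hx
    have h3 := hP2 x (by simpa using hx'.trans_lt hz) 0 (Metric.mem_ball_self hρ)
    rw [hP1, sub_zero, sub_zero] at h3
    have h4 : ‖deriv P x‖ ≤ ‖deriv P x + 2 * Real.pi * θ * x‖ + ‖(2 * Real.pi * θ * x : ℂ)‖ := by
      have := norm_sub_le (deriv P x + 2 * Real.pi * θ * x) (2 * Real.pi * θ * x)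
      simpa using this
    have h5 : ‖(2 * Real.pi * θ * x : ℂ)‖ = 2 * Real.pi * |θ| * ‖x‖ := by
      rw [norm_mul, norm_mul, norm_mul, Complex.norm_real, Complex.norm_real,
        Real.norm_of_nonneg hpi.le, Real.norm_eq_abs]
      norm_num
    have h6 : |θ| ≤ 1 := by rcases hθ with h | h <;> rw [h] <;> norm_num
    rw [h5] at h4
    have h7 : 2 * Real.pi * |θ| * ‖x‖ ≤ 2 * Real.pi * 1 * ‖x‖ := by
      have := mul_le_mul_of_nonneg_left h6 (by positivity : 0 ≤ 2 * Real.pi)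
      exact mul_le_mul_of_nonneg_right this (norm_nonneg _)
    nlinarith [norm_nonneg x]
  have h8 := (convex_closedBall (0 : ℂ) ‖z‖).norm_image_sub_le_of_norm_hasDerivWithin_le h1 h2
    (Metric.mem_closedBall_self (norm_nonneg z)) (by simp : z ∈ Metric.closedBall (0 : ℂ) ‖z‖)
  rw [sub_zero, hP0, sub_zero] at h8
  calc _ ≤ 8 * ‖z‖ * ‖z‖ := h8
    _ = _ := by ring

/-- `J_family` with more estimates -/
theorem J_family2 {ρ : ℝ} (hρ : 0 < ρ) (hρ1 : ρ ≤ 1 / 1000) : ∃ (C1 : ℝ) (R : ℕ), 0 < C1 ∧ 10 ≤ R ∧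
    ∀ a : ℕ, R ≤ a →
    ∀ θ : ℝ, (θ = 0 ∨ θ = 1) → ∃ C : ℝ, 0 < C ∧ ∃ N0 : ℕ, ∀ N : ℕ, N0 ≤ N → ∀ P : ℂ → ℂ,
      DifferentiableOn ℂ P (Metric.ball 0 ρ) → P 0 = 0 → deriv P 0 = 0 →
      LipS 0 ρ θ (1 / 2) (deriv P) →
      ∃ v w : ℂ → ℂ, v (1 / 4) = 0 ∧
        IL N a ((1 + θ) / a ^ 2) ρ (fun y => GA N y (1 / 4) + P y) (fun _ => 1) ≠ 0 ∧
        ∀ t ∈ Metric.ball (1 / 4 : ℂ) (1 / 200), HasDerivAt v (w t) t ∧
          IL N a ((1 + θ) / a ^ 2) ρ (fun y => GA N y t + P y) (fun _ => 1) =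
            IL N a ((1 + θ) / a ^ 2) ρ (fun y => GA N y (1 / 4) + P y) (fun _ => 1) *
              Complex.exp (N * v t) ∧
          ‖w t - GAt N 0 t‖ ≤ C1 / a ^ 2 + C / Real.sqrt N ∧
          |Real.log ‖IL N a ((1 + θ) / a ^ 2) ρ (fun y => GA N y t + P y) (fun _ => 1)‖ -
            N * (gam 0 t).re| ≤ N * (C1 / a) + C * (1 + Real.log N) ∧
          ∃ z : ℂ, ‖z - 1 / a‖ ≤ 3 / a ^ 2 ∧ ‖z‖ < ρ ∧ ‖z‖ ≤ 2 / a ∧
            ‖2 * Real.pi * I * a * z - 2 * Real.pi * I + gamy z t + deriv P z‖ ≤ C / Real.sqrt N ∧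
            ‖w t - gamt z t‖ ≤ C / Real.sqrt N ∧
            |Real.log ‖IL N a ((1 + θ) / a ^ 2) ρ (fun y => GA N y t + P y) (fun _ => 1)‖ -
              N * (Real.pi * I * a * z ^ 2 - 2 * Real.pi * I * z + gam z t + P z).re| ≤
                C * (1 + Real.log N) := by
  obtain ⟨R, hR⟩ := J_family hρ hρ1
  obtain ⟨C2, hC2, hlim⟩ := GA_lim
  obtain ⟨C3, hC3, hcub⟩ := gamy_cubic
  obtain ⟨C4, hC4, hquad⟩ := gam_quad
  obtain ⟨R1, hR1⟩ := exists_nat_gt (2 / ρ)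
  have hpi := Real.pi_pos
  have hpi4 := Real.pi_lt_d2
  refine ⟨4 * C3 + (40 + 4 * C4 + 32), max (max R 100) R1, by positivity,
    le_trans (by norm_num) (le_trans (le_max_right R 100) (le_max_left _ _)), fun a ha θ hθ => ?_⟩
  have haR : R ≤ a := le_trans (le_trans (le_max_left _ _) (le_max_left _ _)) ha
  have ha100 : 100 ≤ a := le_trans (le_trans (le_max_right _ _) (le_max_left _ _)) ha
  have haR1 : R1 ≤ a := le_trans (le_max_right _ _) ha
  have ha' : (100 : ℝ) ≤ a := by exact_mod_cast ha100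
  have haρ : 2 / (a : ℝ) < ρ := by
    have h1 : 2 / ρ < a := hR1.trans_le (by exact_mod_cast haR1)
    rw [div_lt_iff₀ hρ] at h1
    rw [div_lt_iff₀ (by positivity)]
    linarith
  obtain ⟨C, hC, N0, hJ⟩ := hR a haR θ hθ
  refine ⟨C + 2 * C2 + C2, by positivity, max N0 20, fun N hN P hPd hP0 hP1 hP2 => ?_⟩
  have hN20 : 20 ≤ N := le_trans (le_max_right _ _) hN
  have hNR : (20 : ℝ) ≤ N := by exact_mod_cast hN20
  have hNR0 : (0 : ℝ) < N := by linarith
  have hsq : Real.sqrt N ≤ N := by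
    rw [Real.sqrt_le_left (by linarith)]
    nlinarith
  have hsq0 : 0 < Real.sqrt N := Real.sqrt_pos.2 hNR0
  have hinv : ∀ c : ℝ, 0 ≤ c → c / N ≤ c / Real.sqrt N := fun c hc =>
    div_le_div_of_nonneg_left hc hsq0 hsq
  have hlogN : 0 ≤ Real.log N := Real.log_nonneg (by linarith)
  obtain ⟨v, w, hv0, hJ0, hall⟩ := hJ N (le_trans (le_max_left _ _) hN) P hPd hP0 hP1 hP2
  refine ⟨v, w, hv0, hJ0, fun t ht => ?_⟩
  obtain ⟨h1, h2, z, hz1, hz2, hz3, hz4⟩ := hall t ht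
  have ht20 : ‖t - 1 / 4‖ < 1 / 20 := by
    rw [Metric.mem_ball, dist_eq_norm] at ht
    exact ht.trans (by norm_num)
  have hz0 : ‖z‖ ≤ 2 / a := z_small (by omega) hz1
  have hzρ : ‖z‖ < ρ := hz0.trans_lt haρ
  have hz20 : ‖z‖ < 1 / 20 := hzρ.trans_le (hρ1.trans (by norm_num))
  obtain ⟨l1, l2, l3⟩ := hlim N hN20 z t hz20 ht20
  obtain ⟨m1, m2, m3⟩ := hlim N hN20 0 t (by norm_num) ht20
  have c2 := (hcub z t hz20 ht20).2
  have q2 := hquad z t hz20 ht20
  have hzsq : ‖z‖ ^ 2 ≤ 4 / a ^ 2 := by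
    calc ‖z‖ ^ 2 ≤ (2 / a) ^ 2 := pow_le_pow_left₀ (norm_nonneg _) hz0 2
      _ = 4 / a ^ 2 := by rw [div_pow]; norm_num
  -- value of Psi
  have hPsi : ‖(Psi a (fun y => GA N y t + P y) z) -
      (Real.pi * I * a * z ^ 2 - 2 * Real.pi * I * z + gam z t + P z)‖ ≤ C2 * (1 + Real.log N) / N := by
    have e1 : (Psi a (fun y => GA N y t + P y) z) -
      (Real.pi * I * a * z ^ 2 - 2 * Real.pi * I * z + gam z t + P z) = GA N z t - gam z t := by
      unfold Psi; ring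
    rw [e1]; exact l1
  have hlast : |Real.log ‖IL N a ((1 + θ) / a ^ 2) ρ (fun y => GA N y t + P y) (fun _ => 1)‖ -
              N * (Real.pi * I * a * z ^ 2 - 2 * Real.pi * I * z + gam z t + P z).re| ≤
                (C + C2) * (1 + Real.log N) := by
    have e1 : |N * (Psi a (fun y => GA N y t + P y) z).re -
        N * (Real.pi * I * a * z ^ 2 - 2 * Real.pi * I * z + gam z t + P z).re| ≤
          C2 * (1 + Real.log N) := by
      rw [← mul_sub, ← Complex.sub_re, abs_mul, abs_of_pos hNR0]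
      calc (N : ℝ) * |((Psi a (fun y => GA N y t + P y) z) -
        (Real.pi * I * a * z ^ 2 - 2 * Real.pi * I * z + gam z t + P z)).re| ≤
          N * (C2 * (1 + Real.log N) / N) :=
            mul_le_mul_of_nonneg_left ((Complex.abs_re_le_norm _).trans hPsi) hNR0.le
        _ = C2 * (1 + Real.log N) := by field_simp
    have e2 := abs_add_le (Real.log ‖IL N a ((1 + θ) / a ^ 2) ρ (fun y => GA N y t + P y) (fun _ => 1)‖ -
              N * (Psi a (fun y => GA N y t + P y) z).re)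
              (N * (Psi a (fun y => GA N y t + P y) z).re -
        N * (Real.pi * I * a * z ^ 2 - 2 * Real.pi * I * z + gam z t + P z).re)
    rw [sub_add_sub_cancel] at e2
    calc _ ≤ _ := e2
      _ ≤ C * (1 + Real.log N) + C2 * (1 + Real.log N) := add_le_add hz4 e1
      _ = _ := by ring
  refine ⟨h1, h2, ?_, ?_, z, hz1, hzρ, hz0, ?_, ?_, ?_⟩
  · -- w - GAt N 0
    have e1 : w t - GAt N 0 t = (w t - GAt N z t) + (GAt N z t - gamt z t) +
        (gamt z t - gamt 0 t) - (GAt N 0 t - gamt 0 t) := by ring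
    rw [e1]
    have e2 : C3 * ‖z‖ ^ 2 ≤ 4 * C3 / a ^ 2 := by
      calc C3 * ‖z‖ ^ 2 ≤ C3 * (4 / a ^ 2) := mul_le_mul_of_nonneg_left hzsq hC3.le
        _ = _ := by ring
    have e3 := hinv C2 hC2.le
    have e4 : 4 * C3 / (a : ℝ) ^ 2 ≤ (4 * C3 + (40 + 4 * C4 + 32)) / a ^ 2 := by
      apply div_le_div_of_nonneg_right _ (by positivity)
      linarith
    calc _ ≤ ‖(w t - GAt N z t) + (GAt N z t - gamt z t) + (gamt z t - gamt 0 t)‖ +
          ‖GAt N 0 t - gamt 0 t‖ := norm_sub_le _ _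
      _ ≤ (‖w t - GAt N z t‖ + ‖GAt N z t - gamt z t‖ + ‖gamt z t - gamt 0 t‖) +
          ‖GAt N 0 t - gamt 0 t‖ := by gcongr; exact norm_add₃_le
      _ ≤ (C / Real.sqrt N + C2 / N + C3 * ‖z‖ ^ 2) + C2 / N := by gcongr
      _ ≤ (4 * C3 + (40 + 4 * C4 + 32)) / a ^ 2 + (C + 2 * C2 + C2) / Real.sqrt N := by
          have e5 : (C + 2 * C2 + C2) / Real.sqrt N = C / Real.sqrt N + 3 * (C2 / Real.sqrt N) := by
            ring
          have : 0 ≤ C2 / Real.sqrt N := by positivity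
          linarith
  · -- size
    have e1 : ‖(Real.pi * I * a * z ^ 2 - 2 * Real.pi * I * z + gam z t + P z) - gam 0 t‖ ≤
        (4 * C3 + (40 + 4 * C4 + 32)) / a := by
      have p1 : ‖(Real.pi * I * a * z ^ 2 : ℂ)‖ ≤ 4 * Real.pi / a := by
        rw [norm_mul, norm_mul, norm_mul, Complex.norm_real, Complex.norm_I, norm_pow,
          Complex.norm_natCast, Real.norm_of_nonneg hpi.le, mul_one]
        calc Real.pi * a * ‖z‖ ^ 2 ≤ Real.pi * a * (4 / a ^ 2) :=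
              mul_le_mul_of_nonneg_left hzsq (by positivity)
          _ = _ := by field_simp
      have p2 : ‖(2 * Real.pi * I * z : ℂ)‖ ≤ 4 * Real.pi / a := by
        rw [norm_mul, norm_mul, norm_mul, Complex.norm_real, Complex.norm_I,
          Real.norm_of_nonneg hpi.le, mul_one]
        calc ‖(2 : ℂ)‖ * Real.pi * ‖z‖ ≤ 2 * Real.pi * (2 / a) := by
              rw [show ‖(2 : ℂ)‖ = 2 by norm_num]
              exact mul_le_mul_of_nonneg_left hz0 (by positivity)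
          _ = _ := by ring
      have p3 := P_quad hθ hPd hP0 hP1 hP2 hzρ
      have hza : ‖z‖ ^ 2 ≤ 4 / a := by
        refine hzsq.trans ?_
        apply div_le_div_of_nonneg_left (by norm_num) (by positivity)
        nlinarith
      have e5 : (Real.pi * I * a * z ^ 2 - 2 * Real.pi * I * z + gam z t + P z) - gam 0 t =
          (Real.pi * I * a * z ^ 2 - 2 * Real.pi * I * z) + (gam z t - gam 0 t) + P z := by ring
      rw [e5]
      calc _ ≤ ‖(Real.pi * I * a * z ^ 2 - 2 * Real.pi * I * z : ℂ)‖ + ‖gam z t - gam 0 t‖ + ‖P z‖ :=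
            norm_add₃_le
        _ ≤ (4 * Real.pi / a + 4 * Real.pi / a) + C4 * (4 / a) + 8 * (4 / a) := by
            gcongr
            · exact (norm_sub_le _ _).trans (add_le_add p1 p2)
            · exact q2.trans (mul_le_mul_of_nonneg_left hza hC4.le)
            · exact p3.trans (mul_le_mul_of_nonneg_left hza (by norm_num))
        _ = (8 * Real.pi + 4 * C4 + 32) / a := by ring
        _ ≤ _ := by
            apply div_le_div_of_nonneg_right _ (by positivity)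
            nlinarith
    have e2 : |N * (Real.pi * I * a * z ^ 2 - 2 * Real.pi * I * z + gam z t + P z).re -
        N * (gam 0 t).re| ≤ N * ((4 * C3 + (40 + 4 * C4 + 32)) / a) := by
      rw [← mul_sub, ← Complex.sub_re, abs_mul, abs_of_pos hNR0]
      exact mul_le_mul_of_nonneg_left ((Complex.abs_re_le_norm _).trans e1) hNR0.le
    have e3 := abs_add_le (Real.log ‖IL N a ((1 + θ) / a ^ 2) ρ (fun y => GA N y t + P y) (fun _ => 1)‖ -
              N * (Real.pi * I * a * z ^ 2 - 2 * Real.pi * I * z + gam z t + P z).re)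
              (N * (Real.pi * I * a * z ^ 2 - 2 * Real.pi * I * z + gam z t + P z).re -
        N * (gam 0 t).re)
    rw [sub_add_sub_cancel] at e3
    have e4 : 0 ≤ 2 * C2 * (1 + Real.log N) := by positivity
    linarith
  · -- critical equation
    have e1 : 2 * Real.pi * I * a * z - 2 * Real.pi * I + gamy z t + deriv P z =
        -(GAy N z t - gamy z t) := by linear_combination hz2
    rw [e1, norm_neg]
    refine l2.trans ((hinv C2 hC2.le).trans ?_)
    apply div_le_div_of_nonneg_right _ hsq0.le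
    linarith
  · have e1 : w t - gamt z t = (w t - GAt N z t) + (GAt N z t - gamt z t) := by ring
    rw [e1]
    refine (norm_add_le _ _).trans ((add_le_add hz3 (l3.trans (hinv C2 hC2.le))).trans ?_)
    rw [← add_div]
    apply div_le_div_of_nonneg_right _ hsq0.le
    linarith
  · refine hlast.trans ?_
    apply mul_le_mul_of_nonneg_right _ (by positivity)
    linarith

end Pool.Agent.Helper9.TF
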