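import Pool.Agent.Helper9.TF.StepB

/-!
# The outer contributions of the site integrals
-/

namespace Pool.Agent.Helper9.TF

open Complex Finset Filter Topology
open Pool.Agent.Helper9.TB

lemma exp_mul3 (N x y z : ℝ) : Real.exp (N * x) * Real.exp (N * y) * Real.exp (N * z) =
    Real.exp (N * (x + y + z)) := by
  rw [← Real.exp_add, ← Real.exp_add]; congr 1; ring

lemma gm_differentiable' (N m : ℕ) : Differentiable ℂ (gm N m) := by
  unfold gm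
  fun_prop

lemma tau_mem {N m : ℕ} (hm : m < N) : (0 : ℝ) ≤ (m : ℝ) / N ∧ (m : ℝ) / N ≤ 1 := by
  have hN : (0 : ℝ) < N := by exact_mod_cast (by omega : 0 < N)
  have hm' : (m : ℝ) < N := by exact_mod_cast hm
  exact ⟨by positivity, by rw [div_le_one hN]; exact hm'.le⟩

lemma mem_Wd {N : ℕ} {r : ℝ} {m : ℕ} : m ∈ Wd N r ↔ m < N ∧ |(m : ℝ) / N - 1 / 4| ≤ r / 2 := by
  unfold Wd
  rw [Finset.mem_filter, Finset.mem_range]

/-- the part of the site integral near the origin, for `m` in the window -/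
lemma site_local {ρ h : ℝ} (hρ : 0 < ρ) (hρ1 : ρ ≤ 1 / 1000) (hh : 0 < h) (hh1 : h ≤ ρ / 4) {N a m : ℕ}
    (hN : 2 ≤ N) (hm : m ∈ Wd N (1 / 400)) {f P : ℂ → ℂ}
    (hP : ∀ y ∈ Metric.ball (0 : ℂ) ρ, f y = f 0 * Complex.exp (N * P y)) :
    ∫ ξ in (-(ρ / 2))..(ρ / 2), om N a (pt ξ h) * (gm N m (pt ξ h) * f (pt ξ h)) =
      f 0 * IL N a h ρ (fun y => GA N y (m / N) + P y) (fun _ => 1) := by
  rw [mem_Wd] at hm
  unfold IL
  rw [← intervalIntegral.integral_const_mul]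
  apply intervalIntegral.integral_congr
  intro ξ hξ
  rw [Set.uIcc_of_le (by linarith)] at hξ
  have hξ' : |ξ| ≤ ρ / 2 := abs_le.2 ⟨hξ.1, hξ.2⟩
  have hre : (pt ξ h).re = ξ := by unfold pt; simp
  have him : (pt ξ h).im = -h := by unfold pt; simp
  have hball : pt ξ h ∈ Metric.ball (0 : ℂ) ρ := by
    rw [Metric.mem_ball, dist_zero_right]
    calc ‖pt ξ h‖ ≤ |(pt ξ h).re| + |(pt ξ h).im| := Complex.norm_le_abs_re_add_abs_im _
      _ ≤ ρ / 2 + ρ / 4 := by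
          rw [hre, him, abs_neg, abs_of_pos hh]
          linarith
      _ < ρ := by linarith
  have hm2 := abs_le.1 hm.2
  have h1 : gm N m (pt ξ h) = Complex.exp (N * GA N (pt ξ h) (m / N)) := by
    apply GA_exact N hN m hm.1
    rw [hre]
    linarith [hm2.2]
  show om N a (pt ξ h) * (gm N m (pt ξ h) * f (pt ξ h)) = f 0 * (om N a (pt ξ h) *
    Complex.exp (N * (GA N (pt ξ h) (m / N) + P (pt ξ h))) * 1)
  rw [h1, hP _ hball, mul_add, Complex.exp_add]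
  ring

theorem site_in {ρ h0 e4 : ℝ} (hρ : 0 < ρ) (hρ1 : ρ ≤ 1 / 1000) (hh0 : 0 < h0)
    (hh1 : 2 * Real.pi * h0 ≤ ρ ^ 2 / 1024) (he4 : e4 ≤ ρ ^ 2 / 32) :
    ∃ R : ℕ, ∀ a : ℕ, R ≤ a → ∀ θ : ℝ, (θ = 0 ∨ θ = 1) → ∃ (C : ℝ) (k : ℕ), 0 < C ∧ ∃ N0 : ℕ,
      ∀ N : ℕ, N0 ≤ N → ∀ f P : ℂ → ℂ, Good ρ h0 e4 N θ f →
      (∀ y ∈ Metric.ball (0 : ℂ) ρ, f y = f 0 * Complex.exp (N * P y)) → ∀ m ∈ Wd N (1 / 400),
      ‖site N a ((1 + θ) / a ^ 2) f m -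
        f 0 * IL N a ((1 + θ) / a ^ 2) ρ (fun y => GA N y (m / N) + P y) (fun _ => 1)‖ ≤
        C * N ^ k * ‖f 0‖ * Real.exp (N * (U0 (m / N) - 3 * ρ ^ 2 / 16)) := by
  have hpi := Real.pi_pos
  have hpi4 := Real.pi_lt_d2
  obtain ⟨Cg, kg, hCg, hg⟩ := gm_le hh0
  obtain ⟨R1, hR1⟩ := exists_nat_gt (2 * Real.pi * 1024 / ρ ^ 2 + 2 / h0 + 8 / ρ)
  refine ⟨max R1 10, fun a ha θ hθ => ?_⟩
  have ha10 : 10 ≤ a := le_trans (le_max_right _ _) ha
  have haR : 2 * Real.pi * 1024 / ρ ^ 2 + 2 / h0 + 8 / ρ < a :=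
    hR1.trans_le (by exact_mod_cast le_trans (le_max_left _ _) ha)
  have ha' : (10 : ℝ) ≤ a := by exact_mod_cast ha10
  have ha0 : (0 : ℝ) < a := by linarith
  have t1 : 0 < 2 * Real.pi * 1024 / ρ ^ 2 := by positivity
  have t2 : 0 < 2 / h0 := by positivity
  have t3 : 0 < 8 / ρ := by positivity
  set d : ℝ := 1 + θ with hd
  have hd' : d = 1 ∨ d = 2 := by
    rcases hθ with h | h <;> rw [hd, h]
    · left; norm_num
    · right; norm_num
  have hd0 : 0 < d := by rcases hd' with h | h <;> rw [h] <;> norm_num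
  have hd2 : d ≤ 2 := by rcases hd' with h | h <;> rw [h] <;> norm_num
  have hda : Real.pi * d / a ≤ ρ ^ 2 / 1024 := by
    have h1 : 2 * Real.pi * 1024 / ρ ^ 2 < a := by linarith
    rw [div_lt_iff₀ (by positivity)] at h1
    rw [div_le_div_iff₀ ha0 (by norm_num)]
    nlinarith
  have hha : d / a ^ 2 ≤ 2 / a := by
    rw [div_le_div_iff₀ (by positivity) ha0]
    nlinarith
  have hh2 : d / a ^ 2 ≤ h0 := by
    have h1 : 2 / h0 < a := by linarith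
    rw [div_lt_iff₀ hh0] at h1
    refine hha.trans ?_
    rw [div_le_iff₀ ha0]
    linarith
  have hh3 : d / a ^ 2 ≤ ρ / 4 := by
    have h1 : 8 / ρ < a := by linarith
    rw [div_lt_iff₀ hρ] at h1
    refine hha.trans ?_
    rw [div_le_iff₀ ha0]
    linarith
  have hhpos : 0 < d / a ^ 2 := by positivity
  obtain ⟨Cp, hCp, N1, hPI⟩ := PI_out hρ (hρ1.trans (by norm_num)) hd' ha10
  refine ⟨Cp * Cg, kg, by positivity, max N1 2, fun N hN f P hf hP m hm => ?_⟩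
  have hN1 : N1 ≤ N := le_trans (le_max_left _ _) hN
  have hN2 : 2 ≤ N := le_trans (le_max_right _ _) hN
  have hNR : (0 : ℝ) < N := by exact_mod_cast (by omega : 0 < N)
  have hW := mem_Wd.1 hm
  have hτ := tau_mem hW.1
  set τ : ℝ := (m : ℝ) / N with hτd
  have hcont : Continuous (fun y => gm N m y * f y) :=
    (gm_differentiable' N m).continuous.mul hf.ent.continuous
  have hM : ∀ y : ℂ, |y.re| ≤ 1 / 2 → ρ / 2 ≤ |y.re| → -(d / a ^ 2) ≤ y.im → y.im ≤ 0 →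
      ‖gm N m y * f y‖ ≤ Cg * N ^ kg * Real.exp (N * (U0 τ - ρ ^ 2 / 4 + 2 * Real.pi * h0)) *
        (‖f 0‖ * Real.exp (N * e4)) := by
    intro y h1 h2 h3 h4
    have him : |y.im| ≤ h0 := by
      rw [abs_of_nonpos h4]; linarith
    rw [norm_mul]
    apply mul_le_mul _ (hf.glob y h1 him) (norm_nonneg _) (by positivity)
    refine (hg N m hN2 hW.1 y h1 him).trans ?_
    apply mul_le_mul_of_nonneg_left _ (by positivity)
    apply Real.exp_le_exp.2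
    apply mul_le_mul_of_nonneg_left _ hNR.le
    have w1 := win_close (ξ := y.re) hh0 hτ.1 hτ.2
    have w2 := win_quad (ξ := y.re) h1 (hW.2.trans (by norm_num) : |τ - 1 / 4| ≤ 1 / 50)
    have w3 := U0_eq hτ.1 hτ.2
    have w4 : ρ ^ 2 / 4 ≤ y.re ^ 2 := by
      rw [← sq_abs y.re]
      nlinarith [abs_nonneg y.re]
    linarith
  have h1 := hPI N hN1 (fun y => gm N m y * f y) hcont _ hM
  have h2 : PI (fun y => om N a y * (gm N m y * f y)) (d / a ^ 2) = site N a (d / a ^ 2) f m := by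
    unfold site
    congr 1
    funext y
    ring
  rw [h2, site_local hρ hρ1 hhpos hh3 hN2 hm hP] at h1
  refine h1.trans ?_
  have e1 : Cp * Real.exp (N * (Real.pi * d / a)) * (Cg * N ^ kg *
      Real.exp (N * (U0 τ - ρ ^ 2 / 4 + 2 * Real.pi * h0)) * (‖f 0‖ * Real.exp (N * e4))) =
      Cp * Cg * N ^ kg * ‖f 0‖ * Real.exp (N * (Real.pi * d / a + (U0 τ - ρ ^ 2 / 4 +
        2 * Real.pi * h0) + e4)) := by
    rw [← exp_mul3]; ring
  rw [e1]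
  apply mul_le_mul_of_nonneg_left _ (by positivity)
  apply Real.exp_le_exp.2
  apply mul_le_mul_of_nonneg_left _ hNR.le
  have hρ2 : 0 ≤ ρ ^ 2 := sq_nonneg ρ
  linarith

theorem site_out {ρ h0 e4 δ : ℝ} (hρ : 0 < ρ) (hh0 : 0 < h0)
    (hh1 : 2 * Real.pi * h0 ≤ ρ ^ 2 / 1024) (he4 : e4 ≤ ρ ^ 2 / 32)
    (hδ : ∀ ξ τ : ℝ, |ξ| ≤ 1 / 2 → 0 ≤ τ → τ ≤ 1 → 1 / 800 ≤ |τ - 1 / 4| →
      win 0 ξ τ - 2 * ll τ ≤ U0 (1 / 4) - δ) :
    ∃ R : ℕ, ∀ a : ℕ, R ≤ a → ∀ θ : ℝ, (θ = 0 ∨ θ = 1) → ∃ (C : ℝ) (k : ℕ), 0 < C ∧ ∃ N0 : ℕ,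
      ∀ N : ℕ, N0 ≤ N → ∀ f : ℂ → ℂ, Good ρ h0 e4 N θ f →
      ∀ m : ℕ, m < N → m ∉ Wd N (1 / 400) →
      ‖site N a ((1 + θ) / a ^ 2) f m‖ ≤
        C * N ^ k * ‖f 0‖ * Real.exp (N * (U0 (1 / 4) - δ + ρ ^ 2 / 16)) := by
  have hpi := Real.pi_pos
  have hpi4 := Real.pi_lt_d2
  obtain ⟨Cg, kg, hCg, hg⟩ := gm_le hh0
  obtain ⟨R1, hR1⟩ := exists_nat_gt (2 * Real.pi * 1024 / ρ ^ 2 + 2 / h0)
  refine ⟨max R1 10, fun a ha θ hθ => ?_⟩
  have ha10 : 10 ≤ a := le_trans (le_max_right _ _) ha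
  have haR : 2 * Real.pi * 1024 / ρ ^ 2 + 2 / h0 < a :=
    hR1.trans_le (by exact_mod_cast le_trans (le_max_left _ _) ha)
  have ha' : (10 : ℝ) ≤ a := by exact_mod_cast ha10
  have ha0 : (0 : ℝ) < a := by linarith
  have t1 : 0 < 2 * Real.pi * 1024 / ρ ^ 2 := by positivity
  have t2 : 0 < 2 / h0 := by positivity
  set d : ℝ := 1 + θ with hd
  have hd' : d = 1 ∨ d = 2 := by
    rcases hθ with h | h <;> rw [hd, h]
    · left; norm_num
    · right; norm_num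
  have hd0 : 0 < d := by rcases hd' with h | h <;> rw [h] <;> norm_num
  have hd2 : d ≤ 2 := by rcases hd' with h | h <;> rw [h] <;> norm_num
  have hda : Real.pi * d / a ≤ ρ ^ 2 / 1024 := by
    have h1 : 2 * Real.pi * 1024 / ρ ^ 2 < a := by linarith
    rw [div_lt_iff₀ (by positivity)] at h1
    rw [div_le_div_iff₀ ha0 (by norm_num)]
    nlinarith
  have hha : d / a ^ 2 ≤ 2 / a := by
    rw [div_le_div_iff₀ (by positivity) ha0]
    nlinarith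
  have hh2 : d / a ^ 2 ≤ h0 := by
    have h1 : 2 / h0 < a := by linarith
    rw [div_lt_iff₀ hh0] at h1
    refine hha.trans ?_
    rw [div_le_iff₀ ha0]
    linarith
  obtain ⟨Cp, hCp, N1, hPI⟩ := PI_le hd' ha10
  refine ⟨Cp * Cg, kg, by positivity, max N1 2, fun N hN f hf m hm hmW => ?_⟩
  have hN1 : N1 ≤ N := le_trans (le_max_left _ _) hN
  have hN2 : 2 ≤ N := le_trans (le_max_right _ _) hN
  have hNR : (0 : ℝ) < N := by exact_mod_cast (by omega : 0 < N)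
  have hτ := tau_mem hm
  have hW : 1 / 800 ≤ |(m : ℝ) / N - 1 / 4| := by
    rw [mem_Wd] at hmW
    push Not at hmW
    have := hmW hm
    linarith
  set τ : ℝ := (m : ℝ) / N with hτd
  have hcont : Continuous (fun y => gm N m y * f y) :=
    (gm_differentiable' N m).continuous.mul hf.ent.continuous
  have hM : ∀ y : ℂ, |y.re| ≤ 1 / 2 → -(d / a ^ 2) ≤ y.im → y.im ≤ 0 →
      ‖gm N m y * f y‖ ≤ Cg * N ^ kg * Real.exp (N * (U0 (1 / 4) - δ + 2 * Real.pi * h0)) *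
        (‖f 0‖ * Real.exp (N * e4)) := by
    intro y h1 h3 h4
    have him : |y.im| ≤ h0 := by
      rw [abs_of_nonpos h4]; linarith
    rw [norm_mul]
    apply mul_le_mul _ (hf.glob y h1 him) (norm_nonneg _) (by positivity)
    refine (hg N m hN2 hm y h1 him).trans ?_
    apply mul_le_mul_of_nonneg_left _ (by positivity)
    apply Real.exp_le_exp.2
    apply mul_le_mul_of_nonneg_left _ hNR.le
    have w1 := win_close (ξ := y.re) hh0 hτ.1 hτ.2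
    have w2 := hδ y.re τ h1 hτ.1 hτ.2 hW
    linarith
  have h1 := hPI N hN1 (fun y => gm N m y * f y) hcont _ hM
  have h2 : PI (fun y => om N a y * (gm N m y * f y)) (d / a ^ 2) = site N a (d / a ^ 2) f m := by
    unfold site
    congr 1
    funext y
    ring
  rw [h2] at h1
  refine h1.trans ?_
  have e1 : Cp * Real.exp (N * (Real.pi * d / a)) * (Cg * N ^ kg *
      Real.exp (N * (U0 (1 / 4) - δ + 2 * Real.pi * h0)) * (‖f 0‖ * Real.exp (N * e4))) =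
      Cp * Cg * N ^ kg * ‖f 0‖ * Real.exp (N * (Real.pi * d / a + (U0 (1 / 4) - δ +
        2 * Real.pi * h0) + e4)) := by
    rw [← exp_mul3]; ring
  rw [e1]
  apply mul_le_mul_of_nonneg_left _ (by positivity)
  apply Real.exp_le_exp.2
  apply mul_le_mul_of_nonneg_left _ hNR.le
  have hρ2 : 0 ≤ ρ ^ 2 := sq_nonneg ρ
  linarith

/-- the last site integral -/
theorem last_in {ρ h0 e4 : ℝ} (hρ : 0 < ρ) (hρ1 : ρ ≤ 1 / 1000) (hh0 : 0 < h0) :
    ∃ R : ℕ, ∀ a : ℕ, R ≤ a → ∃ C : ℝ, 0 < C ∧ ∃ N0 : ℕ,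
      ∀ N : ℕ, N0 ≤ N → ∀ f P : ℂ → ℂ, Good ρ h0 e4 N 1 f → Decay ρ h0 N f →
      (∀ y ∈ Metric.ball (0 : ℂ) ρ, f y = f 0 * Complex.exp (N * P y)) →
      ‖site N a (1 / a ^ 2) f 0 - f 0 * IL N a (1 / a ^ 2) ρ P (fun _ => 1)‖ ≤
        C * ‖f 0‖ * Real.exp (-(N * (ρ ^ 2 / 16))) := by
  have hpi := Real.pi_pos
  have hpi4 := Real.pi_lt_d2
  obtain ⟨R1, hR1⟩ := exists_nat_gt (2 * Real.pi * 1024 / ρ ^ 2 + 2 / h0 + 8 / ρ)
  refine ⟨max R1 10, fun a ha => ?_⟩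
  have ha10 : 10 ≤ a := le_trans (le_max_right _ _) ha
  have haR : 2 * Real.pi * 1024 / ρ ^ 2 + 2 / h0 + 8 / ρ < a :=
    hR1.trans_le (by exact_mod_cast le_trans (le_max_left _ _) ha)
  have ha' : (10 : ℝ) ≤ a := by exact_mod_cast ha10
  have ha0 : (0 : ℝ) < a := by linarith
  have t1 : 0 < 2 * Real.pi * 1024 / ρ ^ 2 := by positivity
  have t2 : 0 < 2 / h0 := by positivity
  have t3 : 0 < 8 / ρ := by positivity
  have hda : Real.pi * 1 / a ≤ ρ ^ 2 / 1024 := by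
    have h1 : 2 * Real.pi * 1024 / ρ ^ 2 < a := by linarith
    rw [div_lt_iff₀ (by positivity)] at h1
    rw [div_le_div_iff₀ ha0 (by norm_num)]
    nlinarith
  have hha : 1 / (a : ℝ) ^ 2 ≤ 2 / a := by
    rw [div_le_div_iff₀ (by positivity) ha0]
    nlinarith
  have hh2 : 1 / (a : ℝ) ^ 2 ≤ h0 := by
    have h1 : 2 / h0 < a := by linarith
    rw [div_lt_iff₀ hh0] at h1
    refine hha.trans ?_
    rw [div_le_iff₀ ha0]
    linarith
  have hh3 : 1 / (a : ℝ) ^ 2 ≤ ρ / 4 := by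
    have h1 : 8 / ρ < a := by linarith
    rw [div_lt_iff₀ hρ] at h1
    refine hha.trans ?_
    rw [div_le_iff₀ ha0]
    linarith
  have hhpos : 0 < 1 / (a : ℝ) ^ 2 := by positivity
  obtain ⟨Cp, hCp, N1, hPI⟩ := PI_out hρ (hρ1.trans (by norm_num)) (Or.inl rfl : (1 : ℝ) = 1 ∨ _) ha10
  refine ⟨Cp, by positivity, max N1 2, fun N hN f P hf hD hP => ?_⟩
  have hN1 : N1 ≤ N := le_trans (le_max_left _ _) hN
  have hN2 : 2 ≤ N := le_trans (le_max_right _ _) hN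
  have hNR : (0 : ℝ) < N := by exact_mod_cast (by omega : 0 < N)
  have hM : ∀ y : ℂ, |y.re| ≤ 1 / 2 → ρ / 2 ≤ |y.re| → -(1 / (a : ℝ) ^ 2) ≤ y.im → y.im ≤ 0 →
      ‖f y‖ ≤ ‖f 0‖ * Real.exp (-(N * (ρ ^ 2 / 8))) := by
    intro y h1 h2 h3 h4
    have him : |y.im| ≤ h0 := by
      rw [abs_of_nonpos h4]; linarith
    exact hD y h1 him h2
  have h1 := hPI N hN1 f hf.ent.continuous _ hM
  have h2 : PI (fun y => om N a y * f y) (1 / (a : ℝ) ^ 2) = site N a (1 / a ^ 2) f 0 := by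
    unfold site
    congr 1
    funext y
    have : gm N 0 y = 1 := by unfold gm; simp [sf_zero]
    rw [this, mul_one]
  have h3 : ∫ ξ in (-(ρ / 2))..(ρ / 2), om N a (pt ξ (1 / (a : ℝ) ^ 2)) * f (pt ξ (1 / (a : ℝ) ^ 2)) =
      f 0 * IL N a (1 / a ^ 2) ρ P (fun _ => 1) := by
    unfold IL
    rw [← intervalIntegral.integral_const_mul]
    apply intervalIntegral.integral_congr
    intro ξ hξ
    rw [Set.uIcc_of_le (by linarith)] at hξ
    have hξ' : |ξ| ≤ ρ / 2 := abs_le.2 ⟨hξ.1, hξ.2⟩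
    have hre : (pt ξ (1 / (a : ℝ) ^ 2)).re = ξ := pt_re _ _
    have him : (pt ξ (1 / (a : ℝ) ^ 2)).im = -(1 / (a : ℝ) ^ 2) := pt_im _ _
    have hball : pt ξ (1 / (a : ℝ) ^ 2) ∈ Metric.ball (0 : ℂ) ρ := by
      rw [Metric.mem_ball, dist_zero_right]
      calc ‖pt ξ (1 / (a : ℝ) ^ 2)‖ ≤ |(pt ξ (1 / (a : ℝ) ^ 2)).re| + |(pt ξ (1 / (a : ℝ) ^ 2)).im| :=
            Complex.norm_le_abs_re_add_abs_im _
        _ ≤ ρ / 2 + ρ / 4 := by
            rw [hre, him, abs_neg, abs_of_pos hhpos]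
            linarith
        _ < ρ := by linarith
    show om N a (pt ξ (1 / (a : ℝ) ^ 2)) * f (pt ξ (1 / (a : ℝ) ^ 2)) =
      f 0 * (om N a (pt ξ (1 / (a : ℝ) ^ 2)) * Complex.exp (N * P (pt ξ (1 / (a : ℝ) ^ 2))) * 1)
    rw [hP _ hball]
    ring
  rw [h2, h3] at h1
  refine h1.trans ?_
  have e1 : Cp * Real.exp (N * (Real.pi * 1 / a)) * (‖f 0‖ * Real.exp (-(N * (ρ ^ 2 / 8)))) =
      Cp * ‖f 0‖ * Real.exp (N * (Real.pi * 1 / a) + -(N * (ρ ^ 2 / 8))) := by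
    rw [Real.exp_add]; ring
  rw [e1]
  apply mul_le_mul_of_nonneg_left _ (by positivity)
  apply Real.exp_le_exp.2
  have hρ2 : 0 ≤ ρ ^ 2 := sq_nonneg ρ
  nlinarith

end Pool.Agent.Helper9.TF
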