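import Pool.Agent.Helper9.TF.StepC

/-!
# The exponent of the sum over `m`
-/

namespace Pool.Agent.Helper9.TF

open Complex Finset Filter Topology
open Pool.Agent.Helper9.TB

/-- the exponent of the sum over `m` -/
noncomputable def Ty (N : ℕ) (v : ℂ → ℂ) (y t : ℂ) : ℂ := GA N y t + v t

lemma mem_b {c : ℂ} {r : ℝ} {z : ℂ} : z ∈ Metric.ball c r ↔ ‖z - c‖ < r := by
  rw [Metric.mem_ball, dist_eq_norm]

/-- the bounds of `GA` used below, at a fixed level `N` -/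
structure GAB (C2 C3 C4 : ℝ) (N : ℕ) : Prop where
  N20 : 20 ≤ N
  lim : ∀ y t : ℂ, ‖y‖ < 1 / 20 → ‖t - 1 / 4‖ < 1 / 20 →
    ‖GA N y t - gam y t‖ ≤ C2 * (1 + Real.log N) / N ∧ ‖GAy N y t - gamy y t‖ ≤ C2 / N ∧
    ‖GAt N y t - gamt y t‖ ≤ C2 / N
  cub : ∀ y t : ℂ, ‖y‖ < 1 / 20 → ‖t - 1 / 4‖ < 1 / 20 →
    ‖gamy y t + 2 * Real.pi * y‖ ≤ C3 * ‖y‖ * (‖y‖ ^ 2 + ‖t - 1 / 4‖) ∧
    ‖gamt y t - gamt 0 t‖ ≤ C3 * ‖y‖ ^ 2
  quad : ∀ y t : ℂ, ‖y‖ < 1 / 20 → ‖t - 1 / 4‖ < 1 / 20 → ‖gam y t - gam 0 t‖ ≤ C4 * ‖y‖ ^ 2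
  lipt : ∀ y : ℂ, ‖y‖ < 1 / 200 → ∀ t s : ℂ, ‖t - 1 / 4‖ < 1 / 200 → ‖s - 1 / 4‖ < 1 / 200 →
      ‖GAt N y t - GAt N y s + 4 * Real.pi * (t - s)‖ ≤ 3 / 8 * ‖t - s‖

theorem exists_GAB : ∃ C2 C3 C4 : ℝ, 0 < C2 ∧ 0 < C3 ∧ 0 < C4 ∧ ∃ N0 : ℕ, ∀ N : ℕ, N0 ≤ N →
    GAB C2 C3 C4 N := by
  obtain ⟨C2, h2, hlim⟩ := GA_lim
  obtain ⟨C3, h3, hcub⟩ := gamy_cubic
  obtain ⟨C4, h4, hquad⟩ := gam_quad
  obtain ⟨N0, hN0, hlip⟩ := GAt_lip
  exact ⟨C2, C3, C4, h2, h3, h4, N0, fun N hN => ⟨hN0.trans hN, hlim N (hN0.trans hN), hcub, hquad,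
    hlip N hN⟩⟩

lemma GAt_diff {N : ℕ} (hN : 20 ≤ N) {y : ℂ} (hy : ‖y‖ < 1 / 20) :
    DifferentiableOn ℂ (fun t => GAt N y t) (Metric.ball (1 / 4) (1 / 20)) := by
  have h1 : DifferentiableOn ℂ (fun t => GA N y t) (Metric.ball (1 / 4) (1 / 20)) := fun t ht =>
    (GA_hasDeriv_t hN hy (mem_b.1 ht)).differentiableAt.differentiableWithinAt
  have h2 := h1.deriv Metric.isOpen_ball
  exact h2.congr fun t ht => ((GA_hasDeriv_t hN hy (mem_b.1 ht)).deriv).symm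

theorem T_facts {ρ C2 C3 C4 εw : ℝ} {N : ℕ} (B : GAB C2 C3 C4 N) (hρ : 0 < ρ) (hρ1 : ρ ≤ 1 / 1000)
    (h1 : 9 * C3 * ρ ≤ 1 / 4) (h2 : εw ≤ ρ / 8) (h3 : 2 * C2 / N ≤ ρ / 8)
    {v w : ℂ → ℂ} (hv : ∀ t ∈ Metric.ball (1 / 4 : ℂ) (1 / 200), HasDerivAt v (w t) t)
    (hw : ∀ t ∈ Metric.ball (1 / 4 : ℂ) (1 / 200), ‖w t - GAt N 0 t‖ ≤ εw) {y : ℂ} (hy : ‖y‖ < 3 * ρ) :
    (∀ t ∈ Metric.ball (1 / 4 : ℂ) (1 / 200), HasDerivAt (Ty N v y) (GAt N y t + w t) t) ∧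
    DifferentiableOn ℂ (Ty N v y) (Metric.ball (1 / 4) (1 / 400)) ∧
    ‖deriv (Ty N v y) (1 / 4)‖ ≤ ρ / 2 ∧
    LipS (1 / 4) (1 / 400) 4 1 (deriv (Ty N v y)) := by
  have hN := B.N20
  have hy200 : ‖y‖ < 1 / 200 := by linarith
  have hy20 : ‖y‖ < 1 / 20 := by linarith
  have hsub : Metric.ball (1 / 4 : ℂ) (1 / 400) ⊆ Metric.ball (1 / 4 : ℂ) (1 / 200) :=
    Metric.ball_subset_ball (by norm_num)
  have hsub2 : Metric.ball (1 / 4 : ℂ) (1 / 200) ⊆ Metric.ball (1 / 4 : ℂ) (1 / 20) :=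
    Metric.ball_subset_ball (by norm_num)
  have hd : ∀ t ∈ Metric.ball (1 / 4 : ℂ) (1 / 200), HasDerivAt (Ty N v y) (GAt N y t + w t) t :=
    fun t ht => (GA_hasDeriv_t hN hy20 (mem_b.1 (hsub2 ht))).add (hv t ht)
  have hc : (1 / 4 : ℂ) ∈ Metric.ball (1 / 4 : ℂ) (1 / 200) := Metric.mem_ball_self (by norm_num)
  have hd4 : deriv (Ty N v y) (1 / 4) = GAt N y (1 / 4) + w (1 / 4) := (hd _ hc).deriv
  refine ⟨hd, fun t ht => (hd t (hsub ht)).differentiableAt.differentiableWithinAt, ?_, ?_⟩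
  · rw [hd4]
    obtain ⟨-, -, l1⟩ := B.lim y (1 / 4) hy20 (by norm_num)
    obtain ⟨-, -, l2⟩ := B.lim 0 (1 / 4) (by norm_num) (by norm_num)
    have c1 := (B.cub y (1 / 4) hy20 (by norm_num)).2
    rw [gamt_zero, sub_zero] at c1 l2
    have w1 := hw _ hc
    have e1 : GAt N y (1 / 4) + w (1 / 4) = (GAt N y (1 / 4) - gamt y (1 / 4)) + gamt y (1 / 4) +
        (w (1 / 4) - GAt N 0 (1 / 4)) + GAt N 0 (1 / 4) := by ring
    have hC3 : 0 ≤ C3 := by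
      by_contra hneg
      push Not at hneg
      have := (norm_nonneg _).trans (B.cub (1 / 40) (1 / 4) (by norm_num) (by norm_num)).2
      have h5 : (0 : ℝ) < ‖(1 / 40 : ℂ)‖ ^ 2 := by norm_num
      nlinarith
    have hy2 : C3 * ‖y‖ ^ 2 ≤ ρ / 4 := by
      have : ‖y‖ ^ 2 ≤ (3 * ρ) ^ 2 := pow_le_pow_left₀ (norm_nonneg _) hy.le 2
      calc C3 * ‖y‖ ^ 2 ≤ C3 * (3 * ρ) ^ 2 := mul_le_mul_of_nonneg_left this hC3
        _ = 9 * C3 * ρ * ρ := by ring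
        _ ≤ 1 / 4 * ρ := mul_le_mul_of_nonneg_right h1 hρ.le
        _ = _ := by ring
    rw [e1]
    calc _ ≤ ‖(GAt N y (1 / 4) - gamt y (1 / 4)) + gamt y (1 / 4) +
        (w (1 / 4) - GAt N 0 (1 / 4))‖ + ‖GAt N 0 (1 / 4)‖ := norm_add_le _ _
      _ ≤ (‖GAt N y (1 / 4) - gamt y (1 / 4)‖ + ‖gamt y (1 / 4)‖ +
        ‖w (1 / 4) - GAt N 0 (1 / 4)‖) + ‖GAt N 0 (1 / 4)‖ := by gcongr; exact norm_add₃_le
      _ ≤ (C2 / N + ρ / 4 + ρ / 8) + C2 / N := by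
          gcongr
          · exact c1.trans hy2
          · exact w1.trans h2
      _ = 2 * C2 / N + 3 * ρ / 8 := by ring
      _ ≤ ρ / 2 := by linarith
  · have hwd : DifferentiableOn ℂ w (Metric.ball (1 / 4) (1 / 200)) := by
      have h5 : DifferentiableOn ℂ v (Metric.ball (1 / 4) (1 / 200)) := fun t ht =>
        (hv t ht).differentiableAt.differentiableWithinAt
      exact (h5.deriv Metric.isOpen_ball).congr fun t ht => (hv t ht).deriv.symm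
    have hg : DifferentiableOn ℂ (fun t => w t - GAt N 0 t) (Metric.ball (1 / 4) (1 / 200)) :=
      hwd.sub ((GAt_diff hN (by norm_num)).mono hsub2)
    have h5 := lip_of_bound (r := 1 / 400) (by norm_num) hg hw
    intro t ht s hs
    rw [(hd t (hsub ht)).deriv, (hd s (hsub hs)).deriv]
    have l1 := B.lipt y hy200 t s (mem_b.1 (hsub ht)) (mem_b.1 (hsub hs))
    have l2 := B.lipt 0 (by norm_num) t s (mem_b.1 (hsub ht)) (mem_b.1 (hsub hs))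
    have l3 := h5 t ht s hs
    have e1 : GAt N y t + w t - (GAt N y s + w s) + 2 * Real.pi * ((4 : ℝ) : ℂ) * (t - s) =
        (GAt N y t - GAt N y s + 4 * Real.pi * (t - s)) +
        (GAt N 0 t - GAt N 0 s + 4 * Real.pi * (t - s)) +
        ((w t - GAt N 0 t) - (w s - GAt N 0 s)) := by push_cast; ring
    rw [e1]
    have e2 : εw / (1 / 200 - 1 / 400) ≤ 1 / 4 := by
      rw [div_le_iff₀ (by norm_num)]
      linarith
    calc _ ≤ ‖GAt N y t - GAt N y s + 4 * Real.pi * (t - s)‖ +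
        ‖GAt N 0 t - GAt N 0 s + 4 * Real.pi * (t - s)‖ +
        ‖(w t - GAt N 0 t) - (w s - GAt N 0 s)‖ := norm_add₃_le
      _ ≤ 3 / 8 * ‖t - s‖ + 3 / 8 * ‖t - s‖ + 1 / 4 * ‖t - s‖ := by
          gcongr
          exact l3.trans (mul_le_mul_of_nonneg_right e2 (norm_nonneg _))
      _ = 1 * ‖t - s‖ := by ring

/-- Taylor's formula at the critical point -/
lemma taylor_T {T : ℂ → ℂ} {c : ℂ} {r : ℝ} (hT : DifferentiableOn ℂ T (Metric.ball c r))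
    (hL : LipS c r 4 1 (deriv T)) {t : ℂ} (ht : t ∈ Metric.ball c r) (h0 : deriv T t = 0) {s : ℂ}
    (hs : s ∈ Metric.ball c r) : ‖T s - T t + 4 * Real.pi * (s - t) ^ 2‖ ≤ ‖s - t‖ ^ 2 := by
  set q : ℂ → ℂ := fun s => T s - T t + 4 * Real.pi * (s - t) ^ 2 with hq
  have hseg : segment ℝ t s ⊆ Metric.ball c r := (convex_ball c r).segment_subset ht hs
  have hd : ∀ x ∈ segment ℝ t s, HasDerivWithinAt q (deriv T x + 8 * Real.pi * (x - t))
      (segment ℝ t s) x := by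
    intro x hx
    have h1 : HasDerivAt T (deriv T x) x :=
      (hT.differentiableAt (Metric.isOpen_ball.mem_nhds (hseg hx))).hasDerivAt
    have h2 : HasDerivAt (fun s : ℂ => 4 * (Real.pi : ℂ) * (s - t) ^ 2) (8 * Real.pi * (x - t)) x := by
      have := (((hasDerivAt_id x).sub_const t).pow 2).const_mul (4 * (Real.pi : ℂ))
      refine this.congr_deriv ?_
      simp only [id]
      push_cast
      ring
    exact ((h1.sub_const _).add h2).hasDerivWithinAt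
  have hb : ∀ x ∈ segment ℝ t s, ‖deriv T x + 8 * Real.pi * (x - t)‖ ≤ ‖s - t‖ := by
    intro x hx
    have h1 := hL x (hseg hx) t ht
    rw [h0, sub_zero] at h1
    have e1 : deriv T x + 2 * Real.pi * ((4 : ℝ) : ℂ) * (x - t) =
        deriv T x + 8 * Real.pi * (x - t) := by push_cast; ring
    rw [e1, one_mul] at h1
    refine h1.trans ?_
    obtain ⟨a, b, ha, hb, hab, rfl⟩ := hx
    have e2 : a • t + b • s - t = (b : ℂ) * (s - t) := by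
      simp only [Complex.real_smul]
      have : (a : ℂ) = 1 - b := by rw [← Complex.ofReal_one, ← hab]; push_cast; ring
      rw [this]; ring
    rw [e2, norm_mul, Complex.norm_real, Real.norm_of_nonneg hb]
    have : b ≤ 1 := by linarith
    nlinarith [norm_nonneg (s - t)]
  have h3 := (convex_segment t s).norm_image_sub_le_of_norm_hasDerivWithin_le hd hb
    (left_mem_segment ℝ t s) (right_mem_segment ℝ t s)
  have e3 : q t = 0 := by simp [hq]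
  rw [e3, sub_zero] at h3
  calc _ ≤ ‖s - t‖ * ‖s - t‖ := h3
    _ = _ := by ring

/-- on the real axis the exponent is not much larger than at the critical point -/
lemma real_le {T : ℂ → ℂ} {r : ℝ} (hT : DifferentiableOn ℂ T (Metric.ball (1 / 4) r))
    (hL : LipS (1 / 4) r 4 1 (deriv T)) {t : ℂ} (ht : t ∈ Metric.ball (1 / 4) r)
    (h0 : deriv T t = 0) {τ : ℝ} (hs : (τ : ℂ) ∈ Metric.ball (1 / 4 : ℂ) r) :
    (T τ).re ≤ (T t).re + 14 * ‖t - 1 / 4‖ ^ 2 := by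
  have h1 := taylor_T hT hL ht h0 hs
  have hpi := Real.pi_gt_d2
  have hpi4 := Real.pi_lt_d2
  have h2 := (Complex.abs_re_le_norm _).trans h1
  have e1 : (T τ - T t + 4 * Real.pi * ((τ : ℂ) - t) ^ 2).re =
      (T τ).re - (T t).re + 4 * Real.pi * ((τ - t.re) ^ 2 - t.im ^ 2) := by
    have : (4 * (Real.pi : ℂ) * ((τ : ℂ) - t) ^ 2).re =
        4 * Real.pi * ((τ - t.re) ^ 2 - t.im ^ 2) := by
      have e : (4 * (Real.pi : ℂ) * ((τ : ℂ) - t) ^ 2) =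
        ((4 * Real.pi : ℝ) : ℂ) * ((τ : ℂ) - t) ^ 2 := by push_cast; ring
      rw [e, Complex.re_ofReal_mul, sq]
      simp only [Complex.mul_re, Complex.sub_re, Complex.sub_im, Complex.ofReal_re,
        Complex.ofReal_im]
      ring
    rw [Complex.add_re, Complex.sub_re, this]
  have e2 : ‖(τ : ℂ) - t‖ ^ 2 = (τ - t.re) ^ 2 + t.im ^ 2 := by
    rw [← Complex.normSq_eq_norm_sq, Complex.normSq_apply]
    simp only [Complex.sub_re, Complex.sub_im, Complex.ofReal_re, Complex.ofReal_im]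
    ring
  have e3 : t.im ^ 2 ≤ ‖t - 1 / 4‖ ^ 2 := by
    rw [← Complex.normSq_eq_norm_sq, Complex.normSq_apply]
    have : (t - 1 / 4).im = t.im := by simp
    rw [this]
    nlinarith [mul_self_nonneg (t - 1 / 4).re]
  rw [e1, e2] at h2
  have h3 := (abs_le.1 h2).2
  nlinarith [sq_nonneg (τ - t.re), sq_nonneg t.im]

end Pool.Agent.Helper9.TF
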