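import Pool.Agent.Helper9.TF.StepD

/-!
# The main part of the next function
-/

namespace Pool.Agent.Helper9.TF

open Complex Finset Filter Topology
open Pool.Agent.Helper9.TB

/-- the conclusion of `KL` at a fixed level -/
def KLat (CK : ℝ) (N : ℕ) : Prop :=
  ∀ T : ℂ → ℂ, DifferentiableOn ℂ T (Metric.ball (1 / 4) (1 / 400)) → ‖deriv T (1 / 4)‖ ≤ 1 / 400 →
      LipS (1 / 4) (1 / 400) 4 1 (deriv T) →
      ∃ t : ℂ, ‖t - 1 / 4‖ ≤ ‖deriv T (1 / 4)‖ / 20 ∧ deriv T t = 0 ∧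
        1 / CK * Real.exp (N * (T t).re) ≤ ‖KS N (1 / 400) T (fun _ => 1)‖ ∧
        ‖KS N (1 / 400) T (fun _ => 1)‖ ≤ CK * N * Real.exp (N * (T t).re) ∧
        ∀ B : ℂ → ℂ, DifferentiableOn ℂ B (Metric.ball (1 / 4) (1 / 400)) →
          (∀ z ∈ Metric.ball (1 / 4 : ℂ) (1 / 400), ‖B z‖ ≤ 1) →
          ‖KS N (1 / 400) T B - B t * KS N (1 / 400) T (fun _ => 1)‖ ≤
            CK / Real.sqrt N * ‖KS N (1 / 400) T (fun _ => 1)‖

/-- all the facts at a fixed level `N` -/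
structure Ctx (ρ δ CK C2 C3 C4 εw : ℝ) (N : ℕ) (f0 J : ℂ) (v w : ℂ → ℂ) (φ : ℕ → ℂ) : Prop where
  B : GAB C2 C3 C4 N
  K : KLat CK N
  CK0 : 0 < CK
  rho : 0 < ρ
  rho1 : ρ ≤ 1 / 1000
  c2 : 0 < C2
  c3 : 0 < C3
  c4 : 0 < C4
  delta : 1000 * ρ ≤ δ
  k3 : C3 * ρ ≤ 1 / 1000
  k4 : C4 * ρ ≤ 1 / 1000
  w1 : εw ≤ ρ / 8
  n1 : 2 * CK * N ≤ Real.exp (N * (ρ ^ 2 / 64))
  n2 : C2 * (1 + Real.log N) / N ≤ ρ ^ 2 / 1024
  f0ne : f0 ≠ 0
  Jne : J ≠ 0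
  v0 : v (1 / 4) = 0
  hv : ∀ t ∈ Metric.ball (1 / 4 : ℂ) (1 / 200), HasDerivAt v (w t) t
  hw : ∀ t ∈ Metric.ball (1 / 4 : ℂ) (1 / 200), ‖w t - GAt N 0 t‖ ≤ εw
  win : ∀ m ∈ Wd N (1 / 400), ‖φ m - f0 * J * Complex.exp (N * v (m / N))‖ ≤
    Real.exp (-(N * (ρ ^ 2 / 16))) * ‖f0 * J * Complex.exp (N * v (m / N))‖
  out : ∀ m : ℕ, m < N → m ∉ Wd N (1 / 400) →
    ‖φ m‖ ≤ ‖f0‖ * Real.exp (N * (U0 (1 / 4) - 3 * δ / 4))
  gout : ∀ m : ℕ, m < N → m ∉ Wd N (1 / 400) → ∀ y : ℂ, ‖y‖ < 3 * ρ →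
    ‖gm N m y‖ ≤ Real.exp (N * (U0 (1 / 4) - 3 * δ / 4))
  Jlow : Real.exp (N * (U0 (1 / 4) - ρ ^ 2 / 1024)) ≤ ‖J‖

namespace Ctx

variable {ρ δ CK C2 C3 C4 εw : ℝ} {N : ℕ} {f0 J : ℂ} {v w : ℂ → ℂ} {φ : ℕ → ℂ}

/-- the main part -/
noncomputable def FM (N : ℕ) (f0 J : ℂ) (v : ℂ → ℂ) (y : ℂ) : ℂ :=
  ∑ m ∈ Wd N (1 / 400), f0 * J * Complex.exp (N * v (m / N)) * gm N m y

/-- the next function -/
noncomputable def FF (N : ℕ) (φ : ℕ → ℂ) (y : ℂ) : ℂ := ∑ m ∈ range N, φ m * gm N m y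

lemma N0 (h : Ctx ρ δ CK C2 C3 C4 εw N f0 J v w φ) : (0 : ℝ) < N := by
  have := h.B.N20
  exact_mod_cast (by omega : 0 < N)

lemma n3 (h : Ctx ρ δ CK C2 C3 C4 εw N f0 J v w φ) : 2 * C2 / N ≤ ρ / 8 := by
  have hN := h.N0
  have h1 := h.n2
  have h2 : C2 / N ≤ C2 * (1 + Real.log N) / N := by
    apply div_le_div_of_nonneg_right _ hN.le
    have : 0 ≤ Real.log N := Real.log_nonneg (by have := h.B.N20; exact_mod_cast (by omega : 1 ≤ N))
    nlinarith [h.c2]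
  have h3 : 2 * C2 / N = 2 * (C2 / N) := by ring
  rw [h3]
  have := h.rho
  have := h.rho1
  nlinarith

lemma gm_exact (h : Ctx ρ δ CK C2 C3 C4 εw N f0 J v w φ) {m : ℕ} (hm : m ∈ Wd N (1 / 400)) {y : ℂ}
    (hy : ‖y‖ < 3 * ρ) : gm N m y = Complex.exp (N * GA N y (m / N)) := by
  rw [mem_Wd] at hm
  have h1 := abs_le.1 hm.2
  have h2 := Complex.abs_re_le_norm y
  have h3 := h.rho1
  have h4 := h.B.N20
  apply GA_exact N (by omega) m hm.1
  linarith [h1.2]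

lemma mem_ball_m (_h : Ctx ρ δ CK C2 C3 C4 εw N f0 J v w φ) {m : ℕ} (hm : m ∈ Wd N (1 / 400)) :
    ((m : ℂ) / N) ∈ Metric.ball (1 / 4 : ℂ) (1 / 400) := by
  rw [mem_Wd] at hm
  rw [mem_b]
  have e : ((m : ℂ) / N - 1 / 4) = (((m : ℝ) / N - 1 / 4 : ℝ) : ℂ) := by push_cast; ring
  rw [e, Complex.norm_real, Real.norm_eq_abs]
  linarith [hm.2]

lemma FM_eq (h : Ctx ρ δ CK C2 C3 C4 εw N f0 J v w φ) {y : ℂ} (hy : ‖y‖ < 3 * ρ) :
    FM N f0 J v y = f0 * J * KS N (1 / 400) (Ty N v y) (fun _ => 1) := by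
  unfold FM KS Ty
  rw [mul_sum]
  apply sum_congr rfl
  intro m hm
  rw [h.gm_exact hm hy, mul_add, Complex.exp_add]
  ring

lemma FM_deriv (h : Ctx ρ δ CK C2 C3 C4 εw N f0 J v w φ) {y : ℂ} (hy : ‖y‖ < 3 * ρ) :
    HasDerivAt (FM N f0 J v)
      (f0 * J * (N * KS N (1 / 400) (Ty N v y) (fun t => GAy N y t))) y := by
  unfold FM
  have h1 : ∀ m ∈ Wd N (1 / 400), HasDerivAt (fun y => f0 * J * Complex.exp (N * v (m / N)) * gm N m y)
      (f0 * J * Complex.exp (N * v (m / N)) * (Complex.exp (N * GA N y (m / N)) *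
        (N * GAy N y (m / N)))) y := by
    intro m hm
    apply HasDerivAt.const_mul
    have hb := mem_b.1 (h.mem_ball_m hm)
    have h2 := (GA_hasDeriv_y h.B.N20 (y := y) (t := (m : ℂ) / N) (by linarith [h.rho1])
      (by linarith)).const_mul (N : ℂ)
    have h3 := h2.cexp
    apply h3.congr_of_eventuallyEq
    have hopen : ∀ᶠ z in 𝓝 y, ‖z‖ < 3 * ρ :=
      (continuous_norm.continuousAt.eventually (gt_mem_nhds hy))
    filter_upwards [hopen] with z hz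
    exact h.gm_exact hm hz
  have h4 := HasDerivAt.fun_sum h1
  refine h4.congr_deriv ?_
  unfold KS Ty
  rw [mul_sum, mul_sum]
  apply sum_congr rfl
  intro m _
  rw [mul_add, Complex.exp_add]
  ring

lemma GAy_le (h : Ctx ρ δ CK C2 C3 C4 εw N f0 J v w φ) {y : ℂ} (hy : ‖y‖ < 3 * ρ) {t : ℂ}
    (ht : ‖t - 1 / 4‖ < 1 / 20) : ‖GAy N y t‖ ≤ 1 := by
  have hy20 : ‖y‖ < 1 / 20 := by linarith [h.rho1]
  have h1 := (h.B.lim y t hy20 ht).2.1
  have h2 := (h.B.cub y t hy20 ht).1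
  have hpi := Real.pi_pos
  have hpi4 := Real.pi_lt_d2
  have h3 := h.n3
  have h5 : ‖(2 * Real.pi * y : ℂ)‖ = 2 * Real.pi * ‖y‖ := by
    rw [norm_mul, norm_mul, Complex.norm_real, Real.norm_of_nonneg hpi.le]
    norm_num
  have h6 : ‖GAy N y t‖ ≤ ‖GAy N y t - gamy y t‖ + ‖gamy y t + 2 * Real.pi * y‖ +
      ‖(2 * Real.pi * y : ℂ)‖ := by
    have e : GAy N y t = (GAy N y t - gamy y t) + (gamy y t + 2 * Real.pi * y) +
      (-(2 * Real.pi * y)) := by ring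
    calc ‖GAy N y t‖ = ‖(GAy N y t - gamy y t) + (gamy y t + 2 * Real.pi * y) +
      (-(2 * Real.pi * y))‖ := by rw [← e]
      _ ≤ _ := by
          refine norm_add₃_le.trans ?_
          rw [norm_neg]
  have h7 : ‖y‖ ^ 2 + ‖t - 1 / 4‖ ≤ 1 := by nlinarith [norm_nonneg y]
  have h8 : C3 * ‖y‖ * (‖y‖ ^ 2 + ‖t - 1 / 4‖) ≤ C3 * ‖y‖ * 1 :=
    mul_le_mul_of_nonneg_left h7 (mul_nonneg h.c3.le (norm_nonneg _))
  have h9 : C3 * ‖y‖ ≤ C3 * (3 * ρ) := mul_le_mul_of_nonneg_left hy.le h.c3.le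
  have h10 := h.k3
  have h11 := h.rho1
  have h12 : 2 * C2 / N = 2 * (C2 / N) := by ring
  rw [h12] at h3
  rw [h5] at h6
  have h13 : 0 < C2 / N := div_pos h.c2 h.N0
  nlinarith [norm_nonneg y]

/-- the facts about the main part at the point `y` -/
structure Pt (ρ CK : ℝ) (N : ℕ) (f0 J : ℂ) (v w : ℂ → ℂ) (y t : ℂ) : Prop where
  near : ‖t - 1 / 4‖ ≤ ρ / 40
  crit : GAt N y t + w t = 0
  low : 1 / CK * (‖f0 * J‖ * Real.exp (N * (Ty N v y t).re)) ≤ ‖FM N f0 J v y‖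
  up : ‖FM N f0 J v y‖ ≤ CK * N * (‖f0 * J‖ * Real.exp (N * (Ty N v y t).re))
  slope : ‖deriv (FM N f0 J v) y - N * GAy N y t * FM N f0 J v y‖ ≤
    N * (CK / Real.sqrt N) * ‖FM N f0 J v y‖
  real : ∀ m ∈ Wd N (1 / 400), (Ty N v y (m / N)).re ≤ (Ty N v y t).re + ρ ^ 2 / 100
  quarter : (Ty N v y (1 / 4)).re ≤ (Ty N v y t).re + ρ ^ 2 / 100

lemma exists_Pt (h : Ctx ρ δ CK C2 C3 C4 εw N f0 J v w φ) {y : ℂ} (hy : ‖y‖ < 3 * ρ) :
    ∃ t : ℂ, Pt ρ CK N f0 J v w y t := by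
  have hρ := h.rho
  have hρ1 := h.rho1
  obtain ⟨hd, hT1, hT2, hT3⟩ := T_facts h.B hρ hρ1 (by linarith [h.k3]) h.w1 h.n3 h.hv h.hw hy
  obtain ⟨t, t1, t2, t3, t4, t5⟩ := h.K (Ty N v y) hT1 (by linarith) hT3
  have ht1 : ‖t - 1 / 4‖ ≤ ρ / 40 := by linarith
  have htb : t ∈ Metric.ball (1 / 4 : ℂ) (1 / 400) := by rw [mem_b]; linarith
  have htb2 : t ∈ Metric.ball (1 / 4 : ℂ) (1 / 200) := by rw [mem_b]; linarith
  have hsm : 14 * ‖t - 1 / 4‖ ^ 2 ≤ ρ ^ 2 / 100 := by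
    have : ‖t - 1 / 4‖ ^ 2 ≤ (ρ / 40) ^ 2 := pow_le_pow_left₀ (norm_nonneg _) ht1 2
    nlinarith
  refine ⟨t, ht1, ?_, ?_, ?_, ?_, ?_, ?_⟩
  · rw [← (hd t htb2).deriv]; exact t2
  · rw [h.FM_eq hy, norm_mul (f0 * J) (KS N (1 / 400) (Ty N v y) (fun _ => 1))]
    calc 1 / CK * (‖f0 * J‖ * Real.exp (N * (Ty N v y t).re)) =
        ‖f0 * J‖ * (1 / CK * Real.exp (N * (Ty N v y t).re)) := by ring
      _ ≤ _ := mul_le_mul_of_nonneg_left t3 (norm_nonneg _)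
  · rw [h.FM_eq hy, norm_mul (f0 * J) (KS N (1 / 400) (Ty N v y) (fun _ => 1))]
    calc ‖f0 * J‖ * ‖KS N (1 / 400) (Ty N v y) (fun _ => 1)‖ ≤
        ‖f0 * J‖ * (CK * N * Real.exp (N * (Ty N v y t).re)) :=
          mul_le_mul_of_nonneg_left t4 (norm_nonneg _)
      _ = _ := by ring
  · rw [(h.FM_deriv hy).deriv, h.FM_eq hy]
    have h5 := t5 (fun t => GAy N y t) ((GAy_diff_t h.B.N20 (by linarith)).mono
      (Metric.ball_subset_ball (by norm_num))) (fun z hz => h.GAy_le hy (by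
        rw [mem_b] at hz; linarith))
    have e1 : f0 * J * (N * KS N (1 / 400) (Ty N v y) (fun t => GAy N y t)) -
        N * GAy N y t * (f0 * J * KS N (1 / 400) (Ty N v y) (fun _ => 1)) =
        N * (f0 * J) * (KS N (1 / 400) (Ty N v y) (fun t => GAy N y t) -
          GAy N y t * KS N (1 / 400) (Ty N v y) (fun _ => 1)) := by ring
    rw [e1, norm_mul, norm_mul, Complex.norm_natCast, norm_mul (f0 * J)]
    calc N * ‖f0 * J‖ * ‖_‖ ≤ N * ‖f0 * J‖ * (CK / Real.sqrt N *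
          ‖KS N (1 / 400) (Ty N v y) (fun _ => 1)‖) :=
          mul_le_mul_of_nonneg_left h5 (by have := h.N0; positivity)
      _ = _ := by ring
  · intro m hm
    have hb := h.mem_ball_m hm
    have e : ((m : ℂ) / N) = (((m : ℝ) / N : ℝ) : ℂ) := by push_cast; ring
    rw [e] at hb ⊢
    have := real_le hT1 hT3 htb t2 hb
    linarith
  · have e : (1 / 4 : ℂ) = ((1 / 4 : ℝ) : ℂ) := by push_cast; ring
    have hb : ((1 / 4 : ℝ) : ℂ) ∈ Metric.ball (1 / 4 : ℂ) (1 / 400) := by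
      rw [← e]; exact Metric.mem_ball_self (by norm_num)
    have := real_le hT1 hT3 htb t2 hb
    rw [← e] at this
    linarith

/-- the exponent at the critical point is close to the maximum -/
lemma T_low (h : Ctx ρ δ CK C2 C3 C4 εw N f0 J v w φ) {y t : ℂ} (hy : ‖y‖ < 3 * ρ)
    (ht : Pt ρ CK N f0 J v w y t) :
    U0 (1 / 4) - ρ ^ 2 / 1024 - C4 * ‖y‖ ^ 2 - ρ ^ 2 / 100 ≤ (Ty N v y t).re := by
  have hy20 : ‖y‖ < 1 / 20 := by linarith [h.rho1]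
  have h1 := (h.B.lim y (1 / 4) hy20 (by norm_num)).1
  have h2 := h.B.quad y (1 / 4) hy20 (by norm_num)
  have h3 : gam 0 (1 / 4) = U0 (1 / 4) := by
    have := gam_real (τ := 1 / 4) (by norm_num)
    rw [← this]; norm_num
  have h4 : (Ty N v y (1 / 4)) = GA N y (1 / 4) := by unfold Ty; rw [h.v0, add_zero]
  have h5 : |(GA N y (1 / 4) - gam y (1 / 4)).re| ≤ ρ ^ 2 / 1024 :=
    (Complex.abs_re_le_norm _).trans (h1.trans h.n2)
  have h6 : |(gam y (1 / 4) - gam 0 (1 / 4)).re| ≤ C4 * ‖y‖ ^ 2 :=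
    (Complex.abs_re_le_norm _).trans h2
  have h7 := ht.quarter
  rw [h4] at h7
  rw [Complex.sub_re] at h5 h6
  have h8 : (gam 0 (1 / 4)).re = U0 (1 / 4) := by rw [h3, Complex.ofReal_re]
  have h9 := (abs_le.1 h5).1
  have h10 := (abs_le.1 h6).1
  linarith

lemma FM_low (h : Ctx ρ δ CK C2 C3 C4 εw N f0 J v w φ) {y : ℂ} (hy : ‖y‖ < 3 * ρ) :
    1 / CK * (‖f0‖ * Real.exp (N * (2 * U0 (1 / 4) - ρ ^ 2 / 512 - C4 * ‖y‖ ^ 2 - ρ ^ 2 / 100))) ≤
      ‖FM N f0 J v y‖ := by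
  obtain ⟨t, ht⟩ := h.exists_Pt hy
  refine le_trans ?_ ht.low
  apply mul_le_mul_of_nonneg_left _ (by have := h.CK0; positivity)
  rw [norm_mul, mul_assoc]
  apply mul_le_mul_of_nonneg_left _ (norm_nonneg _)
  have h1 := h.T_low hy ht
  have h2 := h.Jlow
  have hN := h.N0
  calc Real.exp (N * (2 * U0 (1 / 4) - ρ ^ 2 / 512 - C4 * ‖y‖ ^ 2 - ρ ^ 2 / 100)) =
      Real.exp (N * (U0 (1 / 4) - ρ ^ 2 / 1024)) *
        Real.exp (N * (U0 (1 / 4) - ρ ^ 2 / 1024 - C4 * ‖y‖ ^ 2 - ρ ^ 2 / 100)) := by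
        rw [← Real.exp_add]; congr 1; ring
    _ ≤ ‖J‖ * Real.exp (N * (Ty N v y t).re) := by
        apply mul_le_mul h2 _ (Real.exp_pos _).le (norm_nonneg _)
        exact Real.exp_le_exp.2 (mul_le_mul_of_nonneg_left h1 hN.le)

lemma FM_ne (h : Ctx ρ δ CK C2 C3 C4 εw N f0 J v w φ) {y : ℂ} (hy : ‖y‖ < 3 * ρ) :
    FM N f0 J v y ≠ 0 := by
  have h1 := h.FM_low hy
  have h2 : 0 < ‖f0‖ := norm_pos_iff.2 h.f0ne
  have h3 := h.CK0
  intro h4
  rw [h4, norm_zero] at h1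
  have : 0 < 1 / CK * (‖f0‖ *
    Real.exp (N * (2 * U0 (1 / 4) - ρ ^ 2 / 512 - C4 * ‖y‖ ^ 2 - ρ ^ 2 / 100))) := by positivity
  linarith

/-- the error -/
theorem err (h : Ctx ρ δ CK C2 C3 C4 εw N f0 J v w φ) {y : ℂ} (hy : ‖y‖ < 3 * ρ) :
    ‖FF N φ y - FM N f0 J v y‖ ≤ Real.exp (-(N * (ρ ^ 2 / 32))) * ‖FM N f0 J v y‖ := by
  have hρ := h.rho
  have hρ1 := h.rho1
  have hN := h.N0
  have hCK := h.CK0
  obtain ⟨t, ht⟩ := h.exists_Pt hy
  have hsplit : FF N φ y - FM N f0 J v y =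
      ∑ m ∈ Wd N (1 / 400), (φ m - f0 * J * Complex.exp (N * v (m / N))) * gm N m y +
      ∑ m ∈ (range N).filter (fun m => m ∉ Wd N (1 / 400)), φ m * gm N m y := by
    unfold FF FM
    have h1 := sum_filter_add_sum_filter_not (range N) (fun m => m ∈ Wd N (1 / 400))
      (fun m => φ m * gm N m y)
    have h2 : (range N).filter (fun m => m ∈ Wd N (1 / 400)) = Wd N (1 / 400) := by
      ext m
      rw [Finset.mem_filter, Finset.mem_range]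
      constructor
      · exact fun h => h.2
      · exact fun h => ⟨(mem_Wd.1 h).1, h⟩
    rw [← h1, h2]
    simp only [sub_mul, sum_sub_distrib]
    ring
  rw [hsplit]
  have hA : ‖∑ m ∈ Wd N (1 / 400), (φ m - f0 * J * Complex.exp (N * v (m / N))) * gm N m y‖ ≤
      N * CK * Real.exp (-(N * (3 * ρ ^ 2 / 64))) * ‖FM N f0 J v y‖ := by
    have h1 : ∀ m ∈ Wd N (1 / 400), ‖(φ m - f0 * J * Complex.exp (N * v (m / N))) * gm N m y‖ ≤
        Real.exp (-(N * (3 * ρ ^ 2 / 64))) * (‖f0 * J‖ * Real.exp (N * (Ty N v y t).re)) := by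
      intro m hm
      rw [norm_mul]
      have h2 := h.win m hm
      have h3 := ht.real m hm
      have h4 : ‖Complex.exp (N * v (m / N))‖ * ‖gm N m y‖ =
          Real.exp (N * (Ty N v y (m / N)).re) := by
        rw [h.gm_exact hm hy, ← norm_mul, ← Complex.exp_add, ← mul_add, Complex.norm_exp]
        congr 1
        rw [← Complex.ofReal_natCast, Complex.re_ofReal_mul]
        unfold Ty
        rw [add_comm]
      calc ‖φ m - f0 * J * Complex.exp (N * v (m / N))‖ * ‖gm N m y‖ ≤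
          (Real.exp (-(N * (ρ ^ 2 / 16))) * ‖f0 * J * Complex.exp (N * v (m / N))‖) *
            ‖gm N m y‖ := mul_le_mul_of_nonneg_right h2 (norm_nonneg _)
        _ = Real.exp (-(N * (ρ ^ 2 / 16))) * (‖f0 * J‖ *
            (‖Complex.exp (N * v (m / N))‖ * ‖gm N m y‖)) := by
            rw [norm_mul (f0 * J)]; ring
        _ = ‖f0 * J‖ * Real.exp (-(N * (ρ ^ 2 / 16)) + N * (Ty N v y (m / N)).re) := by
            rw [h4, Real.exp_add]; ring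
        _ ≤ ‖f0 * J‖ * Real.exp (-(N * (3 * ρ ^ 2 / 64)) + N * (Ty N v y t).re) := by
            apply mul_le_mul_of_nonneg_left _ (norm_nonneg _)
            apply Real.exp_le_exp.2
            have h5 : (N : ℝ) * (Ty N v y (m / N)).re ≤ N * ((Ty N v y t).re + ρ ^ 2 / 100) :=
              mul_le_mul_of_nonneg_left h3 hN.le
            have h6 : 0 ≤ (N : ℝ) * ρ ^ 2 := by positivity
            nlinarith
        _ = _ := by rw [Real.exp_add]; ring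
    have h2 : (Wd N (1 / 400)).card ≤ N := by
      unfold Wd
      exact (card_filter_le _ _).trans (by rw [card_range])
    have h2' : ((Wd N (1 / 400)).card : ℝ) ≤ N := by exact_mod_cast h2
    have h3 : ‖f0 * J‖ * Real.exp (N * (Ty N v y t).re) ≤ CK * ‖FM N f0 J v y‖ := by
      have := ht.low
      rw [div_mul_eq_mul_div, div_le_iff₀ hCK, one_mul] at this
      linarith
    calc _ ≤ ∑ m ∈ Wd N (1 / 400), ‖(φ m - f0 * J * Complex.exp (N * v (m / N))) * gm N m y‖ :=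
          norm_sum_le _ _
      _ ≤ ∑ m ∈ Wd N (1 / 400), Real.exp (-(N * (3 * ρ ^ 2 / 64))) *
          (‖f0 * J‖ * Real.exp (N * (Ty N v y t).re)) := sum_le_sum h1
      _ = (Wd N (1 / 400)).card * (Real.exp (-(N * (3 * ρ ^ 2 / 64))) *
          (‖f0 * J‖ * Real.exp (N * (Ty N v y t).re))) := by rw [sum_const, nsmul_eq_mul]
      _ ≤ N * (Real.exp (-(N * (3 * ρ ^ 2 / 64))) * (CK * ‖FM N f0 J v y‖)) := by
          gcongr
      _ = _ := by ring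
  have hB : ‖∑ m ∈ (range N).filter (fun m => m ∉ Wd N (1 / 400)), φ m * gm N m y‖ ≤
      N * CK * Real.exp (-(N * (3 * ρ ^ 2 / 64))) * ‖FM N f0 J v y‖ := by
    have hlow := h.FM_low hy
    rw [div_mul_eq_mul_div, div_le_iff₀ hCK, one_mul] at hlow
    have hyy : C4 * ‖y‖ ^ 2 ≤ 9 * ρ / 1000 := by
      have h5 : ‖y‖ ^ 2 ≤ (3 * ρ) ^ 2 := pow_le_pow_left₀ (norm_nonneg _) hy.le 2
      calc C4 * ‖y‖ ^ 2 ≤ C4 * (3 * ρ) ^ 2 := mul_le_mul_of_nonneg_left h5 h.c4.le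
        _ = 9 * (C4 * ρ) * ρ := by ring
        _ ≤ 9 * (1 / 1000) * ρ := by gcongr; exact h.k4
        _ = _ := by ring
    have h1 : ∀ m ∈ (range N).filter (fun m => m ∉ Wd N (1 / 400)), ‖φ m * gm N m y‖ ≤
        Real.exp (-(N * (3 * ρ ^ 2 / 64))) * (CK * ‖FM N f0 J v y‖) := by
      intro m hm
      rw [Finset.mem_filter, Finset.mem_range] at hm
      rw [norm_mul]
      calc ‖φ m‖ * ‖gm N m y‖ ≤ (‖f0‖ * Real.exp (N * (U0 (1 / 4) - 3 * δ / 4))) *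
            Real.exp (N * (U0 (1 / 4) - 3 * δ / 4)) :=
            mul_le_mul (h.out m hm.1 hm.2) (h.gout m hm.1 hm.2 y hy) (norm_nonneg _) (by positivity)
        _ = ‖f0‖ * Real.exp (N * (2 * U0 (1 / 4) - 3 * δ / 2)) := by
            rw [mul_assoc, ← Real.exp_add]; congr 2; ring
        _ ≤ ‖f0‖ * (Real.exp (-(N * (3 * ρ ^ 2 / 64))) *
            Real.exp (N * (2 * U0 (1 / 4) - ρ ^ 2 / 512 - C4 * ‖y‖ ^ 2 - ρ ^ 2 / 100))) := by
            rw [← Real.exp_add]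
            apply mul_le_mul_of_nonneg_left _ (norm_nonneg _)
            apply Real.exp_le_exp.2
            have h6 := h.delta
            have h7 : -(3 * δ / 2) ≤ -(3 * ρ ^ 2 / 64) - ρ ^ 2 / 512 - C4 * ‖y‖ ^ 2 - ρ ^ 2 / 100 := by
              nlinarith
            nlinarith
        _ = Real.exp (-(N * (3 * ρ ^ 2 / 64))) * (‖f0‖ *
            Real.exp (N * (2 * U0 (1 / 4) - ρ ^ 2 / 512 - C4 * ‖y‖ ^ 2 - ρ ^ 2 / 100))) := by ring
        _ ≤ _ := by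
            apply mul_le_mul_of_nonneg_left _ (Real.exp_pos _).le
            linarith
    have h2 : ((range N).filter (fun m => m ∉ Wd N (1 / 400))).card ≤ N :=
      (card_filter_le _ _).trans (by rw [card_range])
    have h2' : (((range N).filter (fun m => m ∉ Wd N (1 / 400))).card : ℝ) ≤ N := by
      exact_mod_cast h2
    calc _ ≤ ∑ m ∈ (range N).filter (fun m => m ∉ Wd N (1 / 400)), ‖φ m * gm N m y‖ :=
          norm_sum_le _ _
      _ ≤ ∑ m ∈ (range N).filter (fun m => m ∉ Wd N (1 / 400)),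
          Real.exp (-(N * (3 * ρ ^ 2 / 64))) * (CK * ‖FM N f0 J v y‖) := sum_le_sum h1
      _ = ((range N).filter (fun m => m ∉ Wd N (1 / 400))).card *
          (Real.exp (-(N * (3 * ρ ^ 2 / 64))) * (CK * ‖FM N f0 J v y‖)) := by
          rw [sum_const, nsmul_eq_mul]
      _ ≤ N * (Real.exp (-(N * (3 * ρ ^ 2 / 64))) * (CK * ‖FM N f0 J v y‖)) := by gcongr
      _ = _ := by ring
  have hn := h.n1
  calc _ ≤ _ := norm_add_le _ _
    _ ≤ N * CK * Real.exp (-(N * (3 * ρ ^ 2 / 64))) * ‖FM N f0 J v y‖ +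
        N * CK * Real.exp (-(N * (3 * ρ ^ 2 / 64))) * ‖FM N f0 J v y‖ := add_le_add hA hB
    _ = (2 * CK * N) * (Real.exp (-(N * (3 * ρ ^ 2 / 64))) * ‖FM N f0 J v y‖) := by ring
    _ ≤ Real.exp (N * (ρ ^ 2 / 64)) * (Real.exp (-(N * (3 * ρ ^ 2 / 64))) * ‖FM N f0 J v y‖) :=
        mul_le_mul_of_nonneg_right hn (by positivity)
    _ = _ := by
        rw [← mul_assoc, ← Real.exp_add]
        congr 2; ring

end Ctx

end Pool.Agent.Helper9.TF
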